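import Pool.Agent.Lib.MP_9a7af0_lc.Defs

/-!
General facts on proportionally dense subgraphs.
-/

namespace Pool.Agent.Lib.MP_9a7af0_lc

open Set

variable {V : Type} [Finite V] {G : SimpleGraph V}

theorem degIn_add (S : Set V) (v : V) : degIn G S v + degIn G Sᶜ v = degIn G univ v := by
  unfold degIn
  rw [← Set.ncard_union_eq _ (Set.toFinite _) (Set.toFinite _)]
  · congr 1
    ext u
    simp only [mem_union, mem_setOf_eq, mem_compl_iff, mem_univ, and_true]
    tauto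
  · rw [Set.disjoint_left]
    rintro u ⟨_, h1⟩ ⟨_, h2⟩
    exact h2 h1

theorem degIn_pos {S : Set V} {v : V} : 0 < degIn G S v ↔ ∃ u, G.Adj v u ∧ u ∈ S := by
  unfold degIn
  rw [Set.ncard_pos (Set.toFinite _)]
  rfl

theorem degIn_mono {S T : Set V} (h : S ⊆ T) (v : V) : degIn G S v ≤ degIn G T v :=
  Set.ncard_le_ncard (fun _ hu => ⟨hu.1, h hu.2⟩) (Set.toFinite _)

theorem card_eq (S : Set V) : S.ncard + Sᶜ.ncard = Nat.card V := Set.ncard_add_ncard_compl S

/-- the density condition without denominators -/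
theorem dense_iff {a b s t : ℕ} (hs : 2 ≤ s) (ht : 1 ≤ t) :
    (b : ℚ) / (t : ℚ) ≤ (a : ℚ) / ((s : ℚ) - 1) ↔ b * (s - 1) ≤ a * t := by
  have h1 : (0 : ℚ) < (t : ℚ) := by exact_mod_cast ht
  have h2 : (0 : ℚ) < (s : ℚ) - 1 := by
    have : (2 : ℚ) ≤ (s : ℚ) := by exact_mod_cast hs
    linarith
  rw [div_le_div_iff₀ h1 h2]
  have h3 : ((s - 1 : ℕ) : ℚ) = (s : ℚ) - 1 := by
    rw [Nat.cast_sub (by omega)]
    simp
  rw [← h3]
  exact_mod_cast Iff.rfl

theorem reachable_closed {S : Set V} (hS : ∀ v ∈ S, ∀ u, G.Adj v u → u ∈ S) {a b : V}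
    (h : G.Reachable a b) (ha : a ∈ S) : b ∈ S := by
  obtain ⟨p⟩ := h
  induction p with
  | nil => exact ha
  | cons hadj _ ih => exact ih (hS _ ha _ hadj)

/-- large proportionally dense subgraphs of a connected graph of maximum degree 3 -/
theorem IsPDS.sparse {t : ℕ} (hn : Nat.card V = 3 * t + 1) (hdeg : ∀ v, degIn G univ v ≤ 3)
    (hconn : G.Preconnected) {S : Set V} (hS : IsPDS G S) (hcard : 2 * t + 1 ≤ S.ncard) :
    Sᶜ.ncard = t ∧ ∀ v ∈ S, 3 * degIn G Sᶜ v ≤ degIn G univ v := by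
  have hc := card_eq S
  have ht1 : 1 ≤ Sᶜ.ncard := by
    have := hS.le
    have := hS.two_le
    omega
  have hle : Sᶜ.ncard ≤ t := by omega
  have hd : ∀ v ∈ S, degIn G Sᶜ v * (S.ncard - 1) ≤ degIn G S v * Sᶜ.ncard :=
    fun v hv => (dense_iff hS.two_le ht1).mp (hS.dense v hv)
  have heq : Sᶜ.ncard = t := by
    by_contra hne
    have hlt : Sᶜ.ncard < t := by omega
    have hclosed : ∀ v ∈ S, ∀ u, G.Adj v u → u ∈ S := by
      intro v hv u huv
      by_contra hu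
      have h1 : 0 < degIn G Sᶜ v := degIn_pos.mpr ⟨u, huv, hu⟩
      have h2 := hd v hv
      have h3 := degIn_add (G := G) S v
      have h4 := hdeg v
      have h5 : S.ncard - 1 = 3 * t - Sᶜ.ncard := by omega
      rw [h5] at h2
      have h6 : degIn G S v ≤ 2 := by omega
      have h7 : degIn G S v * Sᶜ.ncard ≤ 2 * Sᶜ.ncard := Nat.mul_le_mul_right _ h6
      have h8 : 1 * (3 * t - Sᶜ.ncard) ≤ degIn G Sᶜ v * (3 * t - Sᶜ.ncard) :=
        Nat.mul_le_mul_right _ h1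
      omega
    obtain ⟨a, ha⟩ : S.Nonempty := by
      rw [← Set.ncard_pos (Set.toFinite _)]
      have := hS.two_le
      omega
    have huniv : ∀ b, b ∈ S := fun b => reachable_closed hclosed (hconn a b) ha
    have : Sᶜ = ∅ := by
      ext b
      simp [huniv b]
    rw [this] at ht1
    simp at ht1
  refine ⟨heq, ?_⟩
  intro v hv
  have h2 := hd v hv
  have h5 : S.ncard - 1 = 2 * t := by omega
  rw [h5, heq] at h2
  have h3 := degIn_add (G := G) S v
  have h6 : degIn G Sᶜ v * 2 ≤ degIn G S v := by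
    have h7 : (degIn G Sᶜ v * 2) * t ≤ degIn G S v * t := by
      calc (degIn G Sᶜ v * 2) * t = degIn G Sᶜ v * (2 * t) := by ring
        _ ≤ _ := h2
    exact Nat.le_of_mul_le_mul_right h7 (by omega)
  omega

theorem isPDS_of_sparse {t : ℕ} (ht : 1 ≤ t) (hn : Nat.card V = 3 * t + 1) {S : Set V}
    (hcard : Sᶜ.ncard = t) (h : ∀ v ∈ S, 3 * degIn G Sᶜ v ≤ degIn G univ v) :
    IsPDS G S ∧ 2 * t + 1 ≤ S.ncard := by
  have hc := card_eq S
  have hs : S.ncard = 2 * t + 1 := by omega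
  refine ⟨⟨by omega, by omega, ?_⟩, by omega⟩
  intro v hv
  rw [dense_iff (by omega) (by omega), hcard, hs]
  have h3 := degIn_add (G := G) S v
  have h4 := h v hv
  have h6 : degIn G Sᶜ v * 2 ≤ degIn G S v := by omega
  calc degIn G Sᶜ v * (2 * t + 1 - 1) = (degIn G Sᶜ v * 2) * t := by
        rw [Nat.add_sub_cancel]; ring
    _ ≤ degIn G S v * t := Nat.mul_le_mul_right _ h6

/-- `T` is tame in `G`: every vertex outside `T` has at most a third of its neighbours in `T` -/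
def Tame (G : SimpleGraph V) (T : Set V) : Prop := ∀ v ∉ T, 3 * degIn G T v ≤ degIn G univ v

theorem hasPDS_iff {t : ℕ} (ht : 1 ≤ t) (hn : Nat.card V = 3 * t + 1)
    (hdeg : ∀ v, degIn G univ v ≤ 3) (hconn : G.Preconnected) :
    HasPDS G (2 * t + 1) ↔ ∃ T : Set V, T.ncard = t ∧ Tame G T := by
  constructor
  · rintro ⟨S, hS, hk⟩
    obtain ⟨h1, h2⟩ := hS.sparse hn hdeg hconn hk
    exact ⟨Sᶜ, h1, fun v hv => h2 v (by simpa using hv)⟩
  · rintro ⟨T, hT, h⟩
    obtain ⟨h1, h2⟩ := isPDS_of_sparse (S := Tᶜ) ht hn (by rwa [compl_compl]) (by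
      rw [compl_compl]
      exact fun v hv => h v hv)
    exact ⟨Tᶜ, h1, h2⟩

theorem hasConnPDS_iff {t : ℕ} (ht : 1 ≤ t) (hn : Nat.card V = 3 * t + 1)
    (hdeg : ∀ v, degIn G univ v ≤ 3) (hconn : G.Preconnected) :
    HasConnPDS G (2 * t + 1) ↔
      ∃ T : Set V, T.ncard = t ∧ Tame G T ∧ (G.induce Tᶜ).Connected := by
  constructor
  · rintro ⟨S, hS, hc, hk⟩
    obtain ⟨h1, h2⟩ := hS.sparse hn hdeg hconn hk
    exact ⟨Sᶜ, h1, fun v hv => h2 v (by simpa using hv), by rwa [compl_compl]⟩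
  · rintro ⟨T, hT, h, hc⟩
    obtain ⟨h1, h2⟩ := isPDS_of_sparse (S := Tᶜ) ht hn (by rwa [compl_compl]) (by
      rw [compl_compl]
      exact fun v hv => h v hv)
    exact ⟨Tᶜ, h1, hc, h2⟩

/-! ### Complements of sparse graphs -/

theorem degIn_compl (R : SimpleGraph V) (S : Set V) {v : V} (hv : v ∈ S) :
    degIn Rᶜ S v + degIn R S v + 1 = S.ncard := by
  unfold degIn
  have h1 : {u | Rᶜ.Adj v u ∧ u ∈ S} ∪ {u | R.Adj v u ∧ u ∈ S} = S \ {v} := by
    ext u
    simp only [mem_union, mem_setOf_eq, SimpleGraph.compl_adj, mem_sdiff, mem_singleton_iff]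
    constructor
    · rintro (⟨⟨h1, h2⟩, h3⟩ | ⟨h1, h2⟩)
      · exact ⟨h3, fun h => h1 h.symm⟩
      · exact ⟨h2, fun h => R.irrefl (h ▸ h1)⟩
    · rintro ⟨h1, h2⟩
      by_cases h3 : R.Adj v u
      · exact Or.inr ⟨h3, h1⟩
      · exact Or.inl ⟨⟨fun h => h2 h.symm, h3⟩, h1⟩
  have h2 : Disjoint {u | Rᶜ.Adj v u ∧ u ∈ S} {u | R.Adj v u ∧ u ∈ S} := by
    rw [Set.disjoint_left]
    rintro u ⟨h1, _⟩ ⟨h2, _⟩
    rw [SimpleGraph.compl_adj] at h1
    exact h1.2 h2
  rw [← Set.ncard_union_eq h2 (Set.toFinite _) (Set.toFinite _), h1]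
  exact Set.ncard_sdiff_singleton_add_one hv (Set.toFinite _)

theorem degIn_compl' (R : SimpleGraph V) (T : Set V) {v : V} (hv : v ∉ T) :
    degIn Rᶜ T v + degIn R T v = T.ncard := by
  unfold degIn
  have h1 : {u | Rᶜ.Adj v u ∧ u ∈ T} ∪ {u | R.Adj v u ∧ u ∈ T} = T := by
    ext u
    simp only [mem_union, mem_setOf_eq, SimpleGraph.compl_adj]
    constructor
    · rintro (⟨_, h3⟩ | ⟨_, h2⟩)
      · exact h3
      · exact h2
    · intro h1
      by_cases h3 : R.Adj v u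
      · exact Or.inr ⟨h3, h1⟩
      · exact Or.inl ⟨⟨fun h => hv (h ▸ h1), h3⟩, h1⟩
  have h2 : Disjoint {u | Rᶜ.Adj v u ∧ u ∈ T} {u | R.Adj v u ∧ u ∈ T} := by
    rw [Set.disjoint_left]
    rintro u ⟨h1, _⟩ ⟨h2, _⟩
    rw [SimpleGraph.compl_adj] at h1
    exact h1.2 h2
  rw [← Set.ncard_union_eq h2 (Set.toFinite _) (Set.toFinite _), h1]

/-- the condition in terms of the complement -/
theorem isPDS_compl_iff (R : SimpleGraph V) (S : Set V) (hs : 2 ≤ S.ncard)
    (ht : 1 ≤ Sᶜ.ncard) : IsPDS Rᶜ S ↔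
      ∀ v ∈ S, degIn R univ v * Sᶜ.ncard ≤ degIn R Sᶜ v * (Nat.card V - 1) := by
  have hc := card_eq S
  have key : ∀ v ∈ S, ((degIn Rᶜ Sᶜ v : ℚ) / (Sᶜ.ncard : ℚ) ≤
      (degIn Rᶜ S v : ℚ) / ((S.ncard : ℚ) - 1) ↔
      degIn R univ v * Sᶜ.ncard ≤ degIn R Sᶜ v * (Nat.card V - 1)) := by
    intro v hv
    rw [dense_iff hs ht]
    have h1 := degIn_compl R S hv
    have h2 := degIn_compl' R Sᶜ (v := v) (by simpa using hv)
    have h3 := degIn_add (G := R) S v
    generalize degIn Rᶜ S v = a at *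
    generalize degIn Rᶜ Sᶜ v = b at *
    generalize degIn R S v = c at *
    generalize degIn R Sᶜ v = d at *
    generalize degIn R univ v = e at *
    generalize S.ncard = s at *
    generalize Sᶜ.ncard = t at *
    generalize Nat.card V = n at *
    subst h1 h2 h3
    rw [← hc]
    have e1 : a + c + 1 - 1 = a + c := by omega
    have e2 : a + c + 1 + (b + d) - 1 = a + c + b + d := by omega
    rw [e1, e2]
    constructor
    · intro h
      nlinarith
    · intro h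
      nlinarith
  constructor
  · intro h v hv
    exact (key v hv).mp (h.dense v hv)
  · intro h
    exact ⟨hs, by omega, fun v hv => (key v hv).mpr (h v hv)⟩

end Pool.Agent.Lib.MP_9a7af0_lc
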