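import Mathlib
import Pool.Prelude.Def_F_458e953d

/-!
Definitions for the statement: proportionally dense subgraphs, maximum degree, h-index,
NP-hardness of the size problem on a class of graphs.
-/

namespace Pool.Agent.Lib.MP_9a7af0_lc

open N68a2faeb N487b59b3

/-- The number of neighbours of `v` in `S`. -/
noncomputable def degIn {V : Type} (G : SimpleGraph V) (S : Set V) (v : V) : ℕ :=
  {u : V | G.Adj v u ∧ u ∈ S}.ncard

/-- `S` is a proportionally dense subgraph of the graph `G` (on a finite vertex set `V`):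
`2 ≤ |S| ≤ |V| - 1` and every `v ∈ S` has `d_S(v) / (|S| - 1) ≥ d_{V∖S}(v) / |V∖S|`. -/
structure IsPDS {V : Type} (G : SimpleGraph V) (S : Set V) : Prop where
  two_le : 2 ≤ S.ncard
  le : S.ncard ≤ Nat.card V - 1
  dense : ∀ v ∈ S, (degIn G Sᶜ v : ℚ) / (Sᶜ.ncard : ℚ) ≤ (degIn G S v : ℚ) / ((S.ncard : ℚ) - 1)

/-- `G` has a proportionally dense subgraph of size at least `k`. -/
def HasPDS {V : Type} (G : SimpleGraph V) (k : ℕ) : Prop := ∃ S : Set V, IsPDS G S ∧ k ≤ S.ncard

/-- `G` has a connected proportionally dense subgraph of size at least `k`. -/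
def HasConnPDS {V : Type} (G : SimpleGraph V) (k : ℕ) : Prop :=
  ∃ S : Set V, IsPDS G S ∧ (G.induce S).Connected ∧ k ≤ S.ncard

/-- The maximum degree of `G` is `d`. -/
structure MaxDegree {V : Type} (G : SimpleGraph V) (d : ℕ) : Prop where
  le : ∀ v, degIn G Set.univ v ≤ d
  attained : ∃ v, degIn G Set.univ v = d

/-- The h-index of `G` is `d`: the largest `h` such that at least `h` vertices have degree at
least `h`. -/
def HIndex {V : Type} (G : SimpleGraph V) (d : ℕ) : Prop :=
  IsGreatest {h : ℕ | h ≤ {v : V | h ≤ degIn G Set.univ v}.ncard} d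

/-- A list of vertices and a symmetric list of ordered pairs describe a graph: no repetitions, and
every pair consists of two distinct vertices. -/
structure IsGraph (g : List ℕ × List (ℕ × ℕ)) : Prop where
  nodup_vertices : g.1.Nodup
  nodup_pairs : g.2.Nodup
  pairs : ∀ a ∈ g.2, a.1 ∈ g.1 ∧ a.2 ∈ g.1 ∧ a.1 ≠ a.2 ∧ (a.2, a.1) ∈ g.2

/-- The graph described by `g`: its vertices are the members of the vertex list, `u` and `v` are
adjacent if the pair `(u, v)` is listed. -/
def graphOf (g : List ℕ × List (ℕ × ℕ)) : SimpleGraph {v : ℕ // v ∈ g.1} where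
  Adj u v := u ≠ v ∧ ((u.1, v.1) ∈ g.2 ∨ (v.1, u.1) ∈ g.2)
  symm := ⟨fun _ _ h => ⟨h.1.symm, h.2.symm⟩⟩
  loopless := ⟨fun _ h => h.1 rfl⟩

/-- The decision problem `Q` (given a graph `G` and a number `k`, does `Q G k` hold?) is NP-hard
on the class `C` of graphs: every language in `NP` has a polynomial time reduction to it all of
whose values are descriptions of graphs in the class. -/
def NPHardOn (C : ∀ {V : Type}, SimpleGraph V → Prop) (Q : ∀ {V : Type}, SimpleGraph V → ℕ → Prop) :
    Prop :=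
  ∀ L ∈ NP, ∃ f : List Bool → (List ℕ × List (ℕ × ℕ)) × ℕ, IsPolyTime f ∧
    (∀ x, IsGraph (f x).1 ∧ C (graphOf (f x).1)) ∧
    ∀ x, L x = true ↔ Q (graphOf (f x).1) (f x).2

end Pool.Agent.Lib.MP_9a7af0_lc
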