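import Pool.Agent.Lib.MP_9a7af0_lc.Basic

/-!
The dense construction: domination in a graph made of cycles and clause vertices.
-/

namespace Pool.Agent.Lib.MP_9a7af0_lc

open Set

/-- vertices: cycle vertices, clause vertices, a clique, isolated vertices -/
inductive BV (X O J : Type) (D M : ℕ)
  | cyc (c : X × O × Fin 3)
  | cla (j : J)
  | clq (i : Fin (D + 1))
  | iso (i : Fin M)

/-- parameters of the dense construction -/
structure DPar (X O J : Type) where
  /-- the variable of an occurrence -/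
  vr : O → X
  /-- its sign -/
  pol : O → Bool
  /-- its clause -/
  cl : O → J
  /-- the cyclic order of the occurrences -/
  τ : O → O
  /-- the maximum degree -/
  D : ℕ
  /-- the number of isolated vertices -/
  M : ℕ
  τ_inj : Function.Injective τ
  hτ : ∀ A : Set O, A.Nonempty → (∀ l ∈ A, τ l ∈ A) → A = univ
  fib : ∀ j, {o | cl o = j}.ncard ≤ 3
  cl_surj : ∀ j, ∃ o, cl o = j
  D_ge : 3 ≤ D
  M_ge : D * (Nat.card X * Nat.card O + 1) + 2 ≤ M

namespace DPar

variable {X O J : Type} [Finite X] [Finite O] [Finite J] (P : DPar X O J)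

/-- the attachment point on the three vertices of an occurrence -/
def port (b : Bool) : Fin 3 := if b then 0 else 1

/-- successor on the cycles -/
def nx (c : X × O × Fin 3) : X × O × Fin 3 :=
  if c.2.2 = 2 then (c.1, P.τ c.2.1, 0) else (c.1, c.2.1, c.2.2 + 1)

/-- directed form of adjacency -/
def Ed : BV X O J P.D P.M → BV X O J P.D P.M → Prop
  | .cyc c, .cyc c' => c' = P.nx c
  | .cla j, .cyc c => P.cl c.2.1 = j ∧ c.1 = P.vr c.2.1 ∧ c.2.2 = port (P.pol c.2.1)
  | .clq _, .clq _ => True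
  | _, _ => False

/-- the vertex type -/
abbrev B : Type := BV X O J P.D P.M

/-- the sparse graph -/
def R : SimpleGraph P.B where
  Adj x y := x ≠ y ∧ (P.Ed x y ∨ P.Ed y x)
  symm := ⟨fun _ _ h => ⟨h.1.symm, h.2.symm⟩⟩
  loopless := ⟨fun _ h => h.1 rfl⟩

/-- the vertices as a sum type -/
def bEquiv : P.B ≃ (X × O × Fin 3) ⊕ (J ⊕ (Fin (P.D + 1) ⊕ Fin P.M)) where
  toFun
    | .cyc c => .inl c
    | .cla j => .inr (.inl j)
    | .clq i => .inr (.inr (.inl i))
    | .iso i => .inr (.inr (.inr i))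
  invFun
    | .inl c => .cyc c
    | .inr (.inl j) => .cla j
    | .inr (.inr (.inl i)) => .clq i
    | .inr (.inr (.inr i)) => .iso i
  left_inv := by rintro (_ | _ | _ | _) <;> rfl
  right_inv := by rintro (_ | _ | _ | _) <;> rfl

instance : Finite P.B := Finite.of_equiv _ P.bEquiv.symm

theorem card_B : Nat.card P.B = Nat.card X * Nat.card O * 3 + Nat.card J + (P.D + 1) + P.M := by
  rw [Nat.card_congr P.bEquiv, Nat.card_sum, Nat.card_sum, Nat.card_sum, Nat.card_prod,
    Nat.card_prod, Nat.card_fin, Nat.card_fin, Nat.card_fin]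
  ring

omit [Finite X] [Finite O] [Finite J] in
theorem nx_inj : Function.Injective P.nx := by
  rintro ⟨x, o, ρ⟩ ⟨x', o', ρ'⟩ h
  unfold nx at h
  simp only at h
  by_cases h1 : ρ = 2 <;> by_cases h2 : ρ' = 2
  · rw [if_pos h1, if_pos h2] at h
    simp only [Prod.mk.injEq, and_true] at h
    rw [h.1, P.τ_inj h.2, h1, h2]
  · rw [if_pos h1, if_neg h2] at h
    simp only [Prod.mk.injEq] at h
    exfalso
    have := h.2.2
    revert h2 this
    fin_cases ρ' <;> decide
  · rw [if_neg h1, if_pos h2] at h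
    simp only [Prod.mk.injEq] at h
    exfalso
    have := h.2.2
    revert h1 this
    fin_cases ρ <;> decide
  · rw [if_neg h1, if_neg h2] at h
    simp only [Prod.mk.injEq] at h
    rw [h.1, h.2.1, add_right_cancel h.2.2]

omit [Finite J] in
theorem nx_surj (c : X × O × Fin 3) : ∃ c', P.nx c' = c :=
  Finite.surjective_of_injective P.nx_inj c

omit [Finite X] [Finite O] [Finite J] in
theorem nx_ne (c : X × O × Fin 3) : P.nx c ≠ c := by
  obtain ⟨x, o, ρ⟩ := c
  unfold nx
  simp only
  by_cases h : ρ = 2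
  · rw [if_pos h, h]
    intro h1
    simp only [Prod.mk.injEq] at h1
    exact absurd h1.2.2 (by decide)
  · rw [if_neg h]
    intro h1
    simp only [Prod.mk.injEq, true_and] at h1
    revert h1
    fin_cases ρ <;> decide

omit [Finite X] [Finite O] [Finite J] in
theorem nx_snd (c : X × O × Fin 3) : (P.nx c).2.2 = c.2.2 + 1 := by
  obtain ⟨x, o, ρ⟩ := c
  unfold nx
  simp only
  by_cases h : ρ = 2
  · rw [if_pos h, h]
    change (0 : Fin 3) = 2 + 1
    decide
  · rw [if_neg h]

omit [Finite X] [Finite O] [Finite J] in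
theorem nx_fst (c : X × O × Fin 3) : (P.nx c).1 = c.1 := by
  unfold nx
  split_ifs <;> rfl

/-! ### Neighbours -/

omit [Finite X] [Finite O] [Finite J] in
theorem adj_cyc {c : X × O × Fin 3} {y : P.B} (h : P.R.Adj (.cyc c) y) :
    y = .cyc (P.nx c) ∨ (∃ c', P.nx c' = c ∧ y = .cyc c') ∨
      (y = .cla (P.cl c.2.1) ∧ c.1 = P.vr c.2.1 ∧ c.2.2 = port (P.pol c.2.1)) := by
  obtain ⟨_, h | h⟩ := h
  · rcases y with c' | j | i | i
    · exact Or.inl (congrArg _ h)
    · exact absurd h (by simp [Ed])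
    · exact absurd h (by simp [Ed])
    · exact absurd h (by simp [Ed])
  · rcases y with c' | j | i | i
    · exact Or.inr (Or.inl ⟨c', Eq.symm h, rfl⟩)
    · exact Or.inr (Or.inr ⟨congrArg _ h.1.symm, h.2⟩)
    · exact absurd h (by simp [Ed])
    · exact absurd h (by simp [Ed])

omit [Finite X] [Finite O] [Finite J] in
theorem adj_cla {j : J} {y : P.B} (h : P.R.Adj (.cla j) y) :
    ∃ o, P.cl o = j ∧ y = .cyc (P.vr o, o, port (P.pol o)) := by
  obtain ⟨_, h | h⟩ := h
  · rcases y with c | j | i | i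
    · obtain ⟨x, o, ρ⟩ := c
      simp only [Ed] at h
      obtain ⟨h1, h2, h3⟩ := h
      exact ⟨o, h1, by rw [h2, h3]⟩
    · exact absurd h (by simp [Ed])
    · exact absurd h (by simp [Ed])
    · exact absurd h (by simp [Ed])
  · rcases y with c' | j | i | i
    · exact absurd h (by simp [Ed])
    · exact absurd h (by simp [Ed])
    · exact absurd h (by simp [Ed])
    · exact absurd h (by simp [Ed])

omit [Finite X] [Finite O] [Finite J] in
theorem adj_clq {i : Fin (P.D + 1)} {y : P.B} (h : P.R.Adj (.clq i) y) :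
    ∃ i', i' ≠ i ∧ y = .clq i' := by
  obtain ⟨h1, h | h⟩ := h
  · rcases y with c | j | i' | i'
    · exact absurd h (by simp [Ed])
    · exact absurd h (by simp [Ed])
    · exact ⟨i', fun h' => h1 (by rw [h']), rfl⟩
    · exact absurd h (by simp [Ed])
  · rcases y with c | j | i' | i'
    · exact absurd h (by simp [Ed])
    · exact absurd h (by simp [Ed])
    · exact ⟨i', fun h' => h1 (by rw [h']), rfl⟩
    · exact absurd h (by simp [Ed])

omit [Finite X] [Finite O] [Finite J] in
theorem adj_iso {i : Fin P.M} {y : P.B} : ¬ P.R.Adj (.iso i) y := by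
  rintro ⟨_, h | h⟩
  · rcases y with c | j | i' | i' <;> exact absurd h (by simp [Ed])
  · rcases y with c | j | i' | i' <;> exact absurd h (by simp [Ed])

omit [Finite X] [Finite O] [Finite J] in
theorem adj_nx (c : X × O × Fin 3) : P.R.Adj (.cyc c) (.cyc (P.nx c)) :=
  ⟨fun h => P.nx_ne c (BV.cyc.inj h).symm, Or.inl rfl⟩

omit [Finite X] [Finite O] [Finite J] in
theorem adj_occ (o : O) :
    P.R.Adj (.cla (P.cl o)) (.cyc (P.vr o, o, port (P.pol o))) :=
  ⟨by simp, Or.inl ⟨rfl, rfl, rfl⟩⟩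

omit [Finite X] [Finite O] [Finite J] in
theorem adj_clq' {i i' : Fin (P.D + 1)} (h : i ≠ i') : P.R.Adj (.clq i) (.clq i') :=
  ⟨fun h' => h (BV.clq.inj h'), Or.inl trivial⟩

/-! ### Degrees -/

theorem deg_cla (j : J) : degIn P.R univ (.cla j) ≤ 3 := by
  have h : {u | P.R.Adj (.cla j) u ∧ u ∈ univ} ⊆
      (fun o => (.cyc (P.vr o, o, port (P.pol o)) : P.B)) '' {o | P.cl o = j} := by
    rintro u ⟨hu, _⟩
    obtain ⟨o, h1, h2⟩ := P.adj_cla hu
    exact ⟨o, h1, h2.symm⟩
  exact (Set.ncard_le_ncard h (Set.toFinite _)).trans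
    ((Set.ncard_image_le (Set.toFinite _)).trans (P.fib j))

theorem deg_cyc (c : X × O × Fin 3) : degIn P.R univ (.cyc c) ≤ 3 := by
  obtain ⟨c', hc'⟩ := P.nx_surj c
  have h : {u | P.R.Adj (.cyc c) u ∧ u ∈ univ} ⊆
      ({.cyc (P.nx c), .cyc c', .cla (P.cl c.2.1)} : Set P.B) := by
    rintro u ⟨hu, _⟩
    rcases P.adj_cyc hu with h | ⟨c'', h1, h2⟩ | ⟨h, _⟩
    · exact Or.inl h
    · rw [← hc'] at h1
      have := P.nx_inj h1
      subst this
      exact Or.inr (Or.inl h2)
    · exact Or.inr (Or.inr h)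
  have h1 := Set.ncard_le_ncard h (Set.toFinite _)
  have h2 := Set.ncard_insert_le (BV.cyc (P.nx c)) ({.cyc c', .cla (P.cl c.2.1)} : Set P.B)
  have h3 := Set.ncard_insert_le (BV.cyc c') ({.cla (P.cl c.2.1)} : Set P.B)
  rw [Set.ncard_singleton] at h3
  exact h1.trans (by omega)

theorem deg_clq (i : Fin (P.D + 1)) : degIn P.R univ (.clq i) = P.D := by
  have h : {u | P.R.Adj (.clq i) u ∧ u ∈ univ} = (fun i' => (.clq i' : P.B)) '' {i}ᶜ := by
    ext u
    constructor
    · rintro ⟨hu, _⟩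
      obtain ⟨i', h1, h2⟩ := P.adj_clq hu
      exact ⟨i', h1, h2.symm⟩
    · rintro ⟨i', h1, rfl⟩
      exact ⟨P.adj_clq' (fun h => h1 h.symm), trivial⟩
  unfold degIn
  rw [h, Set.ncard_image_of_injective _ (fun a b h => BV.clq.inj h), Set.ncard_compl,
    Set.ncard_singleton, Nat.card_fin]
  omega

theorem deg_iso (i : Fin P.M) : degIn P.R univ (.iso i) = 0 := by
  unfold degIn
  rw [Set.ncard_eq_zero (Set.toFinite _), Set.eq_empty_iff_forall_notMem]
  rintro u ⟨h, _⟩
  exact P.adj_iso h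

theorem deg_le (x : P.B) : degIn P.R univ x ≤ P.D := by
  have h := P.D_ge
  rcases x with c | j | i | i
  · exact (P.deg_cyc c).trans h
  · exact (P.deg_cla j).trans h
  · exact (P.deg_clq i).le
  · rw [P.deg_iso]; omega

theorem maxDegree : MaxDegree P.R P.D := ⟨P.deg_le, _, P.deg_clq 0⟩

theorem hIndex : HIndex P.R P.D := by
  constructor
  · have h1 : (fun i : Fin (P.D + 1) => (.clq i : P.B)) '' univ ⊆
        {v : P.B | P.D ≤ degIn P.R Set.univ v} := by
      rintro _ ⟨o, _, rfl⟩
      exact (P.deg_clq o).ge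
    have h2 := Set.ncard_le_ncard h1 (Set.toFinite _)
    rw [Set.ncard_image_of_injective _ (fun a b h => BV.clq.inj h), Set.ncard_univ,
      Nat.card_fin] at h2
    change P.D ≤ _
    omega
  · intro h hh
    by_contra hlt
    have h1 : {v : P.B | h ≤ degIn P.R Set.univ v}.ncard = 0 := by
      rw [Set.ncard_eq_zero (Set.toFinite _), Set.eq_empty_iff_forall_notMem]
      intro v hv
      have h2 := P.deg_le v
      have h3 : h ≤ degIn P.R Set.univ v := hv
      omega
    have h2 : h ≤ {v : P.B | h ≤ degIn P.R Set.univ v}.ncard := hh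
    omega

end DPar

end Pool.Agent.Lib.MP_9a7af0_lc
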