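import Pool.Agent.Lib.MP_9a7af0_lc.Dense

/-!
Dominating sets of the dense construction.
-/

namespace Pool.Agent.Lib.MP_9a7af0_lc

open Set

namespace DPar

variable {X O J : Type} [Finite X] [Finite O] [Finite J] (P : DPar X O J)

/-- `T` meets the neighbourhood of every vertex outside `T` that has a neighbour -/
def Dom (T : Set P.B) : Prop := ∀ v ∉ T, (∃ u, P.R.Adj v u) → ∃ u ∈ T, P.R.Adj v u

/-- `u` covers the cycle vertex `c` -/
def Cov (u : P.B) (c : X × O × Fin 3) : Prop := u = .cyc c ∨ P.R.Adj (.cyc c) u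

theorem cov_card (u : P.B) : {c | P.Cov u c}.ncard ≤ 3 := by
  rcases u with c | j | i | i
  · obtain ⟨c', hc'⟩ := P.nx_surj c
    have h : {d | P.Cov (.cyc c) d} ⊆ ({c, P.nx c, c'} : Set (X × O × Fin 3)) := by
      rintro d (h | h)
      · exact Or.inl (BV.cyc.inj h).symm
      · rcases P.adj_cyc h with h1 | ⟨d', h1, h2⟩ | ⟨h1, _⟩
        · right; right
          have h2 := BV.cyc.inj h1
          rw [← hc'] at h2
          exact (P.nx_inj h2).symm
        · right; left
          rw [BV.cyc.inj h2]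
          exact h1.symm
        · exact absurd h1 (by simp)
    have h1 := Set.ncard_le_ncard h (Set.toFinite _)
    have h2 := Set.ncard_insert_le c ({P.nx c, c'} : Set (X × O × Fin 3))
    have h3 := Set.ncard_insert_le (P.nx c) ({c'} : Set (X × O × Fin 3))
    rw [Set.ncard_singleton] at h3
    exact h1.trans (by omega)
  · have h : {d | P.Cov (.cla j) d} ⊆
        (fun o => (P.vr o, o, port (P.pol o))) '' {o | P.cl o = j} := by
      rintro ⟨x, o, ρ⟩ (h | h)
      · exact absurd h (by simp)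
      · rcases P.adj_cyc h with h1 | ⟨d', h1, h2⟩ | ⟨h1, h2, h3⟩
        · exact absurd h1 (by simp)
        · exact absurd h2 (by simp)
        · refine ⟨o, (BV.cla.inj h1).symm, ?_⟩
          simp only at h2 h3
          rw [h2, h3]
    exact (Set.ncard_le_ncard h (Set.toFinite _)).trans
      ((Set.ncard_image_le (Set.toFinite _)).trans (P.fib j))
  · have h : {d | P.Cov (.clq i) d} = ∅ := by
      rw [Set.eq_empty_iff_forall_notMem]
      rintro d (h | h)
      · exact absurd h (by simp)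
      · rcases P.adj_cyc h with h1 | ⟨d', h1, h2⟩ | ⟨h1, h2, h3⟩
        · exact absurd h1 (by simp)
        · exact absurd h2 (by simp)
        · exact absurd h1 (by simp)
    rw [h, Set.ncard_empty]
    omega
  · have h : {d | P.Cov (.iso i) d} = ∅ := by
      rw [Set.eq_empty_iff_forall_notMem]
      rintro d (h | h)
      · exact absurd h (by simp)
      · exact absurd h.symm P.adj_iso
    rw [h, Set.ncard_empty]
    omega

/-- in a small dominating set every cycle vertex is covered exactly once -/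
theorem unique_cov {T : Set P.B} (hT : P.Dom T)
    (hcard : T.ncard ≤ Nat.card X * Nat.card O + 1) (c : X × O × Fin 3) :
    ∃! u, u ∈ T ∧ P.Cov u c := by
  classical
  have := Fintype.ofFinite X
  have := Fintype.ofFinite O
  have := Fintype.ofFinite P.B
  -- a clique vertex
  obtain ⟨i, hi⟩ : ∃ i : Fin (P.D + 1), (.clq i : P.B) ∈ T := by
    by_cases h0 : (.clq 0 : P.B) ∈ T
    · exact ⟨0, h0⟩
    · have hD := P.D_ge
      have hne : (0 : Fin (P.D + 1)) ≠ ⟨1, by omega⟩ := by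
        intro h
        have := congrArg Fin.val h
        simp at this
      obtain ⟨u, hu, h1⟩ := hT _ h0 ⟨_, P.adj_clq' hne⟩
      obtain ⟨i', _, rfl⟩ := P.adj_clq h1
      exact ⟨i', hu⟩
  -- the part of `T` on cycles and clauses
  set S : Finset P.B := T.toFinset.erase (.clq i) with hS
  have hScard : S.card ≤ Nat.card X * Nat.card O := by
    rw [hS, Finset.card_erase_of_mem (Set.mem_toFinset.mpr hi), ← Set.ncard_eq_toFinset_card']
    omega
  have hcov1 : ∀ c : X × O × Fin 3, 1 ≤ (S.filter (fun u => P.Cov u c)).card := by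
    intro c
    rw [Nat.one_le_iff_ne_zero, Finset.card_ne_zero]
    have key : ∃ u ∈ T, P.Cov u c := by
      by_cases h : (.cyc c : P.B) ∈ T
      · exact ⟨_, h, Or.inl rfl⟩
      · obtain ⟨u, hu, h1⟩ := hT _ h ⟨_, P.adj_nx c⟩
        exact ⟨u, hu, Or.inr h1⟩
    obtain ⟨u, hu, h1⟩ := key
    refine ⟨u, ?_⟩
    rw [Finset.mem_filter, hS, Finset.mem_erase, Set.mem_toFinset]
    refine ⟨⟨?_, hu⟩, h1⟩
    rintro rfl
    rcases h1 with h | h
    · exact absurd h (by simp)
    · rcases P.adj_cyc h with h1 | ⟨d', h1, h2⟩ | ⟨h1, h2, h3⟩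
      · exact absurd h1 (by simp)
      · exact absurd h2 (by simp)
      · exact absurd h1 (by simp)
  have hsum : ∑ c : X × O × Fin 3, (S.filter (fun u => P.Cov u c)).card =
      ∑ u ∈ S, (Finset.univ.filter (fun c => P.Cov u c)).card := by
    have := Finset.sum_card_bipartiteAbove_eq_sum_card_bipartiteBelow (s := (Finset.univ :
      Finset (X × O × Fin 3))) (t := S) (fun c u => P.Cov u c)
    exact this
  have hle : ∑ u ∈ S, (Finset.univ.filter (fun c => P.Cov u c)).card ≤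
      Nat.card X * Nat.card O * 3 := by
    calc ∑ u ∈ S, (Finset.univ.filter (fun c => P.Cov u c)).card ≤ ∑ u ∈ S, 3 := by
          refine Finset.sum_le_sum fun u _ => ?_
          have h1 := P.cov_card u
          rwa [Set.ncard_eq_toFinset_card', Set.toFinset_setOf] at h1
      _ = S.card * 3 := by rw [Finset.sum_const, smul_eq_mul]
      _ ≤ _ := Nat.mul_le_mul_right _ hScard
  have hge : ∑ c : X × O × Fin 3, 1 = Nat.card X * Nat.card O * 3 := by
    rw [Finset.sum_const, Finset.card_univ, Fintype.card_prod, Fintype.card_prod,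
      Fintype.card_fin, smul_eq_mul, mul_one, Nat.card_eq_fintype_card, Nat.card_eq_fintype_card]
    ring
  have heq : ∀ c ∈ (Finset.univ : Finset (X × O × Fin 3)),
      1 = (S.filter (fun u => P.Cov u c)).card := by
    rw [← Finset.sum_eq_sum_iff_of_le (fun c _ => hcov1 c)]
    refine le_antisymm (Finset.sum_le_sum fun c _ => hcov1 c) ?_
    rw [hsum, hge]
    exact hle
  obtain ⟨u, hu⟩ := Finset.card_eq_one.mp (heq c (Finset.mem_univ _)).symm
  have hmem : ∀ w, (w ∈ T ∧ P.Cov w c) ↔ w = u := by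
    intro w
    have h1 : w ∈ S.filter (fun u => P.Cov u c) ↔ w = u := by rw [hu, Finset.mem_singleton]
    rw [← h1, Finset.mem_filter, hS, Finset.mem_erase, Set.mem_toFinset]
    constructor
    · rintro ⟨h2, h3⟩
      refine ⟨⟨?_, h2⟩, h3⟩
      rintro rfl
      rcases h3 with h | h
      · exact absurd h (by simp)
      · rcases P.adj_cyc h with h1 | ⟨d', h1, h2⟩ | ⟨h1, h2, h3⟩
        · exact absurd h1 (by simp)
        · exact absurd h2 (by simp)
        · exact absurd h1 (by simp)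
    · rintro ⟨⟨_, h2⟩, h3⟩
      exact ⟨h2, h3⟩
  exact ⟨u, (hmem u).mpr rfl, fun w hw => (hmem w).mp hw⟩

/-- the rank of a cycle vertex -/
inductive Rk (T : Set P.B) (c : X × O × Fin 3) : Fin 3 → Prop
  | self (h : (.cyc c : P.B) ∈ T) : Rk T c (c.2.2 + 2)
  | next (h : (.cyc (P.nx c) : P.B) ∈ T) : Rk T c c.2.2
  | prev (c' : X × O × Fin 3) (h : P.nx c' = c) (h' : (.cyc c' : P.B) ∈ T) : Rk T c (c.2.2 + 1)
  | ext (h : (.cla (P.cl c.2.1) : P.B) ∈ T) (h1 : c.1 = P.vr c.2.1)
      (h2 : c.2.2 = port (P.pol c.2.1)) : Rk T c c.2.2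

/-- the four types of cycle vertices -/
theorem types {T : Set P.B} {c : X × O × Fin 3} {u : P.B} (hu : u ∈ T) (h : P.Cov u c) :
    (u = .cyc c) ∨ (u = .cyc (P.nx c)) ∨ (∃ c', P.nx c' = c ∧ u = .cyc c') ∨
      (u = .cla (P.cl c.2.1) ∧ c.1 = P.vr c.2.1 ∧ c.2.2 = port (P.pol c.2.1)) := by
  rcases h with h | h
  · exact Or.inl h
  · rcases P.adj_cyc h with h1 | ⟨d', h1, h2⟩ | h1
    · exact Or.inr (Or.inl h1)
    · exact Or.inr (Or.inr (Or.inl ⟨d', h1, h2⟩))
    · exact Or.inr (Or.inr (Or.inr h1))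

theorem cov_self (c : X × O × Fin 3) : P.Cov (.cyc c) c := Or.inl rfl

theorem cov_next (c : X × O × Fin 3) : P.Cov (.cyc (P.nx c)) c := Or.inr (P.adj_nx c)

theorem cov_prev (c : X × O × Fin 3) : P.Cov (.cyc c) (P.nx c) := Or.inr (P.adj_nx c).symm

theorem cov_ext (c : X × O × Fin 3) (h1 : c.1 = P.vr c.2.1)
    (h2 : c.2.2 = port (P.pol c.2.1)) : P.Cov (.cla (P.cl c.2.1)) c := by
  obtain ⟨x, o, ρ⟩ := c
  simp only at h1 h2
  subst h1 h2
  exact Or.inr (P.adj_occ o).symm

theorem port_ne_two (b : Bool) : port b ≠ 2 := by cases b <;> decide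

section unique

variable {T : Set P.B} (hT : ∀ c, ∃! u, u ∈ T ∧ P.Cov u c)

include hT

theorem rk_exists (c : X × O × Fin 3) : ∃ k, P.Rk T c k := by
  obtain ⟨u, ⟨hu, h⟩, _⟩ := hT c
  rcases P.types hu h with rfl | rfl | ⟨c', h1, rfl⟩ | ⟨rfl, h1, h2⟩
  · exact ⟨_, .self hu⟩
  · exact ⟨_, .next hu⟩
  · exact ⟨_, .prev c' h1 hu⟩
  · exact ⟨_, .ext hu h1 h2⟩

/-- the next rank -/
theorem rk_next {c : X × O × Fin 3} {k : Fin 3} (h : P.Rk T c k) :
    ∃ k', P.Rk T (P.nx c) k' ∧ k ≤ k' ∧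
      ((.cla (P.cl c.2.1) : P.B) ∈ T → c.1 = P.vr c.2.1 → c.2.2 = port (P.pol c.2.1) →
        k < k') := by
  have huniq : ∀ c (u v : P.B), u ∈ T → P.Cov u c → v ∈ T → P.Cov v c → u = v := by
    intro c u v hu hu' hv hv'
    exact (hT c).unique ⟨hu, hu'⟩ ⟨hv, hv'⟩
  have hs := P.nx_snd c
  -- the cover of the next vertex
  obtain ⟨u, ⟨hu, hu'⟩, _⟩ := hT (P.nx c)
  rcases h with h | h | ⟨c', h0, h⟩ | ⟨h, h1, h2⟩
  · refine ⟨_, .prev c rfl h, ?_, ?_⟩
    · rw [hs, add_assoc]
      exact le_of_eq (by congr 1)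
    · intro g1 g2 g3
      have := huniq c _ _ h (P.cov_self c) g1 (P.cov_ext c g2 g3)
      simp at this
  · refine ⟨_, .self h, ?_, ?_⟩
    · rw [hs, add_assoc]
      exact le_of_eq (by simp)
    · intro g1 g2 g3
      have := huniq c _ _ h (P.cov_next c) g1 (P.cov_ext c g2 g3)
      simp at this
  · rcases P.types hu hu' with rfl | rfl | ⟨c'', h1, rfl⟩ | ⟨rfl, h1, h2⟩
    · exfalso
      have := huniq c _ _ h (h0 ▸ P.cov_prev c') hu (P.cov_next c)
      have h3 := BV.cyc.inj this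
      rw [← h0] at h3
      have h4 := congrArg (fun c => c.2.2) h3
      simp only [nx_snd] at h4
      revert h4
      generalize c'.2.2 = ρ
      fin_cases ρ <;> decide
    · refine ⟨_, .next hu, ?_, ?_⟩
      · rw [hs]
      · intro g1 g2 g3
        have := huniq c _ _ h (h0 ▸ P.cov_prev c') g1 (P.cov_ext c g2 g3)
        simp at this
    · exfalso
      have h3 := P.nx_inj h1
      subst h3
      have := huniq c'' _ _ h (h0 ▸ P.cov_prev c') hu (P.cov_self c'')
      have h4 := BV.cyc.inj this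
      rw [h4] at h0
      exact P.nx_ne _ h0
    · refine ⟨_, .ext hu h1 h2, ?_, ?_⟩
      · rw [hs]
      · intro g1 g2 g3
        have := huniq c _ _ h (h0 ▸ P.cov_prev c') g1 (P.cov_ext c g2 g3)
        simp at this
  · have hp : c.2.2 ≠ 2 := by rw [h2]; exact port_ne_two _
    have hlt : c.2.2 < c.2.2 + 1 := by
      revert hp
      generalize c.2.2 = ρ
      fin_cases ρ <;> decide
    rcases P.types hu hu' with rfl | rfl | ⟨c'', h3, rfl⟩ | ⟨rfl, h3, h4⟩
    · exfalso
      have := huniq c _ _ h (P.cov_ext c h1 h2) hu (P.cov_next c)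
      simp at this
    · refine ⟨_, .next hu, ?_, fun _ _ _ => ?_⟩
      · rw [hs]; exact hlt.le
      · rw [hs]; exact hlt
    · exfalso
      have h5 := P.nx_inj h3
      subst h5
      have := huniq c'' _ _ h (P.cov_ext c'' h1 h2) hu (P.cov_self c'')
      simp at this
    · refine ⟨_, .ext hu h3 h4, ?_, fun _ _ _ => ?_⟩
      · rw [hs]; exact hlt.le
      · rw [hs]; exact hlt

/-- the rank is unique -/
theorem rk_unique {c : X × O × Fin 3} {k k' : Fin 3} (h : P.Rk T c k) (h' : P.Rk T c k') :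
    k = k' := by
  have huniq : ∀ c (u v : P.B), u ∈ T → P.Cov u c → v ∈ T → P.Cov v c → u = v := by
    intro c u v hu hu' hv hv'
    exact (hT c).unique ⟨hu, hu'⟩ ⟨hv, hv'⟩
  rcases h with h | h | ⟨d, h0, h⟩ | ⟨h, h1, h2⟩ <;>
    rcases h' with g | g | ⟨d', g0, g⟩ | ⟨g, g1, g2⟩
  · rfl
  · exfalso
    have := BV.cyc.inj (huniq c _ _ h (P.cov_self c) g (P.cov_next c))
    exact P.nx_ne _ this.symm
  · exfalso
    have := BV.cyc.inj (huniq c _ _ h (P.cov_self c) g (g0 ▸ P.cov_prev d'))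
    rw [← g0] at this
    exact P.nx_ne _ this
  · exfalso
    have := huniq c _ _ h (P.cov_self c) g (P.cov_ext c g1 g2)
    simp at this
  · exfalso
    have := BV.cyc.inj (huniq c _ _ g (P.cov_self c) h (P.cov_next c))
    exact P.nx_ne _ this.symm
  · rfl
  · exfalso
    have := BV.cyc.inj (huniq c _ _ g (g0 ▸ P.cov_prev d') h (P.cov_next c))
    rw [← g0] at this
    have h4 := congrArg (fun c => c.2.2) this
    simp only [nx_snd] at h4
    revert h4
    generalize d'.2.2 = ρ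
    fin_cases ρ <;> decide
  · rfl
  · exfalso
    have := BV.cyc.inj (huniq c _ _ g (P.cov_self c) h (h0 ▸ P.cov_prev d))
    rw [← h0] at this
    exact P.nx_ne _ this
  · exfalso
    have := BV.cyc.inj (huniq c _ _ h (h0 ▸ P.cov_prev d) g (P.cov_next c))
    rw [← h0] at this
    have h4 := congrArg (fun c => c.2.2) this
    simp only [nx_snd] at h4
    revert h4
    generalize d.2.2 = ρ
    fin_cases ρ <;> decide
  · rfl
  · exfalso
    have := huniq c _ _ h (h0 ▸ P.cov_prev d) g (P.cov_ext c g1 g2)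
    simp at this
  · exfalso
    have := huniq c _ _ g (P.cov_self c) h (P.cov_ext c h1 h2)
    simp at this
  · rfl
  · exfalso
    have := huniq c _ _ g (g0 ▸ P.cov_prev d') h (P.cov_ext c h1 h2)
    simp at this
  · rfl

/-- the rank as a function: constant along the cycles, and no clause vertex is in `T` -/
theorem exists_rank : ∃ f : X × O × Fin 3 → Fin 3, (∀ c, P.Rk T c (f c)) ∧
    (∀ c, f (P.nx c) = f c) ∧ ∀ j, (.cla j : P.B) ∉ T := by
  classical
  have := Fintype.ofFinite X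
  have := Fintype.ofFinite O
  choose f hf using P.rk_exists hT
  have hle : ∀ c, f c ≤ f (P.nx c) := by
    intro c
    obtain ⟨k', h1, h2, _⟩ := P.rk_next hT (hf c)
    rw [P.rk_unique hT (hf (P.nx c)) h1]
    exact h2
  have hsum : ∑ c : X × O × Fin 3, (f c).1 = ∑ c : X × O × Fin 3, (f (P.nx c)).1 := by
    have hbij : Function.Bijective P.nx := ⟨P.nx_inj, fun c => P.nx_surj c⟩
    exact (Equiv.sum_comp (Equiv.ofBijective _ hbij) (fun c => (f c).1)).symm
  have hle' : ∀ c ∈ (Finset.univ : Finset (X × O × Fin 3)), (f c).1 ≤ (f (P.nx c)).1 :=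
    fun c _ => hle c
  have heq := (Finset.sum_eq_sum_iff_of_le hle').mp hsum
  refine ⟨f, hf, fun c => (Fin.ext (heq c (Finset.mem_univ _))).symm, ?_⟩
  intro j hj
  obtain ⟨o, rfl⟩ := P.cl_surj j
  obtain ⟨k', h1, _, h3⟩ := P.rk_next hT (hf (P.vr o, o, port (P.pol o)))
  have h4 := h3 hj rfl rfl
  rw [P.rk_unique hT h1 (hf _)] at h4
  have h5 := heq (P.vr o, o, port (P.pol o)) (Finset.mem_univ _)
  exact absurd h5 (ne_of_lt h4)

end unique

omit [Finite X] [Finite O] [Finite J] in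
theorem nx_apply_last (x : X) (o : O) : P.nx (x, o, 2) = (x, P.τ o, 0) := by
  unfold nx
  rw [if_pos rfl]

omit [Finite X] [Finite O] [Finite J] in
theorem nx_apply {ρ : Fin 3} (x : X) (o : O) (h : ρ ≠ 2) : P.nx (x, o, ρ) = (x, o, ρ + 1) := by
  unfold nx
  rw [if_neg h]

/-- functions that are constant along the cycles -/
theorem const_of_nx {f : X × O × Fin 3 → Fin 3} (h : ∀ c, f (P.nx c) = f c) (x : X) (o o' : O)
    (ρ ρ' : Fin 3) : f (x, o, ρ) = f (x, o', ρ') := by
  have h0 : ∀ o ρ, f (x, o, ρ) = f (x, o, 0) := by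
    intro o ρ
    have h1 : f (x, o, 1) = f (x, o, 0) := by
      rw [← h (x, o, 0), P.nx_apply x o (by decide)]
      rfl
    have h2 : f (x, o, 2) = f (x, o, 1) := by
      rw [← h (x, o, 1), P.nx_apply x o (by decide)]
      rfl
    fin_cases ρ
    · rfl
    · exact h1
    · exact h2.trans h1
  have h3 : ∀ o, f (x, P.τ o, 0) = f (x, o, 0) := by
    intro o
    rw [← P.nx_apply_last, h, h0]
  have h4 := P.hτ {o' | f (x, o', 0) = f (x, o, 0)} ⟨o, rfl⟩ (fun l hl => (h3 l).trans hl)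
  have h5 : o' ∈ {o' | f (x, o', 0) = f (x, o, 0)} := by rw [h4]; trivial
  rw [h0 o ρ, h0 o' ρ']
  exact h5.symm

/-- small dominating sets give satisfying assignments -/
theorem sat_of_dom {T : Set P.B} (hT : P.Dom T)
    (hcard : T.ncard ≤ Nat.card X * Nat.card O + 1) :
    ∃ β : X → Bool, ∀ j, ∃ o, P.cl o = j ∧ β (P.vr o) = P.pol o := by
  classical
  have hu := P.unique_cov hT hcard
  obtain ⟨f, hf, hc, hj⟩ := P.exists_rank hu
  refine ⟨fun x => decide (∃ o, f (x, o, 0) = 2), ?_⟩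
  intro j
  obtain ⟨o₁, ho₁⟩ := P.cl_surj j
  obtain ⟨u, hu1, hu2⟩ := hT (.cla j) (hj j) ⟨_, ho₁ ▸ P.adj_occ o₁⟩
  obtain ⟨o, ho, rfl⟩ := P.adj_cla hu2
  refine ⟨o, ho, ?_⟩
  have h1 := P.rk_unique hu (hf (P.vr o, o, port (P.pol o))) (.self hu1)
  simp only at h1
  cases hp : P.pol o
  · rw [hp] at h1
    simp only [decide_eq_false_iff_not]
    rintro ⟨o', ho'⟩
    rw [P.const_of_nx hc _ o o' _ 0, ho'] at h1
    exact absurd h1 (by decide)
  · rw [hp] at h1
    simp only [decide_eq_true_eq]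
    refine ⟨o, ?_⟩
    rw [P.const_of_nx hc _ o o _ (port true), h1]
    decide

/-- the dominating set of an assignment -/
def TB (β : X → Bool) : Set P.B :=
  insert (.clq 0) ((fun x : X × O => (.cyc (x.1, x.2, port (β x.1)) : P.B)) '' univ)

theorem TB_card (β : X → Bool) : (P.TB β).ncard = Nat.card X * Nat.card O + 1 := by
  unfold TB
  rw [Set.ncard_insert_of_notMem _ (Set.toFinite _), Set.ncard_image_of_injective,
    Set.ncard_univ, Nat.card_prod]
  · rintro ⟨x, o⟩ ⟨x', o'⟩ h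
    have := BV.cyc.inj h
    simp only [Prod.mk.injEq] at this
    rw [this.1, this.2.1]
  · rintro ⟨x, _, h⟩
    simp at h

theorem mem_TB_cyc {β : X → Bool} {c : X × O × Fin 3} :
    (.cyc c : P.B) ∈ P.TB β ↔ c.2.2 = port (β c.1) := by
  unfold TB
  constructor
  · rintro (h | ⟨x, _, h⟩)
    · exact absurd h (by simp)
    · rw [← BV.cyc.inj h]
  · intro h
    right
    refine ⟨(c.1, c.2.1), trivial, ?_⟩
    obtain ⟨x, o, ρ⟩ := c
    simp only at h
    rw [h]

theorem dom_TB {β : X → Bool} (hβ : ∀ j, ∃ o, P.cl o = j ∧ β (P.vr o) = P.pol o) :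
    P.Dom (P.TB β) := by
  intro v hv hadj
  rcases v with c | j | i | i
  · rw [mem_TB_cyc] at hv
    by_cases h1 : c.2.2 + 1 = port (β c.1)
    · exact ⟨.cyc (P.nx c), by rw [mem_TB_cyc, nx_snd, nx_fst, h1], P.adj_nx c⟩
    · obtain ⟨c', hc'⟩ := P.nx_surj c
      refine ⟨.cyc c', ?_, ?_⟩
      · have h2 : c.2.2 = c'.2.2 + 1 := by rw [← hc', nx_snd]
        have h3 : c.1 = c'.1 := by rw [← hc', nx_fst]
        rw [mem_TB_cyc]
        rw [h2, h3] at h1 hv
        revert h1 hv
        generalize port (β c'.1) = p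
        generalize c'.2.2 = ρ
        fin_cases p <;> fin_cases ρ <;> decide
      · rw [← hc']
        exact (P.adj_nx c').symm
  · obtain ⟨o, h1, h2⟩ := hβ j
    refine ⟨.cyc (P.vr o, o, port (P.pol o)), ?_, ?_⟩
    · rw [mem_TB_cyc, h2]
    · rw [← h1]
      exact P.adj_occ o
  · refine ⟨.clq 0, Or.inl rfl, ?_⟩
    apply P.adj_clq'
    rintro rfl
    exact hv (Or.inl rfl)
  · obtain ⟨u, hu⟩ := hadj
    exact absurd hu P.adj_iso

/-! ### Proportionally dense subgraphs of the complement -/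

/-- the number of vertices of the wanted subgraph -/
noncomputable def k : ℕ := Nat.card P.B - (Nat.card X * Nat.card O + 1)

theorem dom_of_pds {S : Set P.B} (hS : IsPDS P.Rᶜ S) : P.Dom Sᶜ := by
  have h1 : 1 ≤ Sᶜ.ncard := by
    have h1 := hS.le
    have h2 := hS.two_le
    have h3 := card_eq S
    omega
  have h2 := (isPDS_compl_iff P.R S hS.two_le h1).mp hS
  rintro v hv ⟨u, hu⟩
  have hv' : v ∈ S := by
    by_contra h
    exact hv h
  have h3 := h2 v hv'
  have h4 : 0 < degIn P.R univ v := degIn_pos.mpr ⟨u, hu, trivial⟩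
  have h5 : 0 < degIn P.R Sᶜ v := by
    by_contra h
    have h6 : degIn P.R Sᶜ v = 0 := by omega
    rw [h6, zero_mul] at h3
    have := Nat.mul_pos h4 h1
    omega
  obtain ⟨w, hw1, hw2⟩ := degIn_pos.mp h5
  exact ⟨w, hw2, hw1⟩

theorem pds_of_dom {β : X → Bool} (hβ : P.Dom (P.TB β)) : IsPDS P.Rᶜ (P.TB β)ᶜ := by
  have h1 := P.TB_card β
  have h2 := card_eq (P.TB β)
  have h3 := P.card_B
  have h4 := P.M_ge
  have h5 := P.D_ge
  have h6 : 3 * (Nat.card X * Nat.card O + 1) ≤ P.D * (Nat.card X * Nat.card O + 1) :=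
    Nat.mul_le_mul_right _ h5
  rw [isPDS_compl_iff P.R (P.TB β)ᶜ (by omega) (by rw [compl_compl]; omega)]
  intro v hv
  rw [compl_compl]
  by_cases h7 : ∃ u, P.R.Adj v u
  · obtain ⟨u, hu, hvu⟩ := hβ v hv h7
    have h8 : 1 ≤ degIn P.R (P.TB β) v := degIn_pos.mpr ⟨u, hvu, hu⟩
    have h9 := P.deg_le v
    calc degIn P.R univ v * (P.TB β).ncard ≤ P.D * (P.TB β).ncard := Nat.mul_le_mul_right _ h9
      _ ≤ 1 * (Nat.card P.B - 1) := by
        rw [h1]
        omega
      _ ≤ _ := Nat.mul_le_mul_right _ h8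
  · have h8 : degIn P.R univ v = 0 := by
      by_contra h
      apply h7
      obtain ⟨u, hu, _⟩ := degIn_pos.mp (Nat.pos_of_ne_zero h)
      exact ⟨u, hu⟩
    rw [h8, zero_mul]
    exact Nat.zero_le _

theorem connected_TB (β : X → Bool) : (P.Rᶜ.induce (P.TB β)ᶜ).Connected := by
  have hM : 0 < P.M := by
    have := P.M_ge
    omega
  have h0 : (.iso ⟨0, hM⟩ : P.B) ∈ (P.TB β)ᶜ := by
    rintro (h | ⟨x, _, h⟩)
    · simp at h
    · simp at h
  refine (SimpleGraph.connected_iff_exists_forall_reachable _).mpr ⟨⟨_, h0⟩, ?_⟩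
  rintro ⟨x, hx⟩
  by_cases h : (.iso ⟨0, hM⟩ : P.B) = x
  · subst h
    exact .refl _
  · apply SimpleGraph.Adj.reachable
    change P.Rᶜ.Adj _ _
    rw [SimpleGraph.compl_adj]
    exact ⟨h, P.adj_iso⟩

theorem pds_iff : HasPDS P.Rᶜ P.k ↔
    ∃ β : X → Bool, ∀ j, ∃ o, P.cl o = j ∧ β (P.vr o) = P.pol o := by
  constructor
  · rintro ⟨S, hS, hk⟩
    refine P.sat_of_dom (P.dom_of_pds hS) ?_
    have h1 := card_eq S
    unfold k at hk
    omega
  · rintro ⟨β, hβ⟩
    refine ⟨_, P.pds_of_dom (P.dom_TB hβ), ?_⟩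
    have h1 := card_eq (P.TB β)
    have h2 := P.TB_card β
    unfold k
    omega

theorem connPds_iff : HasConnPDS P.Rᶜ P.k ↔
    ∃ β : X → Bool, ∀ j, ∃ o, P.cl o = j ∧ β (P.vr o) = P.pol o := by
  constructor
  · rintro ⟨S, hS, _, hk⟩
    exact P.pds_iff.mp ⟨S, hS, hk⟩
  · rintro ⟨β, hβ⟩
    refine ⟨_, P.pds_of_dom (P.dom_TB hβ), P.connected_TB β, ?_⟩
    have h1 := card_eq (P.TB β)
    have h2 := P.TB_card β
    unfold k
    omega

end DPar

end Pool.Agent.Lib.MP_9a7af0_lc
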