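import Pool.Agent.Lib.MP_9a7af0_lc.RecsD

/-!
NP-hardness of proportionally dense subgraph problems in low-degree graph classes.
-/

namespace Pool.Agent.Lib.MP_9a7af0_lc

theorem hard_maxDegree_three : NPHardOn (fun G => MaxDegree G 3) HasPDS ∧
    NPHardOn (fun G => MaxDegree G 3) HasConnPDS :=
  ⟨hard_sparse _ _ maxDegree_sparse hasPDS_sparse,
    hard_sparse _ _ maxDegree_sparse hasConnPDS_sparse⟩

theorem hard_hIndex_three : NPHardOn (fun G => HIndex G 3) HasPDS ∧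
    NPHardOn (fun G => HIndex G 3) HasConnPDS :=
  ⟨hard_sparse _ _ hIndex_sparse hasPDS_sparse,
    hard_sparse _ _ hIndex_sparse hasConnPDS_sparse⟩

theorem hard_maxDegree_compl {D : ℕ} (hD : 3 ≤ D) : NPHardOn (fun G => MaxDegree Gᶜ D) HasPDS ∧
    NPHardOn (fun G => MaxDegree Gᶜ D) HasConnPDS :=
  ⟨hard_dense D _ _ (maxDegree_dense D hD) (isGraph_dense D hD) (hasPDS_dense D hD),
    hard_dense D _ _ (maxDegree_dense D hD) (isGraph_dense D hD) (hasConnPDS_dense D hD)⟩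

theorem hard_hIndex_compl {D : ℕ} (hD : 3 ≤ D) : NPHardOn (fun G => HIndex Gᶜ D) HasPDS ∧
    NPHardOn (fun G => HIndex Gᶜ D) HasConnPDS :=
  ⟨hard_dense D _ _ (hIndex_dense D hD) (isGraph_dense D hD) (hasPDS_dense D hD),
    hard_dense D _ _ (hIndex_dense D hD) (isGraph_dense D hD) (hasConnPDS_dense D hD)⟩

end Pool.Agent.Lib.MP_9a7af0_lc
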