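import Pool.Agent.Lib.CookLevin.Main
import Pool.Agent.Lib.PolyTime.Bounded

/-!
Satisfiability as an independent set problem on literal occurrences and dummies.
-/

namespace Pool.Agent.Lib.MP_9a7af0_lc

open N68a2faeb N487b59b3 Pool.Agent.Lib.PolyTime Pool.Agent.Lib.CookLevin

/-- the clauses with a trivially true one in front -/
def cls (φ : List (List (ℕ × Bool))) : List (List (ℕ × Bool)) := [(0, true), (0, false)] :: φ

/-- the literal occurrences with the numbers of their clauses -/
def occ (φ : List (List (ℕ × Bool))) : List (ℕ × (ℕ × Bool)) :=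
  (cls φ).zipIdx.flatMap fun c => c.1.map fun l => (c.2, l)

/-- conflicts between occurrences -/
def cfB (x y : (ℕ × (ℕ × Bool)) × ℕ) : Bool :=
  !(decide (x.2 = y.2)) && (decide (x.1.1 = y.1.1) ||
    (decide (x.1.2.1 = y.1.2.1) && !(decide (x.1.2.2 = y.1.2.2))))

/-- the list of conflicts -/
def conf (φ : List (List (ℕ × Bool))) : List (ℕ × ℕ) :=
  (occ φ).zipIdx.flatMap fun x => ((occ φ).zipIdx.filter fun y => cfB x y).map fun y => (x.2, y.2)

theorem mem_occ {φ : List (List (ℕ × Bool))} {j : ℕ} {l : ℕ × Bool} :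
    (j, l) ∈ occ φ ↔ ∃ c, (cls φ)[j]? = some c ∧ l ∈ c := by
  unfold occ
  rw [List.mem_flatMap]
  constructor
  · rintro ⟨⟨c, k⟩, h1, h2⟩
    rw [List.mem_map] at h2
    obtain ⟨l', h3, h4⟩ := h2
    rw [Prod.mk.injEq] at h4
    obtain ⟨rfl, rfl⟩ := h4
    rw [List.mem_zipIdx_iff_getElem?] at h1
    exact ⟨c, h1, h3⟩
  · rintro ⟨c, h1, h2⟩
    refine ⟨(c, j), ?_, ?_⟩
    · rw [List.mem_zipIdx_iff_getElem?]
      exact h1
    · rw [List.mem_map]
      exact ⟨l, h2, rfl⟩

theorem mem_conf {φ : List (List (ℕ × Bool))} {i j : ℕ} :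
    (i, j) ∈ conf φ ↔ ∃ x y, (occ φ)[i]? = some x ∧ (occ φ)[j]? = some y ∧
      cfB (x, i) (y, j) = true := by
  unfold conf
  rw [List.mem_flatMap]
  constructor
  · rintro ⟨⟨x, k⟩, h1, h2⟩
    rw [List.mem_map] at h2
    obtain ⟨⟨y, k'⟩, h3, h4⟩ := h2
    rw [Prod.mk.injEq] at h4
    obtain ⟨rfl, rfl⟩ := h4
    rw [List.mem_filter] at h3
    rw [List.mem_zipIdx_iff_getElem?] at h1
    have h5 := h3.1
    rw [List.mem_zipIdx_iff_getElem?] at h5
    exact ⟨x, y, h1, h5, h3.2⟩
  · rintro ⟨x, y, h1, h2, h3⟩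
    refine ⟨(x, i), ?_, ?_⟩
    · rw [List.mem_zipIdx_iff_getElem?]
      exact h1
    · rw [List.mem_map]
      refine ⟨(y, j), ?_, rfl⟩
      rw [List.mem_filter, List.mem_zipIdx_iff_getElem?]
      exact ⟨h2, h3⟩

theorem conf_lt {φ : List (List (ℕ × Bool))} {p : ℕ × ℕ} (h : p ∈ conf φ) :
    p.1 < (occ φ).length ∧ p.2 < (occ φ).length := by
  obtain ⟨x, y, h1, h2, _⟩ := mem_conf.mp h
  exact ⟨(List.getElem?_eq_some_iff.mp h1).1, (List.getElem?_eq_some_iff.mp h2).1⟩

theorem two_le_occ (φ : List (List (ℕ × Bool))) : 2 ≤ (occ φ).length := by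
  unfold occ cls
  rw [List.zipIdx_cons, List.flatMap_cons]
  simp

theorem one_le_cls (φ : List (List (ℕ × Bool))) : 1 ≤ (cls φ).length := by
  unfold cls
  simp

theorem sat_cls {φ : List (List (ℕ × Bool))} {β : ℕ → Bool} : Sat β (cls φ) ↔ Sat β φ := by
  unfold Sat cls
  constructor
  · intro h c hc
    exact h c (List.mem_cons_of_mem _ hc)
  · intro h c hc
    rw [List.mem_cons] at hc
    rcases hc with rfl | hc
    · cases hb : β 0
      · exact ⟨(0, false), by simp, hb⟩
      · exact ⟨(0, true), by simp, hb⟩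
    · exact h c hc

/-- satisfiability and independent sets -/
theorem sat_iff_indep (φ : List (List (ℕ × Bool))) : (∃ β, Sat β φ) ↔
    ∃ I : Finset ℕ, I ⊆ Finset.range (2 * (occ φ).length) ∧
      I.card = (cls φ).length + (occ φ).length ∧ ∀ p ∈ conf φ, ¬ (p.1 ∈ I ∧ p.2 ∈ I) := by
  classical
  set N := (occ φ).length with hN
  set m := (cls φ).length with hm
  constructor
  · rintro ⟨β, hβ⟩
    rw [← sat_cls] at hβ
    have h1 : ∀ j : Fin m, ∃ i : ℕ, ∃ l, (occ φ)[i]? = some (j.1, l) ∧ β l.1 = l.2 := by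
      intro j
      have hj : (cls φ)[j.1]? = some (cls φ)[j.1] := List.getElem?_eq_getElem j.2
      obtain ⟨l, hl, hb⟩ := hβ _ (List.getElem_mem j.2)
      obtain ⟨i, hi⟩ := List.mem_iff_getElem?.mp (mem_occ.mpr ⟨_, hj, hl⟩)
      exact ⟨i, l, hi, hb⟩
    choose g l hg hb using h1
    have hgN : ∀ j, g j < N := fun j => (List.getElem?_eq_some_iff.mp (hg j)).1
    have hginj : Function.Injective g := by
      intro j j' h
      have h2 := hg j
      rw [h, hg j', Option.some.injEq, Prod.mk.injEq] at h2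
      exact Fin.ext h2.1.symm
    refine ⟨Finset.univ.image g ∪ (Finset.range N).image (fun i => i + N), ?_, ?_, ?_⟩
    · intro i hi
      rw [Finset.mem_union, Finset.mem_image, Finset.mem_image] at hi
      rw [Finset.mem_range]
      rcases hi with ⟨j, _, rfl⟩ | ⟨k, hk, rfl⟩
      · have := hgN j
        omega
      · rw [Finset.mem_range] at hk
        omega
    · rw [Finset.card_union_of_disjoint, Finset.card_image_of_injective _ hginj,
        Finset.card_image_of_injective _ (fun a b h => by simpa using h), Finset.card_univ,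
        Fintype.card_fin, Finset.card_range]
      rw [Finset.disjoint_left]
      intro i hi hi'
      rw [Finset.mem_image] at hi hi'
      obtain ⟨j, _, rfl⟩ := hi
      obtain ⟨k, _, h⟩ := hi'
      have := hgN j
      omega
    · rintro ⟨i, i'⟩ hp ⟨hi, hi'⟩
      obtain ⟨x, y, hx, hy, hc⟩ := mem_conf.mp hp
      have hlt := conf_lt hp
      simp only at hlt hi hi'
      have key : ∀ i, i < N → i ∈ Finset.univ.image g ∪ (Finset.range N).image (fun i => i + N) →
          ∃ j, g j = i := by
        intro i hi h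
        rw [Finset.mem_union, Finset.mem_image, Finset.mem_image] at h
        rcases h with ⟨j, _, rfl⟩ | ⟨k, hk, rfl⟩
        · exact ⟨j, rfl⟩
        · omega
      obtain ⟨j, rfl⟩ := key i hlt.1 hi
      obtain ⟨j', rfl⟩ := key i' hlt.2 hi'
      rw [hg j, Option.some.injEq] at hx
      rw [hg j', Option.some.injEq] at hy
      subst hx hy
      unfold cfB at hc
      simp only [Bool.and_eq_true, Bool.not_eq_true', decide_eq_false_iff_not, Bool.or_eq_true,
        decide_eq_true_eq] at hc
      obtain ⟨h2, h3 | ⟨h3, h4⟩⟩ := hc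
      · apply h2
        rw [Fin.ext h3]
      · apply h4
        rw [← hb j, ← hb j', h3]
  · rintro ⟨I, hI, hcard, hind⟩
    -- the real part of `I`
    set J := I.filter (fun i => i < N) with hJ
    have hJcard : m ≤ J.card := by
      have h1 : I ⊆ J ∪ Finset.Ico N (2 * N) := by
        intro i hi
        rw [Finset.mem_union, Finset.mem_filter, Finset.mem_Ico]
        have := Finset.mem_range.mp (hI hi)
        by_cases h : i < N
        · exact Or.inl ⟨hi, h⟩
        · exact Or.inr ⟨by omega, this⟩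
      have h2 := Finset.card_le_card h1
      have h3 := Finset.card_union_le J (Finset.Ico N (2 * N))
      rw [Nat.card_Ico] at h3
      omega
    have hJN : ∀ i ∈ J, i < N := fun i hi => (Finset.mem_filter.mp hi).2
    have hJI : ∀ i ∈ J, i ∈ I := fun i hi => (Finset.mem_filter.mp hi).1
    let cl : ℕ → ℕ := fun i => ((occ φ).getD i (0, (0, true))).1
    have hcl : ∀ i (h : i < N), cl i = (occ φ)[i].1 := by
      intro i h
      simp only [cl]
      rw [List.getD_eq_getElem _ _ h]
    have hclm : ∀ i ∈ J, cl i ∈ Finset.range m := by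
      intro i hi
      have h := hJN i hi
      rw [hcl i h, Finset.mem_range]
      obtain ⟨c, hc, _⟩ := mem_occ.mp (show ((occ φ)[i].1, (occ φ)[i].2) ∈ occ φ from
        List.getElem_mem h)
      exact (List.getElem?_eq_some_iff.mp hc).1
    have hclinj : Set.InjOn cl J := by
      intro i hi i' hi' h
      by_contra hne
      have h1 := hJN i hi
      have h2 := hJN i' hi'
      rw [hcl i h1, hcl i' h2] at h
      apply hind (i, i')
      · rw [mem_conf]
        refine ⟨_, _, List.getElem?_eq_getElem h1, List.getElem?_eq_getElem h2, ?_⟩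
        unfold cfB
        simp only [Bool.and_eq_true, Bool.not_eq_true', decide_eq_false_iff_not, Bool.or_eq_true,
          decide_eq_true_eq]
        exact ⟨hne, Or.inl h⟩
      · exact ⟨hJI i hi, hJI i' hi'⟩
    have himg : J.image cl = Finset.range m := by
      refine Finset.eq_of_subset_of_card_le ?_ ?_
      · intro j hj
        rw [Finset.mem_image] at hj
        obtain ⟨i, hi, rfl⟩ := hj
        exact hclm i hi
      · rw [Finset.card_image_of_injOn hclinj, Finset.card_range]
        exact hJcard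
    refine ⟨fun x => decide (∃ i ∈ J, ∃ j, (occ φ)[i]? = some (j, (x, true))), ?_⟩
    rw [← sat_cls]
    intro c hc
    obtain ⟨j, hj⟩ := List.mem_iff_getElem?.mp hc
    have hjm : j < m := (List.getElem?_eq_some_iff.mp hj).1
    have : j ∈ J.image cl := by rw [himg]; exact Finset.mem_range.mpr hjm
    rw [Finset.mem_image] at this
    obtain ⟨i, hi, hij⟩ := this
    have hiN := hJN i hi
    rw [hcl i hiN] at hij
    have hocc : (occ φ)[i]? = some (j, (occ φ)[i].2) := by
      rw [List.getElem?_eq_getElem hiN, ← hij]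
    obtain ⟨c', hc', hl⟩ := mem_occ.mp (List.mem_iff_getElem?.mpr ⟨i, hocc⟩)
    rw [hj, Option.some.injEq] at hc'
    subst hc'
    refine ⟨(occ φ)[i].2, hl, ?_⟩
    generalize (occ φ)[i].2 = l at hocc
    obtain ⟨x, b⟩ := l
    cases b
    · simp only [decide_eq_false_iff_not]
      rintro ⟨i', hi', j', h⟩
      apply hind (i, i')
      · rw [mem_conf]
        refine ⟨_, _, hocc, h, ?_⟩
        unfold cfB
        simp only [Bool.and_eq_true, Bool.not_eq_true', decide_eq_false_iff_not, Bool.or_eq_true,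
          decide_eq_true_eq]
        refine ⟨?_, Or.inr ⟨trivial, by simp⟩⟩
        rintro rfl
        rw [hocc] at h
        simp at h
      · exact ⟨hJI i hi, hJI i' hi'⟩
    · simp only [decide_eq_true_eq]
      exact ⟨i, hi, j, hocc⟩

section

variable {α : Type} [N487b59b3 α]

theorem pt_cls {φ : α → List (List (ℕ × Bool))} (hφ : IsPolyTime φ) :
    IsPolyTime (fun a => cls (φ a)) := by
  unfold cls
  fun_prop

attribute [local fun_prop] pt_cls pt_zipIdx

theorem pt_occ {φ : α → List (List (ℕ × Bool))} (hφ : IsPolyTime φ) :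
    IsPolyTime (fun a => occ (φ a)) := by
  unfold occ
  fun_prop

attribute [local fun_prop] pt_occ

theorem pt_conf {φ : α → List (List (ℕ × Bool))} (hφ : IsPolyTime φ) :
    IsPolyTime (fun a => conf (φ a)) := by
  unfold conf cfB
  refine pt_flatMap (by fun_prop) (pt_map (pt_filter ?_ (by fun_prop)) (by fun_prop))
  exact pt_zipIdx (pt_occ (pt_comp hφ pt_fst'))

end

end Pool.Agent.Lib.MP_9a7af0_lc
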