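import Pool.Agent.Lib.MP_9a7af0_lc.Basic
import Pool.Agent.Lib.PolyTime.Bounded

/-!
Transfer along isomorphisms, and graphs described by lists of records.
-/

namespace Pool.Agent.Lib.MP_9a7af0_lc

open Set N68a2faeb N487b59b3 Pool.Agent.Lib.PolyTime

section transfer

variable {V W : Type} {G : SimpleGraph V} {H : SimpleGraph W}

theorem degIn_iso (e : G ≃g H) (S : Set V) (v : V) : degIn H (e '' S) (e v) = degIn G S v := by
  unfold degIn
  rw [← Set.ncard_image_of_injective _ e.injective]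
  congr 1
  ext w
  constructor
  · rintro ⟨h1, u, hu, rfl⟩
    exact ⟨u, ⟨e.map_adj_iff.mp h1, hu⟩, rfl⟩
  · rintro ⟨u, ⟨h1, hu⟩, rfl⟩
    exact ⟨e.map_adj_iff.mpr h1, u, hu, rfl⟩

theorem degIn_iso_univ (e : G ≃g H) (v : V) : degIn H univ (e v) = degIn G univ v := by
  rw [← degIn_iso e univ v, Set.image_univ, e.surjective.range_eq]

theorem image_compl_iso (e : G ≃g H) (S : Set V) : (e '' S)ᶜ = e '' Sᶜ :=
  (Set.image_compl_eq e.bijective).symm

theorem IsPDS.iso (e : G ≃g H) {S : Set V} (h : IsPDS G S) : IsPDS H (e '' S) := by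
  have h1 : (e '' S).ncard = S.ncard := Set.ncard_image_of_injective _ e.injective
  have h2 : (e '' S)ᶜ.ncard = Sᶜ.ncard := by
    rw [image_compl_iso, Set.ncard_image_of_injective _ e.injective]
  refine ⟨by rw [h1]; exact h.two_le, ?_, ?_⟩
  · rw [h1, ← Nat.card_congr e.toEquiv]
    exact h.le
  · rintro _ ⟨v, hv, rfl⟩
    rw [h1, h2, image_compl_iso, degIn_iso, degIn_iso]
    exact h.dense v hv

theorem HasPDS.iso (e : G ≃g H) {k : ℕ} (h : HasPDS G k) : HasPDS H k := by
  obtain ⟨S, h1, h2⟩ := h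
  exact ⟨e '' S, h1.iso e, by rwa [Set.ncard_image_of_injective _ e.injective]⟩

theorem hasPDS_iso (e : G ≃g H) {k : ℕ} : HasPDS G k ↔ HasPDS H k :=
  ⟨fun h => h.iso e, fun h => h.iso e.symm⟩

/-- the restriction of an isomorphism -/
def induceIso (e : G ≃g H) (S : Set V) : G.induce S ≃g H.induce (e '' S) where
  toEquiv := e.toEquiv.image S
  map_rel_iff' := e.map_adj_iff

theorem HasConnPDS.iso (e : G ≃g H) {k : ℕ} (h : HasConnPDS G k) : HasConnPDS H k := by
  obtain ⟨S, h1, h2, h3⟩ := h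
  exact ⟨e '' S, h1.iso e, (induceIso e S).connected_iff.mp h2,
    by rwa [Set.ncard_image_of_injective _ e.injective]⟩

theorem hasConnPDS_iso (e : G ≃g H) {k : ℕ} : HasConnPDS G k ↔ HasConnPDS H k :=
  ⟨fun h => h.iso e, fun h => h.iso e.symm⟩

theorem MaxDegree.iso (e : G ≃g H) {d : ℕ} (h : MaxDegree G d) : MaxDegree H d := by
  constructor
  · intro w
    obtain ⟨v, rfl⟩ := e.surjective w
    rw [degIn_iso_univ]
    exact h.le v
  · obtain ⟨v, hv⟩ := h.attained
    exact ⟨e v, by rw [degIn_iso_univ, hv]⟩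

theorem HIndex.iso (e : G ≃g H) {d : ℕ} (h : HIndex G d) : HIndex H d := by
  have key : ∀ k : ℕ, {v : W | k ≤ degIn H Set.univ v}.ncard =
      {v : V | k ≤ degIn G Set.univ v}.ncard := by
    intro k
    rw [← Set.ncard_image_of_injective _ e.injective]
    congr 1
    ext w
    constructor
    · intro hw
      obtain ⟨v, rfl⟩ := e.surjective w
      refine ⟨v, ?_, rfl⟩
      have hw' : k ≤ degIn H univ (e v) := hw
      rw [degIn_iso_univ] at hw'
      exact hw'
    · rintro ⟨v, hv, rfl⟩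
      change k ≤ degIn H univ (e v)
      rw [degIn_iso_univ]
      exact hv
  unfold HIndex at h ⊢
  simp only [key]
  exact h

/-- the isomorphism of complements -/
def complIso (e : G ≃g H) : Gᶜ ≃g Hᶜ where
  toEquiv := e.toEquiv
  map_rel_iff' := by
    intro a b
    change (Hᶜ).Adj (e a) (e b) ↔ (Gᶜ).Adj a b
    rw [SimpleGraph.compl_adj, SimpleGraph.compl_adj, e.map_adj_iff, e.injective.ne_iff]

end transfer

/-! ### Graphs described by records -/

section records

variable {R : Type} [N487b59b3 R] [DecidableEq R]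

/-- the graph with the vertices `name r`, `r ∈ l`, and adjacency `adj` -/
def toGraph (l : List R) (adj : R → R → Bool) : List ℕ × List (ℕ × ℕ) :=
  ((uniq l).map fun r => name r, (uniq l).flatMap fun r => ((uniq l).filter fun s => adj r s).map
    fun s => (name r, name s))

theorem mem_toGraph_fst {l : List R} {adj : R → R → Bool} {v : ℕ} :
    v ∈ (toGraph l adj).1 ↔ ∃ r ∈ l, name r = v := by
  simp only [toGraph, List.mem_map, mem_uniq]

theorem mem_toGraph_snd {l : List R} {adj : R → R → Bool} {r s : R} :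
    (name r, name s) ∈ (toGraph l adj).2 ↔ r ∈ l ∧ s ∈ l ∧ adj r s = true := by
  simp only [toGraph, List.mem_flatMap, List.mem_map, List.mem_filter, Prod.mk.injEq, mem_uniq]
  constructor
  · rintro ⟨r', hr', s', ⟨hs', h⟩, h1, h2⟩
    have h3 : r' = r := name_injective h1
    have h4 : s' = s := name_injective h2
    subst h3 h4
    exact ⟨hr', hs', h⟩
  · rintro ⟨h1, h2, h3⟩
    exact ⟨r, h1, s, ⟨h2, h3⟩, rfl, rfl⟩

theorem isGraph_toGraph {l : List R} {adj : R → R → Bool} (hirr : ∀ r ∈ l, adj r r = false)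
    (hsym : ∀ r ∈ l, ∀ s ∈ l, adj r s = true → adj s r = true) : IsGraph (toGraph l adj) := by
  have hinj : Function.Injective (fun r : R => name r) := name_injective
  have hR : (uniq l).Nodup := nodup_uniq l
  constructor
  · exact hR.map hinj
  · unfold toGraph
    rw [List.nodup_flatMap]
    constructor
    · intro r _
      refine List.Nodup.map ?_ (hR.filter _)
      intro s s' h
      exact name_injective (Prod.mk.injEq _ _ _ _ ▸ h : _ ∧ _).2
    · refine List.Pairwise.imp ?_ hR
      intro r r' hne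
      rw [Function.onFun, List.disjoint_left]
      intro a ha ha'
      simp only [List.mem_map] at ha ha'
      obtain ⟨s, _, rfl⟩ := ha
      obtain ⟨s', _, h⟩ := ha'
      simp only [Prod.mk.injEq] at h
      exact hne (name_injective h.1).symm
  · intro a ha
    have ha' := ha
    simp only [toGraph, List.mem_flatMap, List.mem_map, List.mem_filter, mem_uniq] at ha
    obtain ⟨r, hr, s, ⟨hs, h⟩, rfl⟩ := ha
    refine ⟨mem_toGraph_fst.mpr ⟨r, hr, rfl⟩, mem_toGraph_fst.mpr ⟨s, hs, rfl⟩, ?_, ?_⟩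
    · intro heq
      have h1 : r = s := name_injective heq
      subst h1
      rw [hirr r hr] at h
      simp at h
    · exact mem_toGraph_snd.mpr ⟨hs, hr, hsym r hr s hs h⟩

/-- the graph described by the records is isomorphic to the given graph -/
theorem exists_iso {V : Type} {G : SimpleGraph V} {l : List R} {adj : R → R → Bool}
    {enc : V → R} (hinj : Function.Injective enc) (hmem : ∀ r, r ∈ l ↔ ∃ v, enc v = r)
    (hadj : ∀ u v, adj (enc u) (enc v) = true ↔ G.Adj u v) :
    Nonempty (G ≃g graphOf (toGraph l adj)) := by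
  have h1 : ∀ v, name (enc v) ∈ (toGraph l adj).1 := fun v =>
    mem_toGraph_fst.mpr ⟨enc v, (hmem _).mpr ⟨v, rfl⟩, rfl⟩
  let f : V → {n // n ∈ (toGraph l adj).1} := fun v => ⟨name (enc v), h1 v⟩
  have hf : Function.Bijective f := by
    constructor
    · intro u v h
      exact hinj (name_injective (congrArg Subtype.val h))
    · rintro ⟨n, hn⟩
      obtain ⟨r, hr, rfl⟩ := mem_toGraph_fst.mp hn
      obtain ⟨v, rfl⟩ := (hmem r).mp hr
      exact ⟨v, rfl⟩
  refine ⟨⟨Equiv.ofBijective f hf, ?_⟩⟩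
  intro u v
  have h2 : ∀ u v, (name (enc u), name (enc v)) ∈ (toGraph l adj).2 ↔ G.Adj u v := by
    intro u v
    rw [mem_toGraph_snd, hadj]
    exact ⟨fun h => h.2.2, fun h => ⟨(hmem _).mpr ⟨u, rfl⟩, (hmem _).mpr ⟨v, rfl⟩, h⟩⟩
  change (f u ≠ f v ∧ ((name (enc u), name (enc v)) ∈ (toGraph l adj).2 ∨
    (name (enc v), name (enc u)) ∈ (toGraph l adj).2)) ↔ G.Adj u v
  rw [h2, h2, G.adj_comm v u, or_self]
  constructor
  · exact fun h => h.2
  · exact fun h => ⟨fun h' => G.ne_of_adj h (hf.1 h'), h⟩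

theorem isGraph_of_enc {V : Type} {G : SimpleGraph V} {l : List R} {adj : R → R → Bool}
    {enc : V → R} (hmem : ∀ r, r ∈ l ↔ ∃ v, enc v = r)
    (hadj : ∀ u v, adj (enc u) (enc v) = true ↔ G.Adj u v) : IsGraph (toGraph l adj) := by
  refine isGraph_toGraph ?_ ?_
  · intro r hr
    obtain ⟨v, rfl⟩ := (hmem r).mp hr
    rw [Bool.eq_false_iff]
    intro h
    exact G.irrefl ((hadj v v).mp h)
  · intro r hr s hs h
    obtain ⟨u, rfl⟩ := (hmem r).mp hr
    obtain ⟨v, rfl⟩ := (hmem s).mp hs
    exact (hadj v u).mpr ((hadj u v).mp h).symm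

variable {α : Type} [N487b59b3 α]

theorem pt_toGraph {l : α → List R} {adj : α → R → R → Bool} (hl : IsPolyTime l)
    (hadj : IsPolyTime (fun x : (α × R) × R => adj x.1.1 x.1.2 x.2)) :
    IsPolyTime (fun a => toGraph (l a) (adj a)) := by
  have h1 : IsPolyTime (fun a => uniq (l a)) := pt_uniq hl
  have h2 : IsPolyTime (fun x : α × R => uniq (l x.1)) := pt_uniq (pt_comp hl pt_fst')
  unfold toGraph
  refine pt_pair (pt_map h1 (by fun_prop)) (pt_flatMap h1 (pt_map (pt_filter h2 hadj) ?_))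
  fun_prop

end records

end Pool.Agent.Lib.MP_9a7af0_lc
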