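import Pool.Agent.Lib.MP_9a7af0_lc.Sparse3
import Pool.Agent.Lib.MP_9a7af0_lc.Transfer
import Pool.Agent.Lib.MP_9a7af0_lc.Occ

/-!
The sparse construction for a formula, as a list of records.
-/

namespace Pool.Agent.Lib.MP_9a7af0_lc

open Set N68a2faeb N487b59b3 Pool.Agent.Lib.PolyTime Pool.Agent.Lib.CookLevin

/-- the numbers of the construction: `((R, m, K), (a, c, L), (t, conflicts))` -/
abbrev Ctx : Type := (ℕ × ℕ × ℕ) × (ℕ × ℕ × ℕ) × (ℕ × List (ℕ × ℕ))

/-- cyclic successor -/
def sc (n i : ℕ) : ℕ := if i + 1 = n then 0 else i + 1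

/-- the numbers of the construction -/
def ctx0 (φ : List (List (ℕ × Bool))) : ℕ × ℕ × ℕ :=
  (2 * (occ φ).length, (conf φ).length, 2 * (conf φ).length + 1)

/-- the number of chosen labels -/
def rK (φ : List (List (ℕ × Bool))) : ℕ :=
  ((cls φ).length + (occ φ).length) * (2 * (conf φ).length + 1)

/-- the length of short threads -/
def cc (φ : List (List (ℕ × Bool))) : ℕ := rK φ + 1

/-- the length of wires -/
def aa (φ : List (List (ℕ × Bool))) : ℕ :=
  2 * (occ φ).length * (2 * (conf φ).length + 1) + (conf φ).length * (cc φ + 1) +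
    2 * (occ φ).length * (cc φ + 1) + 1

/-- target size -/
def tt (φ : List (List (ℕ × Bool))) : ℕ := rK φ * (aa φ + 1)

/-- the number of vertices outside the long segment -/
def oth (φ : List (List (ℕ × Bool))) : ℕ :=
  2 * (occ φ).length * (2 * (conf φ).length + 1) * (aa φ + 1) + (conf φ).length * (cc φ + 1) +
    (2 * (occ φ).length - 1) * (cc φ + 1)

/-- length of the long segment -/
def LL (φ : List (List (ℕ × Bool))) : ℕ := 3 * tt φ - oth φ

theorem oth_add (φ : List (List (ℕ × Bool))) : oth φ + tt φ < 3 * tt φ := by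
  have h1 := two_le_occ φ
  have h2 := one_le_cls φ
  unfold oth
  have h3 : aa φ = 2 * (occ φ).length * (2 * (conf φ).length + 1) +
    (conf φ).length * (cc φ + 1) + 2 * (occ φ).length * (cc φ + 1) + 1 := rfl
  have h4 : tt φ = ((cls φ).length + (occ φ).length) * (2 * (conf φ).length + 1) *
    (aa φ + 1) := rfl
  generalize aa φ = a at *
  generalize cc φ = c at *
  generalize tt φ = t at *
  generalize (occ φ).length = N at *
  generalize (cls φ).length = m at *
  generalize (conf φ).length = k at *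
  have h5 : (2 * N - 1) * (c + 1) ≤ 2 * N * (c + 1) := Nat.mul_le_mul_right _ (by omega)
  have h6 : 2 * t = 2 * (m + N) * (2 * k + 1) * (a + 1) := by rw [h4]; ring
  have h7 : (2 * N + 1) * (2 * k + 1) * (a + 1) ≤ 2 * (m + N) * (2 * k + 1) * (a + 1) :=
    Nat.mul_le_mul_right _ (Nat.mul_le_mul_right _ (by omega))
  have h8 : (2 * N + 1) * (2 * k + 1) * (a + 1) = 2 * N * (2 * k + 1) * (a + 1) +
    (2 * k + 1) * (a + 1) := by ring
  have h9 : 1 * (a + 1) ≤ (2 * k + 1) * (a + 1) := Nat.mul_le_mul_right _ (by omega)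
  omega

theorem sc_lt {n i : ℕ} (h : i < n) : sc n i < n := by
  unfold sc
  split_ifs <;> omega

/-- cyclic successor on `Fin n` -/
def scF {n : ℕ} (i : Fin n) : Fin n := ⟨sc n i, sc_lt i.2⟩

theorem scF_inj {n : ℕ} : Function.Injective (scF (n := n)) := by
  intro i j h
  have h1 := congrArg Fin.val h
  simp only [scF, sc] at h1
  have h2 := i.2
  have h3 := j.2
  apply Fin.ext
  split_ifs at h1 <;> omega

theorem scF_trans {n : ℕ} (A : Set (Fin n)) (hA : A.Nonempty) (h : ∀ l ∈ A, scF l ∈ A) :
    A = univ := by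
  obtain ⟨i, hi⟩ := hA
  have hn : 0 < n := i.pos
  have up : ∀ j : Fin n, j ∈ A → ∀ k, ∀ (hk : j.1 + k < n), (⟨j.1 + k, hk⟩ : Fin n) ∈ A := by
    intro j hj k
    induction k with
    | zero => intro hk; exact hj
    | succ k ih =>
      intro hk
      have h1 := h _ (ih (by omega))
      have h2 : scF (⟨j.1 + k, by omega⟩ : Fin n) = ⟨j.1 + (k + 1), hk⟩ := by
        apply Fin.ext
        simp only [scF, sc]
        rw [if_neg (by omega)]
        omega
      rwa [h2] at h1
  have hlast : (⟨n - 1, by omega⟩ : Fin n) ∈ A := by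
    have h1 := up i hi (n - 1 - i.1) (by have := i.2; omega)
    have h2 : (⟨i.1 + (n - 1 - i.1), by have := i.2; omega⟩ : Fin n) = ⟨n - 1, by omega⟩ := by
      apply Fin.ext
      have := i.2
      simp only
      omega
    rwa [h2] at h1
  have h0 : (⟨0, hn⟩ : Fin n) ∈ A := by
    have h1 := h _ hlast
    have h2 : scF (⟨n - 1, by omega⟩ : Fin n) = ⟨0, hn⟩ := by
      apply Fin.ext
      simp only [scF, sc]
      rw [if_pos (by omega)]
    rwa [h2] at h1
  rw [Set.eq_univ_iff_forall]
  intro j
  have h1 := up _ h0 j.1 (by have := j.2; simpa using this)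
  have h2 : (⟨(⟨0, hn⟩ : Fin n).1 + j.1, by have := j.2; simpa using this⟩ : Fin n) = j := by
    apply Fin.ext
    simp
  rwa [h2] at h1

/-- the parameters for a formula -/
noncomputable def par (φ : List (List (ℕ × Bool))) :
    Par (Fin (2 * (occ φ).length)) (Fin (conf φ).length) (Fin (2 * (conf φ).length + 1)) where
  s e := ⟨(conf φ)[e.1].1, by have := (conf_lt (List.getElem_mem e.2)).1; omega⟩
  u e := ⟨(conf φ)[e.1].2, by have := (conf_lt (List.getElem_mem e.2)).2; omega⟩
  la e := ⟨e.1 + 1, by omega⟩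
  lb e := ⟨(conf φ).length + e.1 + 1, by omega⟩
  l0 := ⟨0, by omega⟩
  σ := scF
  τ := scF
  o₀ := ⟨0, by have := two_le_occ φ; omega⟩
  a := aa φ
  c := cc φ
  L := LL φ
  r := (cls φ).length + (occ φ).length
  t := tt φ
  la_inj := by
    intro e e' h
    have := congrArg Fin.val h
    simp only at this
    exact Fin.ext (by omega)
  lb_inj := by
    intro e e' h
    have := congrArg Fin.val h
    simp only at this
    exact Fin.ext (by omega)
  la_ne_lb := by
    intro e e' h
    have := congrArg Fin.val h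
    have := e.2
    simp only at *
    omega
  la_ne := by
    intro e h
    have := congrArg Fin.val h
    simp only at this
    omega
  lb_ne := by
    intro e h
    have := congrArg Fin.val h
    simp only at this
    omega
  σ_inj := scF_inj
  τ_inj := scF_inj
  hσ := scF_trans
  hτ := scF_trans
  r_pos := by have := one_le_cls φ; omega
  t_eq := by
    rw [Nat.card_fin]
    rfl
  count := by
    rw [Nat.card_fin, Nat.card_fin, Nat.card_fin]
    have h := oth_add φ
    have h1 : LL φ = 3 * tt φ - oth φ := rfl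
    have h2 : oth φ = 2 * (occ φ).length * (2 * (conf φ).length + 1) * (aa φ + 1) +
      (conf φ).length * (cc φ + 1) + (2 * (occ φ).length - 1) * (cc φ + 1) := rfl
    omega
  t_lt := by
    have h := oth_add φ
    have h1 : LL φ = 3 * tt φ - oth φ := rfl
    omega
  a_big := by
    rw [Nat.card_fin, Nat.card_fin, Nat.card_fin]
    unfold aa
    omega
  c_big := by
    rw [Nat.card_fin]
    exact Nat.lt_succ_self _

theorem par_indep_iff (φ : List (List (ℕ × Bool))) :
    (∃ I : Set (Fin (2 * (occ φ).length)), I.ncard = (par φ).r ∧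
      ∀ e, ¬ ((par φ).s e ∈ I ∧ (par φ).u e ∈ I)) ↔ ∃ β, Sat β φ := by
  classical
  rw [sat_iff_indep]
  constructor
  · rintro ⟨I, h1, h2⟩
    refine ⟨I.toFinset.image Fin.val, ?_, ?_, ?_⟩
    · intro i hi
      rw [Finset.mem_image] at hi
      obtain ⟨j, _, rfl⟩ := hi
      exact Finset.mem_range.mpr j.2
    · rw [Finset.card_image_of_injective _ Fin.val_injective, ← Set.ncard_eq_toFinset_card', h1]
      rfl
    · rintro p hp ⟨h3, h4⟩
      rw [Finset.mem_image] at h3 h4
      obtain ⟨i, hi, hi'⟩ := h3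
      obtain ⟨j, hj, hj'⟩ := h4
      rw [Set.mem_toFinset] at hi hj
      obtain ⟨k, hk, rfl⟩ := List.mem_iff_getElem.mp hp
      apply h2 ⟨k, hk⟩
      have e1 : (par φ).s ⟨k, hk⟩ = i := Fin.ext hi'.symm
      have e2 : (par φ).u ⟨k, hk⟩ = j := Fin.ext hj'.symm
      rw [e1, e2]
      exact ⟨hi, hj⟩
  · rintro ⟨I, h1, h2, h3⟩
    refine ⟨{i | i.1 ∈ I}, ?_, ?_⟩
    · have h4 : ({i : Fin (2 * (occ φ).length) | i.1 ∈ I}).ncard = I.card := by
        rw [← Set.ncard_coe_finset, ← Set.ncard_image_of_injective _ Fin.val_injective]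
        congr 1
        ext i
        constructor
        · rintro ⟨j, hj, rfl⟩
          exact hj
        · intro hi
          exact ⟨⟨i, Finset.mem_range.mp (h1 hi)⟩, hi, rfl⟩
      rw [h4, h2]
      rfl
    · rintro e ⟨h4, h5⟩
      exact h3 _ (List.getElem_mem e.2) ⟨h4, h5⟩

end Pool.Agent.Lib.MP_9a7af0_lc
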