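import Pool.Agent.Lib.MP_9a7af0_lc.Basic

/-!
Graphs made of core vertices and threads: every core vertex `c` is the first vertex of a path
with `len c` further vertices; the last vertex of this path may be joined to another core vertex.
-/

namespace Pool.Agent.Lib.MP_9a7af0_lc

open Set

/-- a net -/
structure Net (C : Type) where
  /-- the length of the thread of a core vertex -/
  len : C → ℕ
  /-- the core vertex at the other end of the thread -/
  nxt : C → Option C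
  /-- edges between core vertices -/
  ed : C → C → Prop

namespace Net

variable {C : Type} (N : Net C)

/-- the vertices: a core vertex and a position on its path -/
def V : Type := {x : C × ℕ // x.2 ≤ N.len x.1}

/-- directed form of adjacency -/
def Step (x y : C × ℕ) : Prop :=
  (x.1 = y.1 ∧ y.2 = x.2 + 1) ∨ (x.2 = N.len x.1 ∧ y.2 = 0 ∧ N.nxt x.1 = some y.1) ∨
    (x.2 = 0 ∧ y.2 = 0 ∧ N.ed x.1 y.1)

/-- the graph of a net -/
def graph : SimpleGraph N.V where
  Adj x y := x ≠ y ∧ (N.Step x.1 y.1 ∨ N.Step y.1 x.1)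
  symm := ⟨fun _ _ h => ⟨h.1.symm, h.2.symm⟩⟩
  loopless := ⟨fun _ h => h.1 rfl⟩

variable {N}

/-- a vertex -/
def vtx (c : C) (i : ℕ) (h : i ≤ N.len c) : N.V := ⟨(c, i), h⟩

theorem V.eta (x : N.V) : x = vtx x.1.1 x.1.2 x.2 := rfl

theorem vtx_inj {c c' : C} {i i' : ℕ} {h : i ≤ N.len c} {h' : i' ≤ N.len c'} :
    (vtx c i h = vtx c' i' h') ↔ c = c' ∧ i = i' := by
  constructor
  · intro h
    have h1 := congrArg Subtype.val h
    exact Prod.mk.inj h1
  · rintro ⟨rfl, rfl⟩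
    rfl

/-- the vertices as a sigma type -/
def equiv : N.V ≃ Σ c : C, Fin (N.len c + 1) where
  toFun x := ⟨x.1.1, ⟨x.1.2, Nat.lt_succ_of_le x.2⟩⟩
  invFun x := ⟨(x.1, x.2.1), Nat.le_of_lt_succ x.2.2⟩
  left_inv _ := rfl
  right_inv _ := rfl

instance [Finite C] : Finite N.V := Finite.of_equiv _ equiv.symm

theorem adj_path {c : C} {i : ℕ} (h : i + 1 ≤ N.len c) :
    N.graph.Adj (vtx c i (by omega)) (vtx c (i + 1) h) := by
  refine ⟨?_, Or.inl (Or.inl ⟨rfl, rfl⟩)⟩
  rw [Ne, vtx_inj]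
  omega

theorem adj_nxt {c d : C} (hc : 1 ≤ N.len c) (h : N.nxt c = some d) :
    N.graph.Adj (vtx c (N.len c) le_rfl) (vtx d 0 (by omega)) := by
  refine ⟨?_, Or.inl (Or.inr (Or.inl ⟨rfl, rfl, h⟩))⟩
  rw [Ne, vtx_inj]
  omega

theorem adj_ed {c d : C} (hne : c ≠ d) (h : N.ed c d) :
    N.graph.Adj (vtx c 0 (by omega)) (vtx d 0 (by omega)) := by
  refine ⟨?_, Or.inl (Or.inr (Or.inr ⟨rfl, rfl, h⟩))⟩
  rw [Ne, vtx_inj]
  tauto

/-- the neighbours of an inner vertex of a thread -/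
theorem adj_inner {c : C} {i : ℕ} (hi : i ≤ N.len c) (h1 : 1 ≤ i) {y : N.V}
    (h : N.graph.Adj (vtx c i hi) y) : (y.1.1 = c ∧ y.1.2 = i - 1) ∨
      (i < N.len c ∧ y.1.1 = c ∧ y.1.2 = i + 1) ∨
      (i = N.len c ∧ y.1.2 = 0 ∧ N.nxt c = some y.1.1) := by
  have hy := y.2
  obtain ⟨_, (⟨h2, h3⟩ | ⟨h2, h3, h4⟩ | ⟨h2, _⟩) | (⟨h2, h3⟩ | ⟨_, h3, _⟩ | ⟨_, h3, _⟩)⟩ := h
  · simp only [vtx] at h2 h3
    subst h2
    right; left
    exact ⟨by omega, rfl, h3⟩
  · simp only [vtx] at h2 h3 h4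
    right; right
    exact ⟨h2, h3, h4⟩
  · simp only [vtx] at h2
    omega
  · simp only [vtx] at h2 h3
    left
    exact ⟨h2, by omega⟩
  · simp only [vtx] at h3
    omega
  · simp only [vtx] at h3
    omega

variable [Finite C]

theorem deg_inner {c : C} {i : ℕ} (hi : i ≤ N.len c) (h1 : 1 ≤ i) :
    degIn N.graph univ (vtx c i hi) ≤ 2 := by
  have key : ∃ a b : N.V, {u | N.graph.Adj (vtx c i hi) u ∧ u ∈ univ} ⊆ ({a, b} : Set N.V) := by
    rcases Nat.lt_or_ge i (N.len c) with hlt | hge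
    · refine ⟨vtx c (i - 1) (by omega), vtx c (i + 1) (by omega), ?_⟩
      rintro y ⟨hy, _⟩
      rw [y.eta]
      simp only [mem_insert_iff, mem_singleton_iff, vtx_inj]
      rcases adj_inner hi h1 hy with h | ⟨_, h⟩ | ⟨h, _⟩
      · exact Or.inl h
      · exact Or.inr h
      · omega
    · rcases hn : N.nxt c with _ | d
      · refine ⟨vtx c (i - 1) (by omega), vtx c i hi, ?_⟩
        rintro y ⟨hy, _⟩
        rw [y.eta]
        simp only [mem_insert_iff, mem_singleton_iff, vtx_inj]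
        rcases adj_inner hi h1 hy with h | ⟨h, _⟩ | ⟨_, _, h⟩
        · exact Or.inl h
        · omega
        · rw [hn] at h
          exact absurd h (by simp)
      · refine ⟨vtx c (i - 1) (by omega), vtx d 0 (by omega), ?_⟩
        rintro y ⟨hy, _⟩
        rw [y.eta]
        simp only [mem_insert_iff, mem_singleton_iff, vtx_inj]
        rcases adj_inner hi h1 hy with h | ⟨h, _⟩ | ⟨_, h, h'⟩
        · exact Or.inl h
        · omega
        · rw [hn] at h'
          exact Or.inr ⟨(Option.some.inj h').symm, h⟩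
  obtain ⟨a, b, hab⟩ := key
  calc degIn N.graph univ (vtx c i hi) ≤ ({a, b} : Set N.V).ncard :=
        Set.ncard_le_ncard hab (Set.toFinite _)
    _ ≤ 2 := by
      have h1 := Set.ncard_insert_le a ({b} : Set N.V)
      rw [Set.ncard_singleton] at h1
      exact h1

theorem Tame.inner {T : Set N.V} (hT : Tame N.graph T) {c : C} {i : ℕ} (hi : i ≤ N.len c)
    (h1 : 1 ≤ i) (hx : vtx c i hi ∉ T) {y : N.V} (h : N.graph.Adj (vtx c i hi) y) : y ∉ T := by
  intro hy
  have h2 := hT _ hx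
  have h3 := deg_inner (N := N) hi h1
  have h4 : 0 < degIn N.graph T (vtx c i hi) := degIn_pos.mpr ⟨y, h, hy⟩
  omega

/-- membership of a vertex -/
def In (T : Set N.V) (c : C) (i : ℕ) : Prop := ∃ h : i ≤ N.len c, vtx c i h ∈ T

theorem Tame.succ {T : Set N.V} (hT : Tame N.graph T) {c : C} {i : ℕ} (h1 : 1 ≤ i)
    (hi : i + 1 ≤ N.len c) : In T c i ↔ In T c (i + 1) := by
  constructor
  · rintro ⟨h, h2⟩
    refine ⟨hi, ?_⟩
    by_contra h3
    exact Tame.inner hT hi (by omega) h3 (adj_path hi).symm h2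
  · rintro ⟨h, h2⟩
    refine ⟨by omega, ?_⟩
    by_contra h3
    exact Tame.inner hT _ h1 h3 (adj_path hi) h2

theorem Tame.thread {T : Set N.V} (hT : Tame N.graph T) {c : C} {i : ℕ} (h1 : 1 ≤ i)
    (hi : i ≤ N.len c) : In T c i ↔ In T c 1 := by
  induction i with
  | zero => omega
  | succ i ih =>
    rcases Nat.eq_zero_or_pos i with h | h
    · subst h; rfl
    · rw [← Tame.succ hT h hi]
      exact ih h (by omega)

theorem Tame.zero {T : Set N.V} (hT : Tame N.graph T) {c : C} (hc : 1 ≤ N.len c)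
    (h : In T c 0) : In T c 1 := by
  obtain ⟨h1, h2⟩ := h
  refine ⟨hc, ?_⟩
  by_contra h3
  exact Tame.inner hT hc le_rfl h3 (adj_path hc).symm h2

theorem Tame.nxt {T : Set N.V} (hT : Tame N.graph T) {c d : C} (hc : 1 ≤ N.len c)
    (hn : N.nxt c = some d) (h : In T d 0) : In T c 1 := by
  obtain ⟨h1, h2⟩ := h
  rw [← Tame.thread hT hc le_rfl]
  refine ⟨le_rfl, ?_⟩
  by_contra h3
  exact Tame.inner hT le_rfl hc h3 (adj_nxt hc hn) h2

/-! ### Reachability inside a set of vertices -/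

/-- `y` can be reached from `x` inside `S` -/
def Reach (S : Set N.V) (x y : N.V) : Prop :=
  ∃ (hx : x ∈ S) (hy : y ∈ S), (N.graph.induce S).Reachable ⟨x, hx⟩ ⟨y, hy⟩

omit [Finite C] in
theorem Reach.refl {S : Set N.V} {x : N.V} (h : x ∈ S) : Reach S x x := ⟨h, h, .refl _⟩

omit [Finite C] in
theorem Reach.symm {S : Set N.V} {x y : N.V} (h : Reach S x y) : Reach S y x := by
  obtain ⟨h1, h2, h3⟩ := h
  exact ⟨h2, h1, h3.symm⟩

omit [Finite C] in
theorem Reach.step {S : Set N.V} {x y z : N.V} (h : Reach S x y) (h1 : N.graph.Adj y z)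
    (h2 : z ∈ S) : Reach S x z := by
  obtain ⟨hx, hy, h3⟩ := h
  refine ⟨hx, h2, h3.trans ?_⟩
  apply SimpleGraph.Adj.reachable
  exact h1

omit [Finite C] in
theorem Reach.path {S : Set N.V} {x : N.V} {c : C}
    (hS : ∀ i (h : i ≤ N.len c), vtx c i h ∈ S) (h : Reach S x (vtx c 0 (by omega))) (i : ℕ)
    (hi : i ≤ N.len c) : Reach S x (vtx c i hi) := by
  induction i with
  | zero => exact h
  | succ i ih => exact (ih (by omega)).step (adj_path hi) (hS _ _)

omit [Finite C] in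
theorem Reach.nxt {S : Set N.V} {x : N.V} {c d : C} (hc : 1 ≤ N.len c)
    (hS : ∀ i (h : i ≤ N.len c), vtx c i h ∈ S) (hd : vtx d 0 (by omega) ∈ S)
    (hn : N.nxt c = some d)
    (h : Reach S x (vtx c 0 (by omega))) : Reach S x (vtx d 0 (by omega)) :=
  (h.path hS _ le_rfl).step (adj_nxt hc hn) hd

end Net

end Pool.Agent.Lib.MP_9a7af0_lc
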