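import Pool.Agent.Lib.MP_9a7af0_lc.Inst

/-!
The sparse construction as a list of records, in polynomial time.
-/

namespace Pool.Agent.Lib.MP_9a7af0_lc

open Set N68a2faeb N487b59b3 Pool.Agent.Lib.PolyTime Pool.Agent.Lib.CookLevin

/-- records: `((kind, first index, second index), position)` -/
abbrev Rec : Type := (ℕ × ℕ × ℕ) × ℕ

/-- the list of records -/
def recs (φ : List (List (ℕ × Bool))) : List Rec :=
  ((List.range (2 * (occ φ).length)).flatMap fun o =>
    (List.range (2 * (conf φ).length + 1)).flatMap fun l =>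
      (List.range (aa φ + 1)).map fun i => ((0, o, l), i)) ++
  (((List.range (conf φ).length).flatMap fun e =>
    (List.range (cc φ + 1)).map fun i => ((1, e, 0), i)) ++
  ((List.range (2 * (occ φ).length)).flatMap fun o =>
    (List.range ((if o = 0 then LL φ else cc φ) + 1)).map fun i => ((2, o, 0), i)))

/-- the length of the thread of a record -/
def lenB (φ : List (List (ℕ × Bool))) (x : ℕ × ℕ × ℕ) : ℕ :=
  if x.1 = 0 then aa φ else if x.1 = 1 then cc φ else if x.2.1 = 0 then LL φ else cc φ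

/-- the core record at the other end -/
def nxtB (φ : List (List (ℕ × Bool))) (x y : ℕ × ℕ × ℕ) : Bool :=
  (decide (x.1 = 0) && decide (y.1 = 0) && decide (y.2.1 = x.2.1) &&
    decide (y.2.2 = sc (2 * (conf φ).length + 1) x.2.2)) ||
  (decide (x.1 = 2) && decide (y.1 = 2) && decide (y.2.1 = sc (2 * (occ φ).length) x.2.1))

/-- edges between core records -/
def edB (φ : List (List (ℕ × Bool))) (x y : ℕ × ℕ × ℕ) : Bool :=
  (decide (x.1 = 1) && decide (y.1 = 0) &&
    ((decide (y.2.1 = ((conf φ).getD x.2.1 (0, 0)).1) && decide (y.2.2 = x.2.1 + 1)) ||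
    (decide (y.2.1 = ((conf φ).getD x.2.1 (0, 0)).2) &&
      decide (y.2.2 = (conf φ).length + x.2.1 + 1)))) ||
  (decide (x.1 = 2) && decide (y.1 = 0) && decide (y.2.1 = x.2.1) && decide (y.2.2 = 0))

/-- directed adjacency of records -/
def stepB (φ : List (List (ℕ × Bool))) (x y : Rec) : Bool :=
  (decide (x.1 = y.1) && decide (y.2 = x.2 + 1)) ||
  (decide (x.2 = lenB φ x.1) && decide (y.2 = 0) && nxtB φ x.1 y.1) ||
  (decide (x.2 = 0) && decide (y.2 = 0) && edB φ x.1 y.1)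

/-- adjacency of records -/
def adjB (φ : List (List (ℕ × Bool))) (x y : Rec) : Bool :=
  !(decide (x = y)) && (stepB φ x y || stepB φ y x)

/-- the record of a core vertex -/
def encC (φ : List (List (ℕ × Bool))) :
    Core (Fin (2 * (occ φ).length)) (Fin (conf φ).length) (Fin (2 * (conf φ).length + 1)) →
      ℕ × ℕ × ℕ
  | .v o l => (0, o.1, l.1)
  | .z e => (1, e.1, 0)
  | .q o => (2, o.1, 0)

/-- the record of a vertex -/
noncomputable def enc (φ : List (List (ℕ × Bool))) (x : (par φ).W) : Rec := (encC φ x.1.1, x.1.2)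

theorem encC_injective (φ : List (List (ℕ × Bool))) : Function.Injective (encC φ) := by
  intro x y h
  rcases x with ⟨o, l⟩ | e | o <;> rcases y with ⟨o', l'⟩ | e' | o' <;>
    simp only [encC, Prod.mk.injEq, Fin.val_inj] at h
  · obtain ⟨_, rfl, rfl⟩ := h
    rfl
  · omega
  · omega
  · omega
  · obtain ⟨_, rfl, _⟩ := h
    rfl
  · omega
  · omega
  · omega
  · obtain ⟨_, rfl, _⟩ := h
    rfl

theorem enc_injective (φ : List (List (ℕ × Bool))) : Function.Injective (enc φ) := by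
  intro x y h
  have h1 : encC φ x.1.1 = encC φ y.1.1 ∧ x.1.2 = y.1.2 := Prod.mk.inj h
  exact Subtype.ext (Prod.ext (encC_injective φ h1.1) h1.2)

theorem lenB_encC (φ : List (List (ℕ × Bool))) (x) :
    lenB φ (encC φ x) = (par φ).net.len x := by
  rcases x with ⟨o, l⟩ | e | o
  · rfl
  · rfl
  · have h0 : (o = (par φ).o₀) ↔ o.1 = 0 := by
      rw [Fin.ext_iff]
      rfl
    by_cases h : o.1 = 0
    · have e1 : lenB φ (encC φ (.q o)) = LL φ := by simp [lenB, encC, h]
      have e2 : (par φ).net.len (.q o) = LL φ := by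
        simp only [Par.net]
        rw [if_pos (h0.mpr h)]
        rfl
      rw [e1, e2]
    · have e1 : lenB φ (encC φ (.q o)) = cc φ := by simp [lenB, encC, h]
      have e2 : (par φ).net.len (.q o) = cc φ := by
        simp only [Par.net]
        rw [if_neg (fun h' => h (h0.mp h'))]
        rfl
      rw [e1, e2]

theorem nxtB_encC (φ : List (List (ℕ × Bool))) (x y) :
    nxtB φ (encC φ x) (encC φ y) = true ↔ (par φ).net.nxt x = some y := by
  rcases x with ⟨o, l⟩ | e | o <;> rcases y with ⟨o', l'⟩ | e' | o' <;>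
    simp only [nxtB, encC, Par.net, par, scF, Option.some.injEq, Core.v.injEq, Core.q.injEq,
      Fin.ext_iff, Bool.or_eq_true, Bool.and_eq_true, decide_eq_true_eq, reduceCtorEq,
      OfNat.ofNat_ne_zero, OfNat.zero_ne_ofNat, false_and, or_false, false_or, true_and,
      and_false, one_ne_zero, zero_ne_one, OfNat.one_ne_ofNat, OfNat.ofNat_ne_one]
  · rw [eq_comm, eq_comm (a := l'.1)]
  · rw [eq_comm]

theorem edB_encC (φ : List (List (ℕ × Bool))) (x y) :
    edB φ (encC φ x) (encC φ y) = true ↔ (par φ).net.ed x y := by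
  rcases x with ⟨o, l⟩ | e | o <;> rcases y with ⟨o', l'⟩ | e' | o' <;>
    simp only [edB, encC, Par.net, par, 
      Fin.ext_iff, Bool.or_eq_true, Bool.and_eq_true, decide_eq_true_eq, reduceCtorEq,
      OfNat.ofNat_ne_zero, OfNat.zero_ne_ofNat, false_and, or_false, false_or, true_and,
      and_false, one_ne_zero, zero_ne_one, OfNat.one_ne_ofNat, OfNat.ofNat_ne_one]
  · rw [List.getD_eq_getElem _ _ e.2]

theorem stepB_enc (φ : List (List (ℕ × Bool))) (x y : (par φ).W) :
    stepB φ (enc φ x) (enc φ y) = true ↔ (par φ).net.Step x.1 y.1 := by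
  unfold stepB Net.Step enc
  simp only [Bool.or_eq_true, Bool.and_eq_true, decide_eq_true_eq, lenB_encC, nxtB_encC, edB_encC,
    (encC_injective φ).eq_iff, and_assoc, or_assoc]

theorem adjB_enc (φ : List (List (ℕ × Bool))) (x y : (par φ).W) :
    adjB φ (enc φ x) (enc φ y) = true ↔ (par φ).gr.Adj x y := by
  unfold adjB
  simp only [Bool.and_eq_true, Bool.or_eq_true, stepB_enc, Bool.not_eq_true',
    decide_eq_false_iff_not, (enc_injective φ).eq_iff]
  rfl

theorem mem_recs (φ : List (List (ℕ × Bool))) (r : Rec) :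
    r ∈ recs φ ↔ ∃ v, enc φ v = r := by
  unfold recs
  simp only [List.mem_append, List.mem_flatMap, List.mem_map, List.mem_range]
  constructor
  · rintro (⟨o, ho, l, hl, i, hi, rfl⟩ | ⟨e, he, i, hi, rfl⟩ | ⟨o, ho, i, hi, rfl⟩)
    · exact ⟨⟨(.v ⟨o, ho⟩ ⟨l, hl⟩, i), Nat.le_of_lt_succ hi⟩, rfl⟩
    · exact ⟨⟨(.z ⟨e, he⟩, i), Nat.le_of_lt_succ hi⟩, rfl⟩
    · refine ⟨⟨(.q ⟨o, ho⟩, i), ?_⟩, rfl⟩
      rw [← lenB_encC]
      exact Nat.le_of_lt_succ hi
  · rintro ⟨⟨⟨x, i⟩, hi⟩, rfl⟩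
    rw [← lenB_encC] at hi
    rcases x with ⟨o, l⟩ | e | o
    · exact Or.inl ⟨o.1, o.2, l.1, l.2, i, Nat.lt_succ_of_le hi, rfl⟩
    · exact Or.inr (Or.inl ⟨e.1, e.2, i, Nat.lt_succ_of_le hi, rfl⟩)
    · exact Or.inr (Or.inr ⟨o.1, o.2, i, Nat.lt_succ_of_le hi, rfl⟩)

/-- the graph of a formula -/
def sparse (φ : List (List (ℕ × Bool))) : List ℕ × List (ℕ × ℕ) := toGraph (recs φ) (adjB φ)

theorem sparse_iso (φ : List (List (ℕ × Bool))) : Nonempty ((par φ).gr ≃g graphOf (sparse φ)) :=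
  exists_iso (enc_injective φ) (mem_recs φ) (adjB_enc φ)

theorem isGraph_sparse (φ : List (List (ℕ × Bool))) : IsGraph (sparse φ) :=
  isGraph_of_enc (mem_recs φ) (adjB_enc φ)

theorem maxDegree_sparse (φ : List (List (ℕ × Bool))) : MaxDegree (graphOf (sparse φ)) 3 := by
  obtain ⟨e⟩ := sparse_iso φ
  exact (par φ).maxDegree.iso e

theorem hIndex_sparse (φ : List (List (ℕ × Bool))) : HIndex (graphOf (sparse φ)) 3 := by
  obtain ⟨e⟩ := sparse_iso φ
  refine ((par φ).hIndex ?_).iso e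
  rw [Nat.card_fin]
  have := two_le_occ φ
  omega

theorem hasPDS_sparse (φ : List (List (ℕ × Bool))) :
    HasPDS (graphOf (sparse φ)) (2 * tt φ + 1) ↔ ∃ β, Sat β φ := by
  obtain ⟨e⟩ := sparse_iso φ
  rw [← hasPDS_iso e, ← par_indep_iff]
  exact (par φ).pds_iff

theorem hasConnPDS_sparse (φ : List (List (ℕ × Bool))) :
    HasConnPDS (graphOf (sparse φ)) (2 * tt φ + 1) ↔ ∃ β, Sat β φ := by
  obtain ⟨e⟩ := sparse_iso φ
  rw [← hasConnPDS_iso e, ← par_indep_iff]
  exact (par φ).connPds_iff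

section

variable {α : Type} [N487b59b3 α]

theorem pt_sc {n i : α → ℕ} (hn : IsPolyTime n) (hi : IsPolyTime i) :
    IsPolyTime (fun a => sc (n a) (i a)) := by
  unfold sc
  fun_prop

theorem pt_rK {φ : α → List (List (ℕ × Bool))} (hφ : IsPolyTime φ) :
    IsPolyTime (fun a => rK (φ a)) := by
  have h1 := pt_occ hφ
  have h2 := pt_conf hφ
  have h3 := pt_cls hφ
  unfold rK
  fun_prop

theorem pt_cc {φ : α → List (List (ℕ × Bool))} (hφ : IsPolyTime φ) :
    IsPolyTime (fun a => cc (φ a)) := by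
  have h1 := pt_rK hφ
  unfold cc
  fun_prop

theorem pt_aa {φ : α → List (List (ℕ × Bool))} (hφ : IsPolyTime φ) :
    IsPolyTime (fun a => aa (φ a)) := by
  have h1 := pt_occ hφ
  have h2 := pt_conf hφ
  have h3 := pt_cc hφ
  unfold aa
  fun_prop

theorem pt_tt {φ : α → List (List (ℕ × Bool))} (hφ : IsPolyTime φ) :
    IsPolyTime (fun a => tt (φ a)) := by
  have h1 := pt_rK hφ
  have h2 := pt_aa hφ
  unfold tt
  fun_prop

theorem pt_oth {φ : α → List (List (ℕ × Bool))} (hφ : IsPolyTime φ) :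
    IsPolyTime (fun a => oth (φ a)) := by
  have h1 := pt_occ hφ
  have h2 := pt_conf hφ
  have h3 := pt_cc hφ
  have h4 := pt_aa hφ
  unfold oth
  have h5 : IsPolyTime (fun a => 2 * (occ (φ a)).length - 1) := by
    refine pt_sub (by fun_prop) (pt_const 1)
  fun_prop

theorem pt_LL {φ : α → List (List (ℕ × Bool))} (hφ : IsPolyTime φ) :
    IsPolyTime (fun a => LL (φ a)) := by
  have h1 := pt_tt hφ
  have h2 := pt_oth hφ
  unfold LL
  exact pt_sub (by fun_prop) h2

theorem pb_rK {φ : α → List (List (ℕ × Bool))} (hφ : IsPolyTime φ) :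
    PB (fun a => rK (φ a)) := by
  have h1 := pb_length (pt_occ hφ)
  have h2 := pb_length (pt_conf hφ)
  have h3 := pb_length (pt_cls hφ)
  unfold rK
  exact pb_mul (pb_add h3 h1) (pb_add (pb_mul (pb_const 2) h2) (pb_const 1))

theorem pb_cc {φ : α → List (List (ℕ × Bool))} (hφ : IsPolyTime φ) :
    PB (fun a => cc (φ a)) := pb_add (pb_rK hφ) (pb_const 1)

theorem pb_aa {φ : α → List (List (ℕ × Bool))} (hφ : IsPolyTime φ) :
    PB (fun a => aa (φ a)) := by
  have h1 := pb_length (pt_occ hφ)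
  have h2 := pb_length (pt_conf hφ)
  have h3 := pb_cc hφ
  unfold aa
  exact pb_add (pb_add (pb_add (pb_mul (pb_mul (pb_const 2) h1)
    (pb_add (pb_mul (pb_const 2) h2) (pb_const 1))) (pb_mul h2 (pb_add h3 (pb_const 1))))
    (pb_mul (pb_mul (pb_const 2) h1) (pb_add h3 (pb_const 1)))) (pb_const 1)

theorem pb_LL {φ : α → List (List (ℕ × Bool))} (hφ : IsPolyTime φ) :
    PB (fun a => LL (φ a)) := by
  have h1 := pb_rK hφ
  have h2 := pb_aa hφ
  unfold LL tt
  exact pb_sub (pb_mul (pb_const 3) (pb_mul h1 (pb_add h2 (pb_const 1))))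

theorem pt_recs {φ : α → List (List (ℕ × Bool))} (hφ : IsPolyTime φ) :
    IsPolyTime (fun a => recs (φ a)) := by
  have h1 := pt_occ hφ
  have h2 := pt_conf hφ
  have h3 := pt_cc hφ
  have h4 := pt_aa hφ
  have h5 := pt_LL hφ
  have b1 := pb_length h1
  have b2 := pb_length h2
  have r1 : IsPolyTime (fun a => List.range (2 * (occ (φ a)).length)) :=
    pt_rangeN (by fun_prop) (pb_mul (pb_const 2) b1)
  have r2 : IsPolyTime (fun a => List.range (2 * (conf (φ a)).length + 1)) :=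
    pt_rangeN (by fun_prop) (pb_add (pb_mul (pb_const 2) b2) (pb_const 1))
  have r3 : IsPolyTime (fun a => List.range (aa (φ a) + 1)) :=
    pt_rangeN (by fun_prop) (pb_add (pb_aa hφ) (pb_const 1))
  have r4 : IsPolyTime (fun a => List.range (conf (φ a)).length) :=
    pt_rangeN (by fun_prop) b2
  have r5 : IsPolyTime (fun a => List.range (cc (φ a) + 1)) :=
    pt_rangeN (by fun_prop) (pb_add (pb_cc hφ) (pb_const 1))
  have h6 : IsPolyTime (fun x : α × ℕ => LL (φ x.1)) := pt_LL (pt_comp hφ pt_fst')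
  have h7 : IsPolyTime (fun x : α × ℕ => cc (φ x.1)) := pt_cc (pt_comp hφ pt_fst')
  have r6 : IsPolyTime (fun x : α × ℕ => List.range ((if x.2 = 0 then LL (φ x.1) else
      cc (φ x.1)) + 1)) := by
    refine pt_rangeN (by fun_prop) (pb_add (pb_ite ?_ ?_) (pb_const 1))
    · exact pb_comp (f := fun a => LL (φ a)) (pb_LL hφ) pt_fst'
    · exact pb_comp (f := fun a => cc (φ a)) (pb_cc hφ) pt_fst'
  have r2' : IsPolyTime (fun x : α × ℕ => List.range (2 * (conf (φ x.1)).length + 1)) :=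
    pt_comp (g := fun a => List.range (2 * (conf (φ a)).length + 1)) r2 pt_fst'
  have r3' : IsPolyTime (fun x : (α × ℕ) × ℕ => List.range (aa (φ x.1.1) + 1)) :=
    pt_comp (g := fun a => List.range (aa (φ a) + 1)) r3 (pt_fst pt_fst')
  have r5' : IsPolyTime (fun x : α × ℕ => List.range (cc (φ x.1) + 1)) :=
    pt_comp (g := fun a => List.range (cc (φ a) + 1)) r5 pt_fst'
  unfold recs
  refine pt_append (pt_flatMap r1 (pt_flatMap r2' (pt_map r3' ?_))) (pt_append (pt_flatMap r4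
      (pt_map r5' ?_)) (pt_flatMap r1 (pt_map r6 ?_)))
  · fun_prop
  · fun_prop
  · fun_prop

attribute [local fun_prop] pt_occ pt_conf pt_cc pt_aa pt_LL pt_sc

theorem pt_lenB {φ : α → List (List (ℕ × Bool))} {x : α → ℕ × ℕ × ℕ} (hφ : IsPolyTime φ)
    (hx : IsPolyTime x) : IsPolyTime (fun a => lenB (φ a) (x a)) := by
  unfold lenB
  fun_prop

theorem pt_nxtB {φ : α → List (List (ℕ × Bool))} {x y : α → ℕ × ℕ × ℕ} (hφ : IsPolyTime φ)
    (hx : IsPolyTime x) (hy : IsPolyTime y) : IsPolyTime (fun a => nxtB (φ a) (x a) (y a)) := by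
  unfold nxtB
  fun_prop

theorem pt_edB {φ : α → List (List (ℕ × Bool))} {x y : α → ℕ × ℕ × ℕ} (hφ : IsPolyTime φ)
    (hx : IsPolyTime x) (hy : IsPolyTime y) : IsPolyTime (fun a => edB (φ a) (x a) (y a)) := by
  have h1 : IsPolyTime (fun a => (conf (φ a)).getD (x a).2.1 (0, 0)) :=
    pt_getD (0, 0) (pt_conf hφ) (by fun_prop)
  unfold edB
  fun_prop

attribute [local fun_prop] pt_lenB pt_nxtB pt_edB

theorem pt_stepB {φ : α → List (List (ℕ × Bool))} {x y : α → Rec} (hφ : IsPolyTime φ)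
    (hx : IsPolyTime x) (hy : IsPolyTime y) : IsPolyTime (fun a => stepB (φ a) (x a) (y a)) := by
  unfold stepB
  fun_prop

attribute [local fun_prop] pt_stepB

theorem pt_adjB {φ : α → List (List (ℕ × Bool))} {x y : α → Rec} (hφ : IsPolyTime φ)
    (hx : IsPolyTime x) (hy : IsPolyTime y) : IsPolyTime (fun a => adjB (φ a) (x a) (y a)) := by
  unfold adjB
  fun_prop

theorem pt_sparse {φ : α → List (List (ℕ × Bool))} (hφ : IsPolyTime φ) :
    IsPolyTime (fun a => sparse (φ a)) :=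
  pt_toGraph (pt_recs hφ) (pt_adjB (pt_comp hφ (pt_fst pt_fst')) (by fun_prop) (by fun_prop))

end

/-- hardness on graphs of maximum degree 3 and h-index 3 -/
theorem hard_sparse (C : ∀ {V : Type}, SimpleGraph V → Prop)
    (Q : ∀ {V : Type}, SimpleGraph V → ℕ → Prop)
    (hC : ∀ φ, C (graphOf (sparse φ)))
    (hQ : ∀ φ, Q (graphOf (sparse φ)) (2 * tt φ + 1) ↔ ∃ β, Sat β φ) : NPHardOn C Q := by
  intro L hL
  obtain ⟨f, hf, h⟩ := cookLevin hL
  refine ⟨fun x => (sparse (f x), 2 * tt (f x) + 1), ?_, ?_, ?_⟩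
  · have h1 := pt_sparse hf
    have h2 := pt_tt hf
    fun_prop
  · intro x
    exact ⟨isGraph_sparse _, hC _⟩
  · intro x
    exact (h x).trans (hQ _).symm

end Pool.Agent.Lib.MP_9a7af0_lc
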