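import Pool.Agent.Lib.MP_9a7af0_lc.Dense2
import Pool.Agent.Lib.MP_9a7af0_lc.Recs
import Pool.Agent.Lib.CookLevin.Three

/-!
The dense construction for a formula as a list of records, in polynomial time.
-/

namespace Pool.Agent.Lib.MP_9a7af0_lc

open Set N68a2faeb N487b59b3 Pool.Agent.Lib.PolyTime Pool.Agent.Lib.CookLevin

/-- the variables of a formula -/
def vars (φ : List (List (ℕ × Bool))) : List ℕ := uniq (φ.flatMap fun c => c.map fun l => l.1)

/-- the literals of a formula by position -/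
def lit (φ : List (List (ℕ × Bool))) (j i : ℕ) : ℕ × Bool := (φ.getD j []).getD i (0, true)

theorem lit_mem {φ : List (List (ℕ × Bool))} (h3 : ∀ c ∈ φ, c.length = 3) {j i : ℕ}
    (hj : j < φ.length) (hi : i < 3) : lit φ j i ∈ φ[j] := by
  unfold lit
  rw [List.getD_eq_getElem _ _ hj, List.getD_eq_getElem _ _ (by rw [h3 _ (List.getElem_mem hj)]; exact hi)]
  exact List.getElem_mem _

theorem lit_var_mem {φ : List (List (ℕ × Bool))} (h3 : ∀ c ∈ φ, c.length = 3) {j i : ℕ}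
    (hj : j < φ.length) (hi : i < 3) : (lit φ j i).1 ∈ vars φ := by
  unfold vars
  rw [mem_uniq, List.mem_flatMap]
  exact ⟨_, List.getElem_mem hj, List.mem_map.mpr ⟨_, lit_mem h3 hj hi, rfl⟩⟩

/-- the number of isolated vertices -/
def MM (D : ℕ) (φ : List (List (ℕ × Bool))) : ℕ :=
  D * ((vars φ).length * (φ.length * 3) + 1) + 2

/-- the cyclic order of occurrences -/
def tauF {m : ℕ} (o : Fin m × Fin 3) : Fin m × Fin 3 :=
  if o.2 = 2 then (scF o.1, 0) else (o.1, o.2 + 1)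

theorem tauF_inj {m : ℕ} : Function.Injective (tauF (m := m)) := by
  rintro ⟨j, i⟩ ⟨j', i'⟩ h
  unfold tauF at h
  simp only at h
  by_cases h1 : i = 2 <;> by_cases h2 : i' = 2
  · rw [if_pos h1, if_pos h2] at h
    simp only [Prod.mk.injEq, and_true] at h
    rw [scF_inj h, h1, h2]
  · rw [if_pos h1, if_neg h2] at h
    simp only [Prod.mk.injEq] at h
    exfalso
    have := h.2
    revert h2 this
    fin_cases i' <;> decide
  · rw [if_neg h1, if_pos h2] at h
    simp only [Prod.mk.injEq] at h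
    exfalso
    have := h.2
    revert h1 this
    fin_cases i <;> decide
  · rw [if_neg h1, if_neg h2] at h
    simp only [Prod.mk.injEq] at h
    rw [h.1, add_right_cancel h.2]

theorem tauF_trans {m : ℕ} (A : Set (Fin m × Fin 3)) (hA : A.Nonempty)
    (h : ∀ l ∈ A, tauF l ∈ A) : A = univ := by
  have s1 : ∀ j, (j, (0 : Fin 3)) ∈ A → (j, (1 : Fin 3)) ∈ A := fun j hj => by
    have := h _ hj
    unfold tauF at this
    rw [if_neg (by simp)] at this
    exact this
  have s2 : ∀ j, (j, (1 : Fin 3)) ∈ A → (j, (2 : Fin 3)) ∈ A := fun j hj => by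
    have := h _ hj
    unfold tauF at this
    rw [if_neg (by simp)] at this
    exact this
  have s3 : ∀ j, (j, (2 : Fin 3)) ∈ A → (scF j, (0 : Fin 3)) ∈ A := fun j hj => by
    have := h _ hj
    unfold tauF at this
    rw [if_pos rfl] at this
    exact this
  have h0 : {j | (j, (0 : Fin 3)) ∈ A} = univ := by
    apply scF_trans
    · obtain ⟨⟨j, i⟩, hji⟩ := hA
      refine ⟨scF j, ?_⟩
      fin_cases i
      · exact s3 _ (s2 _ (s1 _ hji))
      · exact s3 _ (s2 _ hji)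
      · exact s3 _ hji
    · intro j hj
      exact s3 _ (s2 _ (s1 _ hj))
  rw [Set.eq_univ_iff_forall]
  rintro ⟨j, i⟩
  have h1 : (j, (0 : Fin 3)) ∈ A := by
    have : j ∈ {j | (j, (0 : Fin 3)) ∈ A} := by rw [h0]; trivial
    exact this
  fin_cases i
  · exact h1
  · exact s1 _ h1
  · exact s2 _ (s1 _ h1)

theorem card_vars (φ : List (List (ℕ × Bool))) :
    Nat.card {x : ℕ // x ∈ vars φ} = (vars φ).length := by
  have h : (vars φ).Nodup := nodup_uniq _
  have h1 : Nat.card {x : ℕ // x ∈ vars φ} = Nat.card {x : ℕ // x ∈ (vars φ).toFinset} :=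
    Nat.card_congr (Equiv.subtypeEquivRight (by simp))
  rw [h1, Nat.card_eq_fintype_card, Fintype.card_coe, List.toFinset_card_of_nodup h]

/-- the parameters for a formula -/
def dpar (D : ℕ) (hD : 3 ≤ D) (φ : List (List (ℕ × Bool))) (h3 : ∀ c ∈ φ, c.length = 3) :
    DPar {x : ℕ // x ∈ vars φ} (Fin φ.length × Fin 3) (Fin φ.length) where
  vr o := ⟨(lit φ o.1 o.2).1, lit_var_mem h3 o.1.2 o.2.2⟩
  pol o := (lit φ o.1 o.2).2
  cl o := o.1
  τ := tauF
  D := D
  M := MM D φ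
  τ_inj := tauF_inj
  hτ := tauF_trans
  fib := by
    intro j
    have h : {o : Fin φ.length × Fin 3 | o.1 = j} ⊆ (fun i : Fin 3 => (j, i)) '' univ := by
      rintro ⟨j', i⟩ h
      exact ⟨i, trivial, by rw [← h]⟩
    have h1 := Set.ncard_le_ncard h (Set.toFinite _)
    have h2 := Set.ncard_image_le (f := fun i : Fin 3 => (j, i)) (Set.toFinite univ)
    rw [Set.ncard_univ, Nat.card_fin] at h2
    exact h1.trans h2
  cl_surj := fun j => ⟨(j, 0), rfl⟩
  D_ge := hD
  M_ge := by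
    rw [card_vars, Nat.card_prod, Nat.card_fin, Nat.card_fin]
    exact le_rfl

instance (φ : List (List (ℕ × Bool))) : Finite {x : ℕ // x ∈ vars φ} :=
  Finite.of_injective (β := {x : ℕ // x ∈ (vars φ).toFinset}) (fun x => ⟨x.1, by simpa using x.2⟩)
    (fun a b h => Subtype.ext (congrArg (fun z => z.1) h))

theorem dpar_sat_iff (D : ℕ) (hD : 3 ≤ D) (φ : List (List (ℕ × Bool)))
    (h3 : ∀ c ∈ φ, c.length = 3) :
    (∃ β : {x : ℕ // x ∈ vars φ} → Bool, ∀ j, ∃ o, (dpar D hD φ h3).cl o = j ∧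
      β ((dpar D hD φ h3).vr o) = (dpar D hD φ h3).pol o) ↔ ∃ β, Sat β φ := by
  classical
  constructor
  · rintro ⟨β, hβ⟩
    refine ⟨fun x => if h : x ∈ vars φ then β ⟨x, h⟩ else false, ?_⟩
    intro c hc
    obtain ⟨j, hj, rfl⟩ := List.mem_iff_getElem.mp hc
    obtain ⟨⟨j', i⟩, h1, h2⟩ := hβ ⟨j, hj⟩
    have h1' : j' = ⟨j, hj⟩ := h1
    subst h1'
    refine ⟨lit φ j i, lit_mem h3 hj i.2, ?_⟩
    simp only [dif_pos (lit_var_mem h3 hj i.2)]
    exact h2
  · rintro ⟨β, hβ⟩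
    refine ⟨fun x => β x.1, ?_⟩
    intro j
    obtain ⟨l, hl, hb⟩ := hβ _ (List.getElem_mem j.2)
    obtain ⟨i, hi, rfl⟩ := List.mem_iff_getElem.mp hl
    have hi3 : i < 3 := by rw [← h3 _ (List.getElem_mem j.2)]; exact hi
    have h1 : lit φ j.1 i = (φ[j.1])[i] := by
      unfold lit
      rw [List.getD_eq_getElem _ _ j.2, List.getD_eq_getElem _ _ hi]
    refine ⟨(j, ⟨i, hi3⟩), rfl, ?_⟩
    change β (lit φ j.1 i).1 = (lit φ j.1 i).2
    rw [h1]
    exact hb

/-- records: `(kind, variable or number, clause, position, residue)` -/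
abbrev RecD : Type := ℕ × ℕ × ℕ × ℕ × ℕ

/-- the list of records -/
def recsD (D : ℕ) (φ : List (List (ℕ × Bool))) : List RecD :=
  ((vars φ).flatMap fun x => (List.range φ.length).flatMap fun j => (List.range 3).flatMap fun i =>
    (List.range 3).map fun ρ => (0, x, j, i, ρ)) ++
  (((List.range φ.length).map fun j => (1, j, 0, 0, 0)) ++
  (((List.range (D + 1)).map fun i => (2, i, 0, 0, 0)) ++
  ((List.range (MM D φ)).map fun i => (3, i, 0, 0, 0))))

/-- the next vertex on a cycle -/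
def nxD (m : ℕ) (r : RecD) : RecD :=
  (0, r.2.1, if r.2.2.2.2 = 2 then (if r.2.2.2.1 = 2 then sc m r.2.2.1 else r.2.2.1)
    else r.2.2.1, if r.2.2.2.2 = 2 then (if r.2.2.2.1 = 2 then 0 else r.2.2.2.1 + 1)
    else r.2.2.2.1, if r.2.2.2.2 = 2 then 0 else r.2.2.2.2 + 1)

/-- directed adjacency in the sparse graph -/
def edD (φ : List (List (ℕ × Bool))) (r s : RecD) : Bool :=
  (decide (r.1 = 0) && decide (s.1 = 0) && decide (s = nxD φ.length r)) ||
  (decide (r.1 = 1) && decide (s.1 = 0) && decide (s.2.2.1 = r.2.1) &&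
    decide (s.2.1 = (lit φ s.2.2.1 s.2.2.2.1).1) &&
    decide (s.2.2.2.2 = if (lit φ s.2.2.1 s.2.2.2.1).2 then 0 else 1)) ||
  (decide (r.1 = 2) && decide (s.1 = 2))

/-- adjacency in the complement -/
def adjD (φ : List (List (ℕ × Bool))) (r s : RecD) : Bool :=
  !(decide (r = s)) && !(edD φ r s || edD φ s r)

section

variable {D : ℕ} {hD : 3 ≤ D} {φ : List (List (ℕ × Bool))} {h3 : ∀ c ∈ φ, c.length = 3}

/-- the record of a vertex -/
def encD : (dpar D hD φ h3).B → RecD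
  | .cyc c => (0, c.1.1, c.2.1.1.1, c.2.1.2.1, c.2.2.1)
  | .cla j => (1, j.1, 0, 0, 0)
  | .clq i => (2, i.1, 0, 0, 0)
  | .iso i => (3, i.1, 0, 0, 0)

theorem encD_injective : Function.Injective (encD (D := D) (hD := hD) (φ := φ) (h3 := h3)) := by
  intro x y h
  rcases x with ⟨x, ⟨j, i⟩, ρ⟩ | j | i | i <;> rcases y with ⟨x', ⟨j', i'⟩, ρ'⟩ | j' | i' | i' <;>
    simp only [encD, Prod.mk.injEq, Fin.val_inj] at h <;> try omega
  · obtain ⟨_, h1, h2, h3, h4⟩ := h
    rw [Subtype.ext h1, h2, h3, h4]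
  · rw [h.2.1]
  · rw [h.2.1]
  · rw [h.2.1]

theorem fin3_succ {ρ : Fin 3} (h : ρ ≠ 2) : (ρ + 1).1 = ρ.1 + 1 := by
  revert h
  fin_cases ρ <;> decide

theorem nxD_encD (c : {x : ℕ // x ∈ vars φ} × (Fin φ.length × Fin 3) × Fin 3) :
    encD (D := D) (hD := hD) (h3 := h3) (.cyc ((dpar D hD φ h3).nx c)) =
      nxD φ.length (encD (D := D) (hD := hD) (h3 := h3) (.cyc c)) := by
  obtain ⟨x, ⟨j, i⟩, ρ⟩ := c
  have e2 : ∀ ρ : Fin 3, ρ.1 = 2 ↔ ρ = 2 := by
    intro ρ
    rw [Fin.ext_iff]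
    rfl
  unfold DPar.nx nxD
  simp only [encD, e2]
  by_cases h : ρ = 2
  · rw [if_pos h, if_pos h, if_pos h, if_pos h]
    change (0, x.1, (tauF (j, i)).1.1, (tauF (j, i)).2.1, 0) = _
    unfold tauF
    simp only
    by_cases h' : i = 2
    · rw [if_pos h', if_pos h', if_pos h']
      rfl
    · rw [if_neg h', if_neg h', if_neg h']
      simp only [fin3_succ h']
  · rw [if_neg h, if_neg h, if_neg h, if_neg h]
    simp only [fin3_succ h]

theorem edD_encD (x y : (dpar D hD φ h3).B) :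
    edD φ (encD x) (encD y) = true ↔ (dpar D hD φ h3).Ed x y := by
  rcases x with c | j | i | i
  · rcases y with c' | j' | i' | i'
    · have h1 : edD φ (encD (.cyc c : (dpar D hD φ h3).B)) (encD (.cyc c' : (dpar D hD φ h3).B)) =
          true ↔ (encD (.cyc c' : (dpar D hD φ h3).B)) = nxD φ.length (encD (.cyc c :
            (dpar D hD φ h3).B)) := by
        simp only [edD, encD, Bool.or_eq_true, Bool.and_eq_true, decide_eq_true_eq, zero_ne_one,
          OfNat.zero_ne_ofNat, false_and, or_false, true_and]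
      rw [h1, ← nxD_encD, encD_injective.eq_iff]
      exact ⟨fun h => BV.cyc.inj h, fun h => congrArg _ h⟩
    · simp [edD, encD, DPar.Ed]
    · simp [edD, encD, DPar.Ed]
    · simp [edD, encD, DPar.Ed]
  · rcases y with ⟨x, ⟨j', i⟩, ρ⟩ | j' | i' | i'
    · simp only [edD, encD, Bool.or_eq_true, Bool.and_eq_true, decide_eq_true_eq,
        one_ne_zero, OfNat.one_ne_ofNat, false_and, or_false, false_or, true_and]
      change _ ↔ (j' = j ∧ x = (⟨(lit φ j' i).1, _⟩ : {x : ℕ // x ∈ vars φ}) ∧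
        ρ = DPar.port (lit φ j' i).2)
      rw [Subtype.ext_iff, Fin.ext_iff, Fin.ext_iff, and_assoc]
      have hp : (DPar.port (lit φ j' i).2).1 = if (lit φ j' i).2 = true then 0 else 1 := by
        unfold DPar.port
        split_ifs <;> rfl
      rw [hp]
      exact Iff.rfl
    · simp [edD, encD, DPar.Ed]
    · simp [edD, encD, DPar.Ed]
    · simp [edD, encD, DPar.Ed]
  · rcases y with c' | j' | i' | i' <;> simp [edD, encD, DPar.Ed]
  · rcases y with c' | j' | i' | i' <;> simp [edD, encD, DPar.Ed]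

theorem adjD_encD (x y : (dpar D hD φ h3).B) :
    adjD φ (encD x) (encD y) = true ↔ (dpar D hD φ h3).Rᶜ.Adj x y := by
  unfold adjD
  rw [SimpleGraph.compl_adj, Bool.and_eq_true, Bool.not_eq_true', decide_eq_false_iff_not,
    Bool.not_eq_true', ← Bool.not_eq_true, Bool.or_eq_true, encD_injective.eq_iff, edD_encD,
    edD_encD]
  constructor
  · rintro ⟨h1, h2⟩
    refine ⟨h1, ?_⟩
    rintro ⟨_, h⟩
    exact h2 h
  · rintro ⟨h1, h2⟩
    exact ⟨h1, fun h => h2 ⟨h1, h⟩⟩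

theorem mem_recsD (r : RecD) : r ∈ recsD D φ ↔
    ∃ v, encD (D := D) (hD := hD) (φ := φ) (h3 := h3) v = r := by
  unfold recsD
  simp only [List.mem_append, List.mem_flatMap, List.mem_map, List.mem_range]
  constructor
  · rintro (⟨x, hx, j, hj, i, hi, ρ, hρ, rfl⟩ | ⟨j, hj, rfl⟩ | ⟨i, hi, rfl⟩ | ⟨i, hi, rfl⟩)
    · exact ⟨.cyc (⟨x, hx⟩, (⟨j, hj⟩, ⟨i, hi⟩), ⟨ρ, hρ⟩), rfl⟩
    · exact ⟨.cla ⟨j, hj⟩, rfl⟩
    · exact ⟨.clq ⟨i, hi⟩, rfl⟩
    · exact ⟨.iso ⟨i, hi⟩, rfl⟩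
  · rintro ⟨⟨x, ⟨j, i⟩, ρ⟩ | j | i | i, rfl⟩
    · exact Or.inl ⟨x.1, x.2, j.1, j.2, i.1, i.2, ρ.1, ρ.2, rfl⟩
    · exact Or.inr (Or.inl ⟨j.1, j.2, rfl⟩)
    · exact Or.inr (Or.inr (Or.inl ⟨i.1, i.2, rfl⟩))
    · exact Or.inr (Or.inr (Or.inr ⟨i.1, i.2, rfl⟩))

end

/-- the dense graph of a formula -/
def dense (D : ℕ) (φ : List (List (ℕ × Bool))) : List ℕ × List (ℕ × ℕ) :=
  toGraph (recsD D φ) (adjD φ)

/-- the size of the wanted subgraph -/
def kk (D : ℕ) (φ : List (List (ℕ × Bool))) : ℕ :=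
  2 * ((vars φ).length * (φ.length * 3)) + φ.length + D + MM D φ

theorem k_eq (D : ℕ) (hD : 3 ≤ D) (φ : List (List (ℕ × Bool))) (h3 : ∀ c ∈ φ, c.length = 3) :
    (dpar D hD φ h3).k = kk D φ := by
  unfold DPar.k kk
  rw [DPar.card_B, card_vars, Nat.card_prod, Nat.card_fin, Nat.card_fin]
  change _ + (D + 1) + MM D φ - _ = _
  omega

section

variable (D : ℕ) (hD : 3 ≤ D) (φ : List (List (ℕ × Bool))) (h3 : ∀ c ∈ φ, c.length = 3)

include hD h3

theorem dense_iso : Nonempty ((dpar D hD φ h3).Rᶜ ≃g graphOf (dense D φ)) :=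
  exists_iso encD_injective mem_recsD adjD_encD

theorem isGraph_dense : IsGraph (dense D φ) :=
  isGraph_of_enc (G := (dpar D hD φ h3).Rᶜ) mem_recsD adjD_encD

theorem maxDegree_dense : MaxDegree (graphOf (dense D φ))ᶜ D := by
  obtain ⟨e⟩ := dense_iso D hD φ h3
  have h := (dpar D hD φ h3).maxDegree
  rw [← compl_compl (dpar D hD φ h3).R] at h
  exact h.iso (complIso e)

theorem hIndex_dense : HIndex (graphOf (dense D φ))ᶜ D := by
  obtain ⟨e⟩ := dense_iso D hD φ h3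
  have h := (dpar D hD φ h3).hIndex
  rw [← compl_compl (dpar D hD φ h3).R] at h
  exact h.iso (complIso e)

theorem hasPDS_dense : HasPDS (graphOf (dense D φ)) (kk D φ) ↔ ∃ β, Sat β φ := by
  obtain ⟨e⟩ := dense_iso D hD φ h3
  rw [← hasPDS_iso e, ← dpar_sat_iff D hD φ h3, ← k_eq D hD φ h3]
  exact (dpar D hD φ h3).pds_iff

theorem hasConnPDS_dense : HasConnPDS (graphOf (dense D φ)) (kk D φ) ↔ ∃ β, Sat β φ := by
  obtain ⟨e⟩ := dense_iso D hD φ h3
  rw [← hasConnPDS_iso e, ← dpar_sat_iff D hD φ h3, ← k_eq D hD φ h3]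
  exact (dpar D hD φ h3).connPds_iff

end

section

variable {α : Type} [N487b59b3 α]

theorem pt_vars {φ : α → List (List (ℕ × Bool))} (hφ : IsPolyTime φ) :
    IsPolyTime (fun a => vars (φ a)) := by
  unfold vars
  fun_prop

theorem pt_lit {φ : α → List (List (ℕ × Bool))} {j i : α → ℕ} (hφ : IsPolyTime φ)
    (hj : IsPolyTime j) (hi : IsPolyTime i) : IsPolyTime (fun a => lit (φ a) (j a) (i a)) :=
  pt_getD _ (pt_getD _ hφ hj) hi

attribute [local fun_prop] pt_vars pt_lit pt_sc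

theorem pt_MM {D : ℕ} {φ : α → List (List (ℕ × Bool))} (hφ : IsPolyTime φ) :
    IsPolyTime (fun a => MM D (φ a)) := by
  unfold MM
  fun_prop

theorem pb_MM {D : ℕ} {φ : α → List (List (ℕ × Bool))} (hφ : IsPolyTime φ) :
    PB (fun a => MM D (φ a)) := by
  have h1 := pb_length (pt_vars hφ)
  have h2 := pb_length hφ
  unfold MM
  exact pb_add (pb_mul (pb_const D) (pb_add (pb_mul h1 (pb_mul h2 (pb_const 3)))
    (pb_const 1))) (pb_const 2)

theorem pt_kk {D : ℕ} {φ : α → List (List (ℕ × Bool))} (hφ : IsPolyTime φ) :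
    IsPolyTime (fun a => kk D (φ a)) := by
  have h := pt_MM (D := D) hφ
  unfold kk
  fun_prop

theorem pt_recsD {D : ℕ} {φ : α → List (List (ℕ × Bool))} (hφ : IsPolyTime φ) :
    IsPolyTime (fun a => recsD D (φ a)) := by
  have h1 : IsPolyTime (fun a => List.range (φ a).length) := pt_range hφ
  have h2 : IsPolyTime (fun x : α × ℕ => List.range (φ x.1).length) :=
    pt_range (pt_comp hφ pt_fst')
  have h3 : IsPolyTime (fun a => List.range (MM D (φ a))) := pt_rangeN (pt_MM hφ) (pb_MM hφ)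
  unfold recsD
  refine pt_append (pt_flatMap (pt_vars hφ) (pt_flatMap h2 ?_)) (pt_append (pt_map h1 ?_)
    (pt_append (pt_map (pt_const _) ?_) (pt_map h3 ?_)))
  · fun_prop
  · fun_prop
  · fun_prop
  · fun_prop

theorem pt_nxD {m : α → ℕ} {r : α → RecD} (hm : IsPolyTime m) (hr : IsPolyTime r) :
    IsPolyTime (fun a => nxD (m a) (r a)) := by
  unfold nxD
  fun_prop

attribute [local fun_prop] pt_nxD

theorem pt_edD {φ : α → List (List (ℕ × Bool))} {r s : α → RecD} (hφ : IsPolyTime φ)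
    (hr : IsPolyTime r) (hs : IsPolyTime s) : IsPolyTime (fun a => edD (φ a) (r a) (s a)) := by
  have h1 : IsPolyTime (fun a => cond (lit (φ a) (s a).2.2.1 (s a).2.2.2.1).2 0 1) := by fun_prop
  have h2 : IsPolyTime (fun a => if (lit (φ a) (s a).2.2.1 (s a).2.2.2.1).2 then 0 else 1) :=
    pt_congr h1 (fun a => by cases (lit (φ a) (s a).2.2.1 (s a).2.2.2.1).2 <;> rfl)
  unfold edD
  fun_prop

attribute [local fun_prop] pt_edD

theorem pt_adjD {φ : α → List (List (ℕ × Bool))} {r s : α → RecD} (hφ : IsPolyTime φ)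
    (hr : IsPolyTime r) (hs : IsPolyTime s) : IsPolyTime (fun a => adjD (φ a) (r a) (s a)) := by
  unfold adjD
  fun_prop

theorem pt_dense {D : ℕ} {φ : α → List (List (ℕ × Bool))} (hφ : IsPolyTime φ) :
    IsPolyTime (fun a => dense D (φ a)) :=
  pt_toGraph (pt_recsD hφ) (pt_adjD (pt_comp hφ (pt_fst pt_fst')) (by fun_prop) (by fun_prop))

end

/-- hardness on graphs whose complement has maximum degree `D` and h-index `D` -/
theorem hard_dense (D : ℕ) (C : ∀ {V : Type}, SimpleGraph V → Prop)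
    (Q : ∀ {V : Type}, SimpleGraph V → ℕ → Prop)
    (hC : ∀ φ : List (List (ℕ × Bool)), (∀ c ∈ φ, c.length = 3) → C (graphOf (dense D φ)))
    (hG : ∀ φ : List (List (ℕ × Bool)), (∀ c ∈ φ, c.length = 3) → IsGraph (dense D φ))
    (hQ : ∀ φ : List (List (ℕ × Bool)), (∀ c ∈ φ, c.length = 3) →
      (Q (graphOf (dense D φ)) (kk D φ) ↔ ∃ β, Sat β φ)) : NPHardOn C Q := by
  intro L hL
  obtain ⟨f, hf, hf3, h⟩ := cookLevin_three hL
  refine ⟨fun x => (dense D (f x), kk D (f x)), ?_, ?_, ?_⟩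
  · have h1 := pt_dense (D := D) hf
    have h2 := pt_kk (D := D) hf
    fun_prop
  · intro x
    exact ⟨hG _ (hf3 x), hC _ (hf3 x)⟩
  · intro x
    exact (h x).trans (hQ _ (hf3 x)).symm

end Pool.Agent.Lib.MP_9a7af0_lc
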