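import Pool.Agent.Lib.MP_9a7af0_lc.Net

/-!
The sparse construction: tame vertex sets of the right size in a graph of maximum degree 3
correspond to independent sets.
-/

namespace Pool.Agent.Lib.MP_9a7af0_lc

open Set

/-- core vertices: clusters `v o l`, conflict vertices `z e`, connectors `q o` -/
inductive Core (O E Lab : Type)
  | v (o : O) (l : Lab)
  | z (e : E)
  | q (o : O)

/-- parameters of the construction -/
structure Par (O E Lab : Type) where
  /-- first end of a conflict -/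
  s : E → O
  /-- second end of a conflict -/
  u : E → O
  /-- label used at the first end -/
  la : E → Lab
  /-- label used at the second end -/
  lb : E → Lab
  /-- label used for the connector -/
  l0 : Lab
  /-- cyclic order of the labels -/
  σ : Lab → Lab
  /-- cyclic order of the clusters -/
  τ : O → O
  /-- the cluster with the long segment -/
  o₀ : O
  /-- length of wires -/
  a : ℕ
  /-- length of pendant paths and segments -/
  c : ℕ
  /-- length of the long segment -/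
  L : ℕ
  /-- number of chosen clusters -/
  r : ℕ
  /-- target size -/
  t : ℕ
  la_inj : Function.Injective la
  lb_inj : Function.Injective lb
  la_ne_lb : ∀ e e', la e ≠ lb e'
  la_ne : ∀ e, la e ≠ l0
  lb_ne : ∀ e, lb e ≠ l0
  σ_inj : Function.Injective σ
  τ_inj : Function.Injective τ
  hσ : ∀ A : Set Lab, A.Nonempty → (∀ l ∈ A, σ l ∈ A) → A = univ
  hτ : ∀ A : Set O, A.Nonempty → (∀ l ∈ A, τ l ∈ A) → A = univ
  r_pos : 1 ≤ r
  t_eq : t = r * Nat.card Lab * (a + 1)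
  count : Nat.card O * Nat.card Lab * (a + 1) + Nat.card E * (c + 1) + (Nat.card O - 1) * (c + 1) +
    (L + 1) = 3 * t + 1
  t_lt : t < L
  a_big : Nat.card O * Nat.card Lab + Nat.card E * (c + 1) + Nat.card O * (c + 1) < a
  c_big : r * Nat.card Lab < c

namespace Par

variable {O E Lab : Type} [Finite O] [Finite E] [Finite Lab] (P : Par O E Lab)

open Classical in
/-- the net -/
noncomputable def net : Net (Core O E Lab) where
  len
    | .v _ _ => P.a
    | .z _ => P.c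
    | .q o => if o = P.o₀ then P.L else P.c
  nxt
    | .v o l => some (.v o (P.σ l))
    | .z _ => none
    | .q o => some (.q (P.τ o))
  ed
    | .z e, .v o l => (o = P.s e ∧ l = P.la e) ∨ (o = P.u e ∧ l = P.lb e)
    | .q o, .v o' l => o' = o ∧ l = P.l0
    | _, _ => False

/-- core vertices as a sum type -/
def coreEquiv : Core O E Lab ≃ (O × Lab) ⊕ (E ⊕ O) where
  toFun
    | .v o l => .inl (o, l)
    | .z e => .inr (.inl e)
    | .q o => .inr (.inr o)
  invFun
    | .inl x => .v x.1 x.2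
    | .inr (.inl e) => .z e
    | .inr (.inr o) => .q o
  left_inv := by rintro (_ | _ | _) <;> rfl
  right_inv := by rintro (_ | _ | _) <;> rfl

instance : Finite (Core O E Lab) := Finite.of_equiv _ coreEquiv.symm

/-- the vertex type -/
abbrev W : Type := P.net.V

/-- the graph -/
noncomputable abbrev gr : SimpleGraph P.W := P.net.graph

theorem c_pos : 2 ≤ P.c := by
  have h1 := P.c_big
  have h2 : 0 < Nat.card Lab := by
    have : Nonempty Lab := ⟨P.l0⟩
    exact Nat.card_pos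
  have h3 : 0 < P.r * Nat.card Lab := Nat.mul_pos P.r_pos h2
  omega

theorem a_pos : 2 ≤ P.a := by
  have h1 := P.a_big
  have h2 : 0 < Nat.card O := by
    have : Nonempty O := ⟨P.o₀⟩
    exact Nat.card_pos
  have h3 := P.c_pos
  have h4 : 1 * (P.c + 1) ≤ Nat.card O * (P.c + 1) := Nat.mul_le_mul_right _ h2
  omega

theorem L_pos : 2 ≤ P.L := by
  have h1 := P.t_lt
  have h2 : 0 < Nat.card Lab := by
    have : Nonempty Lab := ⟨P.l0⟩
    exact Nat.card_pos
  have h3 : 0 < P.r * Nat.card Lab := Nat.mul_pos P.r_pos h2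
  have h4 := P.a_pos
  have h5 : 1 * (P.a + 1) ≤ P.r * Nat.card Lab * (P.a + 1) := Nat.mul_le_mul_right _ h3
  rw [← P.t_eq] at h5
  omega

omit [Finite O] [Finite E] in
theorem t_pos : 1 ≤ P.t := by
  have h2 : 0 < Nat.card Lab := by
    have : Nonempty Lab := ⟨P.l0⟩
    exact Nat.card_pos
  have h3 : 0 < P.r * Nat.card Lab := Nat.mul_pos P.r_pos h2
  rw [P.t_eq]
  exact Nat.mul_pos h3 (by omega)

theorem len_pos (x : Core O E Lab) : 2 ≤ P.net.len x := by
  have h1 := P.a_pos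
  have h2 := P.c_pos
  have h3 := P.L_pos
  rcases x with ⟨o, l⟩ | e | o
  · exact h1
  · exact h2
  · simp only [net]
    split_ifs <;> assumption

theorem card_W : Nat.card P.W = 3 * P.t + 1 := by
  classical
  have := Fintype.ofFinite O
  have := Fintype.ofFinite E
  have := Fintype.ofFinite Lab
  have := Fintype.ofFinite (Core O E Lab)
  rw [Nat.card_congr Net.equiv, Nat.card_eq_fintype_card, Fintype.card_sigma]
  simp only [Fintype.card_fin]
  rw [← Equiv.sum_comp (coreEquiv (O := O) (E := E) (Lab := Lab)).symm, Fintype.sum_sum_type,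
    Fintype.sum_sum_type, ← P.count]
  have h1 : ∑ x : O × Lab, (P.net.len (coreEquiv.symm (Sum.inl x)) + 1) =
      Nat.card O * Nat.card Lab * (P.a + 1) := by
    have : ∀ x : O × Lab, P.net.len (coreEquiv.symm (Sum.inl x)) + 1 = P.a + 1 := fun x => rfl
    simp only [this, Finset.sum_const, Finset.card_univ, Fintype.card_prod, smul_eq_mul,
      Nat.card_eq_fintype_card]
  have h2 : ∑ x : E, (P.net.len (coreEquiv.symm (Sum.inr (Sum.inl x))) + 1) =
      Nat.card E * (P.c + 1) := by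
    have : ∀ x : E, P.net.len (coreEquiv.symm (Sum.inr (Sum.inl x))) + 1 = P.c + 1 :=
      fun x => rfl
    simp only [this, Finset.sum_const, Finset.card_univ, smul_eq_mul, Nat.card_eq_fintype_card]
  have h3 : ∑ x : O, (P.net.len (coreEquiv.symm (Sum.inr (Sum.inr x))) + 1) =
      (Nat.card O - 1) * (P.c + 1) + (P.L + 1) := by
    have : ∀ x : O, P.net.len (coreEquiv.symm (Sum.inr (Sum.inr x))) + 1 =
        if x = P.o₀ then P.L + 1 else P.c + 1 := by
      intro x
      change (if x = P.o₀ then P.L else P.c) + 1 = _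
      split_ifs <;> rfl
    simp only [this]
    rw [← Finset.add_sum_erase _ _ (Finset.mem_univ P.o₀), if_pos rfl]
    have h4 : ∑ x ∈ Finset.univ.erase P.o₀, (if x = P.o₀ then P.L + 1 else P.c + 1) =
        ∑ x ∈ Finset.univ.erase P.o₀, (P.c + 1) := by
      refine Finset.sum_congr rfl fun x hx => ?_
      rw [if_neg (Finset.ne_of_mem_erase hx)]
    rw [h4, Finset.sum_const, Finset.card_erase_of_mem (Finset.mem_univ _), Finset.card_univ,
      smul_eq_mul, Nat.card_eq_fintype_card]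
    ring
  rw [h1, h2, h3]
  ring

/-! ### Degrees -/

theorem ncard_le_three {V : Type} [Finite V] {S : Set V} {x y z : V} (h : S ⊆ {x, y, z}) :
    S.ncard ≤ 3 := by
  have h1 := Set.ncard_le_ncard h (Set.toFinite _)
  have h2 := Set.ncard_insert_le x ({y, z} : Set V)
  have h3 := Set.ncard_insert_le y ({z} : Set V)
  rw [Set.ncard_singleton] at h3
  omega

theorem three_le_ncard {V : Type} [Finite V] {S : Set V} {x y z : V} (hx : x ∈ S) (hy : y ∈ S)
    (hz : z ∈ S) (h1 : x ≠ y) (h2 : x ≠ z) (h3 : y ≠ z) : 3 ≤ S.ncard := by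
  have : ({x, y, z} : Set V) ⊆ S := by
    rintro w (rfl | rfl | rfl)
    exacts [hx, hy, hz]
  have h4 := Set.ncard_le_ncard this (Set.toFinite _)
  rw [Set.ncard_eq_three.mpr ⟨x, y, z, h1, h2, h3, rfl⟩] at h4
  exact h4

/-- neighbours of the first vertex of a path -/
theorem adj_zero {x : Core O E Lab} {y : P.W} (h : P.gr.Adj (Net.vtx x 0 (by omega)) y) :
    (y.1.1 = x ∧ y.1.2 = 1) ∨ (y.1.2 = 0 ∧ P.net.ed x y.1.1) ∨
      (y.1.2 = P.net.len y.1.1 ∧ P.net.nxt y.1.1 = some x) ∨ (y.1.2 = 0 ∧ P.net.ed y.1.1 x) := by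
  have hl := P.len_pos x
  obtain ⟨_, (⟨h2, h3⟩ | ⟨h2, h3, h4⟩ | ⟨h2, h3, h4⟩) | (⟨h2, h3⟩ | ⟨h2, h3, h4⟩ | ⟨h2, h3, h4⟩)⟩ := h
  · simp only [Net.vtx] at h2 h3
    exact Or.inl ⟨h2.symm, h3⟩
  · simp only [Net.vtx] at h2
    omega
  · exact Or.inr (Or.inl ⟨h3, h4⟩)
  · simp only [Net.vtx] at h3
    omega
  · exact Or.inr (Or.inr (Or.inl ⟨h2, h4⟩))
  · exact Or.inr (Or.inr (Or.inr ⟨h2, h4⟩))

theorem eq_vtx {N : Net (Core O E Lab)} {y : N.V} {x : Core O E Lab} {i : ℕ}
    (h1 : y.1.1 = x) (h2 : y.1.2 = i) : ∃ h : i ≤ N.len x, y = Net.vtx x i h := by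
  subst h1 h2
  exact ⟨y.2, rfl⟩

theorem nbr_v {o : O} {l : Lab} {y : P.W} (h : P.gr.Adj (Net.vtx (.v o l) 0 (by omega)) y) :
    (y.1.1 = .v o l ∧ y.1.2 = 1) ∨ (∃ l', P.σ l' = l ∧ y.1.1 = .v o l' ∧ y.1.2 = P.a) ∨
      (y.1.2 = 0 ∧ ((∃ e, y.1.1 = .z e ∧ ((o = P.s e ∧ l = P.la e) ∨ (o = P.u e ∧ l = P.lb e))) ∨
        (y.1.1 = .q o ∧ l = P.l0))) := by
  obtain ⟨⟨x, i⟩, hy⟩ := y
  rcases P.adj_zero h with h | ⟨_, h⟩ | ⟨h1, h2⟩ | ⟨h1, h2⟩
  · exact Or.inl h
  · exact absurd h (by simp [net])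
  · right; left
    rcases x with ⟨o', l'⟩ | e | o'
    · simp only [net, Option.some.injEq, Core.v.injEq] at h2
      obtain ⟨rfl, rfl⟩ := h2
      exact ⟨l', rfl, rfl, h1⟩
    · simp [net] at h2
    · simp [net] at h2
  · right; right
    refine ⟨h1, ?_⟩
    rcases x with ⟨o', l'⟩ | e | o'
    · simp [net] at h2
    · exact Or.inl ⟨e, rfl, h2⟩
    · simp only [net] at h2
      obtain ⟨rfl, h3⟩ := h2
      exact Or.inr ⟨rfl, h3⟩

theorem nbr_z {e : E} {y : P.W} (h : P.gr.Adj (Net.vtx (.z e) 0 (by omega)) y) :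
    (y.1.1 = .z e ∧ y.1.2 = 1) ∨ (y.1.2 = 0 ∧ y.1.1 = .v (P.s e) (P.la e)) ∨
      (y.1.2 = 0 ∧ y.1.1 = .v (P.u e) (P.lb e)) := by
  obtain ⟨⟨x, i⟩, hy⟩ := y
  rcases P.adj_zero h with h | ⟨h1, h2⟩ | ⟨h1, h2⟩ | ⟨h1, h2⟩
  · exact Or.inl h
  · rcases x with ⟨o', l'⟩ | e | o'
    · simp only [net] at h2
      rcases h2 with ⟨rfl, rfl⟩ | ⟨rfl, rfl⟩
      · exact Or.inr (Or.inl ⟨h1, rfl⟩)
      · exact Or.inr (Or.inr ⟨h1, rfl⟩)
    · simp [net] at h2
    · simp [net] at h2
  · rcases x with ⟨o', l'⟩ | e | o' <;> simp [net] at h2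
  · rcases x with ⟨o', l'⟩ | e | o' <;> simp [net] at h2

theorem nbr_q {o : O} {y : P.W} (h : P.gr.Adj (Net.vtx (.q o) 0 (by omega)) y) :
    (y.1.1 = .q o ∧ y.1.2 = 1) ∨ (y.1.2 = 0 ∧ y.1.1 = .v o P.l0) ∨
      (∃ o', P.τ o' = o ∧ y.1.1 = .q o' ∧ y.1.2 = P.net.len (.q o')) := by
  obtain ⟨⟨x, i⟩, hy⟩ := y
  rcases P.adj_zero h with h | ⟨h1, h2⟩ | ⟨h1, h2⟩ | ⟨h1, h2⟩
  · exact Or.inl h
  · rcases x with ⟨o', l'⟩ | e | o'
    · simp only [net] at h2
      obtain ⟨rfl, rfl⟩ := h2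
      exact Or.inr (Or.inl ⟨h1, rfl⟩)
    · simp [net] at h2
    · simp [net] at h2
  · rcases x with ⟨o', l'⟩ | e | o'
    · simp [net] at h2
    · simp [net] at h2
    · simp only [net, Option.some.injEq, Core.q.injEq] at h2
      exact Or.inr (Or.inr ⟨o', h2, rfl, h1⟩)
  · rcases x with ⟨o', l'⟩ | e | o' <;> simp [net] at h2

end Par

end Pool.Agent.Lib.MP_9a7af0_lc
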