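import Pool.Agent.Lib.MP_9a7af0_lc.Sparse

/-!
Degrees in the sparse construction; tame sets.
-/

namespace Pool.Agent.Lib.MP_9a7af0_lc

open Set

namespace Par

variable {O E Lab : Type} [Finite O] [Finite E] [Finite Lab] (P : Par O E Lab)

theorem σ_surj (l : Lab) : ∃ l', P.σ l' = l := Finite.surjective_of_injective P.σ_inj l

theorem τ_surj (o : O) : ∃ o', P.τ o' = o := Finite.surjective_of_injective P.τ_inj o

theorem len_pos' (x : Core O E Lab) : 1 ≤ P.net.len x := by
  have := P.len_pos x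
  omega

theorem deg_v (o : O) (l : Lab) : degIn P.gr univ (Net.vtx (.v o l) 0 (by omega)) ≤ 3 := by
  obtain ⟨l', hl'⟩ := P.σ_surj l
  have h1 := P.len_pos (.v o l)
  have h2 : P.net.len (.v o l') = P.a := rfl
  by_cases hex : ∃ y : P.W, y.1.2 = 0 ∧
      ((∃ e, y.1.1 = .z e ∧ ((o = P.s e ∧ l = P.la e) ∨ (o = P.u e ∧ l = P.lb e))) ∨
        (y.1.1 = .q o ∧ l = P.l0))
  · obtain ⟨y, hy0, hy⟩ := hex
    refine ncard_le_three (x := Net.vtx (.v o l) 1 (by omega))
      (y := Net.vtx (.v o l') P.a (by omega)) (z := y) ?_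
    rintro w ⟨hw, _⟩
    rcases P.nbr_v hw with h | ⟨l'', h3, h4, h5⟩ | ⟨h3, h4⟩
    · obtain ⟨_, h⟩ := eq_vtx h.1 h.2
      exact Or.inl h
    · rw [← hl'] at h3
      have h6 := P.σ_inj h3
      subst h6
      obtain ⟨_, h⟩ := eq_vtx h4 h5
      exact Or.inr (Or.inl h)
    · right; right
      change w = y
      apply Subtype.ext
      refine Prod.ext ?_ (h3.trans hy0.symm)
      rcases hy with ⟨e, hy1, hy2⟩ | ⟨hy1, hy2⟩
      · rcases h4 with ⟨e', h5, h6⟩ | ⟨h5, h6⟩
        · rw [h5, hy1]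
          congr 1
          rcases hy2 with ⟨_, g1⟩ | ⟨_, g1⟩
          · rcases h6 with ⟨_, g2⟩ | ⟨_, g2⟩
            · exact P.la_inj (g2.symm.trans g1)
            · exact absurd (g1.symm.trans g2) (P.la_ne_lb _ _)
          · rcases h6 with ⟨_, g2⟩ | ⟨_, g2⟩
            · exact absurd (g2.symm.trans g1) (P.la_ne_lb _ _)
            · exact P.lb_inj (g2.symm.trans g1)
        · exfalso
          rcases hy2 with ⟨_, g1⟩ | ⟨_, g1⟩
          · exact P.la_ne e (g1.symm.trans h6)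
          · exact P.lb_ne e (g1.symm.trans h6)
      · rcases h4 with ⟨e', h5, h6⟩ | ⟨h5, h6⟩
        · exfalso
          rcases h6 with ⟨_, g1⟩ | ⟨_, g1⟩
          · exact P.la_ne e' (g1.symm.trans hy2)
          · exact P.lb_ne e' (g1.symm.trans hy2)
        · rw [h5, hy1]
  · refine ncard_le_three (x := Net.vtx (.v o l) 1 (by omega))
      (y := Net.vtx (.v o l') P.a (by omega)) (z := Net.vtx (.v o l') P.a (by omega)) ?_
    rintro w ⟨hw, _⟩
    rcases P.nbr_v hw with h | ⟨l'', h3, h4, h5⟩ | h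
    · obtain ⟨_, h⟩ := eq_vtx h.1 h.2
      exact Or.inl h
    · rw [← hl'] at h3
      have h6 := P.σ_inj h3
      subst h6
      obtain ⟨_, h⟩ := eq_vtx h4 h5
      exact Or.inr (Or.inl h)
    · exact absurd ⟨w, h⟩ hex

theorem deg_z (e : E) : degIn P.gr univ (Net.vtx (.z e) 0 (by omega)) = 3 := by
  have h1 := P.len_pos (.z e)
  have hp : P.gr.Adj (Net.vtx (.z e) 0 (by omega)) (Net.vtx (.z e) 1 (by omega)) :=
    Net.adj_path _
  have ha : P.gr.Adj (Net.vtx (.z e) 0 (by omega)) (Net.vtx (.v (P.s e) (P.la e)) 0 (by omega)) :=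
    Net.adj_ed (by simp) (Or.inl ⟨rfl, rfl⟩)
  have hb : P.gr.Adj (Net.vtx (.z e) 0 (by omega)) (Net.vtx (.v (P.u e) (P.lb e)) 0 (by omega)) :=
    Net.adj_ed (by simp) (Or.inr ⟨rfl, rfl⟩)
  refine le_antisymm ?_ ?_
  · refine ncard_le_three (x := Net.vtx (.z e) 1 (by omega))
      (y := Net.vtx (.v (P.s e) (P.la e)) 0 (by omega))
      (z := Net.vtx (.v (P.u e) (P.lb e)) 0 (by omega)) ?_
    rintro w ⟨hw, _⟩
    rcases P.nbr_z hw with h | h | h
    · obtain ⟨_, h⟩ := eq_vtx h.1 h.2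
      exact Or.inl h
    · obtain ⟨_, h⟩ := eq_vtx h.2 h.1
      exact Or.inr (Or.inl h)
    · obtain ⟨_, h⟩ := eq_vtx h.2 h.1
      exact Or.inr (Or.inr h)
  · refine three_le_ncard ⟨hp, mem_univ _⟩ ⟨ha, mem_univ _⟩ ⟨hb, mem_univ _⟩ ?_ ?_ ?_
    · rw [Ne, Net.vtx_inj]; simp
    · rw [Ne, Net.vtx_inj]; simp
    · rw [Ne, Net.vtx_inj]
      simp only [Core.v.injEq, and_true, not_and]
      intro _
      exact P.la_ne_lb _ _

theorem deg_q (o : O) : degIn P.gr univ (Net.vtx (.q o) 0 (by omega)) = 3 := by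
  obtain ⟨o', ho'⟩ := P.τ_surj o
  have h1 := P.len_pos (.q o)
  have h1' := P.len_pos (.q o')
  have hp : P.gr.Adj (Net.vtx (.q o) 0 (by omega)) (Net.vtx (.q o) 1 (by omega)) :=
    Net.adj_path _
  have ha : P.gr.Adj (Net.vtx (.q o) 0 (by omega)) (Net.vtx (.v o P.l0) 0 (by omega)) :=
    Net.adj_ed (by simp) ⟨rfl, rfl⟩
  have hb : P.gr.Adj (Net.vtx (.q o) 0 (by omega)) (Net.vtx (.q o') (P.net.len (.q o')) le_rfl) := by
    subst ho'
    exact (Net.adj_nxt (by omega) rfl).symm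
  refine le_antisymm ?_ ?_
  · refine ncard_le_three (x := Net.vtx (.q o) 1 (by omega))
      (y := Net.vtx (.v o P.l0) 0 (by omega))
      (z := Net.vtx (.q o') (P.net.len (.q o')) le_rfl) ?_
    rintro w ⟨hw, _⟩
    rcases P.nbr_q hw with h | h | ⟨o'', h2, h3, h4⟩
    · obtain ⟨_, h⟩ := eq_vtx h.1 h.2
      exact Or.inl h
    · obtain ⟨_, h⟩ := eq_vtx h.2 h.1
      exact Or.inr (Or.inl h)
    · rw [← ho'] at h2
      have h6 := P.τ_inj h2
      subst h6
      obtain ⟨_, h⟩ := eq_vtx h3 h4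
      exact Or.inr (Or.inr h)
  · refine three_le_ncard ⟨hp, mem_univ _⟩ ⟨ha, mem_univ _⟩ ⟨hb, mem_univ _⟩ ?_ ?_ ?_
    · rw [Ne, Net.vtx_inj]; simp
    · rw [Ne, Net.vtx_inj]; omega
    · rw [Ne, Net.vtx_inj]; simp

theorem deg_le (x : P.W) : degIn P.gr univ x ≤ 3 := by
  obtain ⟨⟨c, i⟩, h⟩ := x
  rcases Nat.eq_zero_or_pos i with h0 | h0
  · subst h0
    rcases c with ⟨o, l⟩ | e | o
    · exact P.deg_v o l
    · exact (P.deg_z e).le
    · exact (P.deg_q o).le
  · exact (Net.deg_inner (N := P.net) h h0).trans (by omega)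

/-! ### From tame sets to independent sets -/

/-- vertices on wires -/
def Wire : Set P.W := {x | ∃ o l, x.1.1 = .v o l ∧ 1 ≤ x.1.2}

/-- vertices on the long segment -/
def Long : Set P.W := {x | x.1.1 = .q P.o₀ ∧ 1 ≤ x.1.2}

theorem rest_card : ((P.Wire ∪ P.Long)ᶜ).ncard < P.a := by
  classical
  have h1 := P.a_pos
  have h2 := P.c_pos
  let f : (O × Lab) ⊕ ((E × Fin (P.c + 1)) ⊕ (O × Fin (P.c + 1))) → P.W := fun x =>
    match x with
    | .inl y => Net.vtx (.v y.1 y.2) 0 (by omega)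
    | .inr (.inl y) => Net.vtx (.z y.1) y.2 (Nat.le_of_lt_succ y.2.2)
    | .inr (.inr y) => if h : y.2.1 ≤ P.net.len (.q y.1) then Net.vtx (.q y.1) y.2 h
        else Net.vtx (.q y.1) 0 (by omega)
  have hsub : (P.Wire ∪ P.Long)ᶜ ⊆ f '' univ := by
    intro x hx
    obtain ⟨⟨c, i⟩, h⟩ := x
    simp only [mem_compl_iff, mem_union, not_or] at hx
    obtain ⟨hx1, hx2⟩ := hx
    rcases c with ⟨o, l⟩ | e | o
    · have : i = 0 := by
        by_contra h0
        exact hx1 ⟨o, l, rfl, by simp only; omega⟩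
      subst this
      exact ⟨.inl (o, l), trivial, rfl⟩
    · have h' : i ≤ P.c := h
      exact ⟨.inr (.inl (e, ⟨i, by omega⟩)), trivial, rfl⟩
    · have h' : i ≤ (if o = P.o₀ then P.L else P.c) := h
      have hi : i ≤ P.c := by
        split_ifs at h' with h3
        · by_contra h4
          exact hx2 ⟨congrArg Core.q h3, by simp only; omega⟩
        · exact h'
      refine ⟨.inr (.inr (o, ⟨i, by omega⟩)), trivial, ?_⟩
      change (if h : i ≤ P.net.len (Core.q o) then Net.vtx (N := P.net) (Core.q o) i h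
        else Net.vtx (N := P.net) (Core.q o) 0 (by omega)) = _
      rw [dif_pos h]
      rfl
  have h3 := Set.ncard_le_ncard hsub (Set.toFinite _)
  have h4 := Set.ncard_image_le (f := f) (Set.toFinite univ)
  rw [Set.ncard_univ] at h4
  have h5 := P.a_big
  have h6 : Nat.card ((O × Lab) ⊕ ((E × Fin (P.c + 1)) ⊕ (O × Fin (P.c + 1)))) =
      Nat.card O * Nat.card Lab + Nat.card E * (P.c + 1) + Nat.card O * (P.c + 1) := by
    rw [Nat.card_sum, Nat.card_sum, Nat.card_prod, Nat.card_prod, Nat.card_prod, Nat.card_fin]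
    ring
  omega

include P in
theorem card_lab : 0 < Nat.card Lab := by
  have : Nonempty Lab := ⟨P.l0⟩
  exact Nat.card_pos

theorem indep_of_tame {T : Set P.W} (hT : Tame P.gr T) (hcard : T.ncard = P.t) :
    ∃ I : Set O, I.ncard = P.r ∧ ∀ e, ¬ (P.s e ∈ I ∧ P.u e ∈ I) := by
  classical
  have ha := P.a_pos
  have hc := P.c_pos
  have hK := P.card_lab
  -- the long segment is not in `T`
  have hlong : ¬ Net.In T (.q P.o₀) 1 := by
    intro h
    let f : Fin P.L → P.W := fun i => Net.vtx (.q P.o₀) (i.1 + 1) (by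
      have : P.net.len (.q P.o₀) = P.L := by simp [net]
      rw [this]
      exact i.2)
    have hf : f '' univ ⊆ T := by
      rintro _ ⟨i, _, rfl⟩
      obtain ⟨_, h1⟩ := (Net.Tame.thread (N := P.net) hT (c := .q P.o₀) (i := i.1 + 1) (by omega) (by
        have : P.net.len (.q P.o₀) = P.L := by simp [net]
        rw [this]
        exact i.2)).mpr h
      exact h1
    have h1 := Set.ncard_le_ncard hf (Set.toFinite _)
    rw [Set.ncard_image_of_injective _ (by
      intro i j hij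
      have := (Net.vtx_inj.mp hij).2
      exact Fin.ext (by omega)), Set.ncard_univ, Nat.card_fin] at h1
    have := P.t_lt
    omega
  have hlong' : T ∩ P.Long = ∅ := by
    rw [Set.eq_empty_iff_forall_notMem]
    rintro ⟨⟨c, i⟩, hx⟩ ⟨h1, h2, h3⟩
    simp only at h2 h3
    subst h2
    exact hlong ((Net.Tame.thread (N := P.net) hT h3 hx).mp ⟨hx, h1⟩)
  -- wires
  set F : Set (O × Lab) := {x | Net.In T (.v x.1 x.2) 1} with hF
  have hwire : (T ∩ P.Wire).ncard = F.ncard * P.a := by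
    let g : (O × Lab) × Fin P.a → P.W := fun x => Net.vtx (.v x.1.1 x.1.2) (x.2.1 + 1) x.2.2
    have hg : T ∩ P.Wire = g '' (F ×ˢ univ) := by
      ext x
      constructor
      · rintro ⟨h1, o, l, h2, h3⟩
        obtain ⟨⟨c, i⟩, hx⟩ := x
        simp only at h2 h3
        subst h2
        have hx' : i ≤ P.a := hx
        refine ⟨((o, l), ⟨i - 1, by omega⟩), ⟨?_, trivial⟩, ?_⟩
        · exact (Net.Tame.thread (N := P.net) hT h3 hx).mp ⟨hx, h1⟩
        · change Net.vtx _ _ _ = Net.vtx _ _ _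
          rw [Net.vtx_inj]
          exact ⟨rfl, by simp only; omega⟩
      · rintro ⟨⟨⟨o, l⟩, i⟩, ⟨h1, _⟩, rfl⟩
        refine ⟨?_, o, l, rfl, ?_⟩
        · obtain ⟨_, h2⟩ := (Net.Tame.thread (N := P.net) hT (c := .v o l) (i := i.1 + 1)
            (by omega) i.2).mpr h1
          exact h2
        · change 1 ≤ i.1 + 1
          omega
    rw [hg, Set.ncard_image_of_injective, Set.ncard_prod, Set.ncard_univ, Nat.card_fin]
    rintro ⟨⟨o, l⟩, i⟩ ⟨⟨o', l'⟩, i'⟩ hij
    obtain ⟨h1, h2⟩ := Net.vtx_inj.mp hij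
    simp only [Core.v.injEq] at h1 h2
    obtain ⟨rfl, rfl⟩ := h1
    have : i = i' := Fin.ext (by omega)
    rw [this]
  set U : Set P.W := T ∩ (P.Wire ∪ P.Long)ᶜ with hU
  have hsplit : T.ncard = F.ncard * P.a + U.ncard := by
    rw [← hwire, ← Set.ncard_union_eq]
    · congr 1
      ext x
      constructor
      · intro h
        by_cases h1 : x ∈ P.Wire
        · exact Or.inl ⟨h, h1⟩
        · refine Or.inr ⟨h, ?_⟩
          rintro (h2 | h2)
          · exact h1 h2
          · have : x ∈ T ∩ P.Long := ⟨h, h2⟩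
            rw [hlong'] at this
            exact this
      · rintro (h | h)
        · exact h.1
        · exact h.1
    · rw [Set.disjoint_left]
      rintro x ⟨_, h1⟩ ⟨_, h2⟩
      exact h2 (Or.inl h1)
  have hUlt : U.ncard < P.a :=
    lt_of_le_of_lt (Set.ncard_le_ncard Set.inter_subset_right (Set.toFinite _)) P.rest_card
  have hclt : P.r * Nat.card Lab < P.c := P.c_big
  have hcle : P.c < P.a := by
    have h1 := P.a_big
    have h2 : 0 < Nat.card O := by
      have : Nonempty O := ⟨P.o₀⟩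
      exact Nat.card_pos
    have h4 : 1 * (P.c + 1) ≤ Nat.card O * (P.c + 1) := Nat.mul_le_mul_right _ h2
    omega
  have hFU : F.ncard = P.r * Nat.card Lab ∧ U.ncard = P.r * Nat.card Lab := by
    have h1 : P.a * F.ncard + U.ncard = P.a * (P.r * Nat.card Lab) + P.r * Nat.card Lab := by
      rw [hcard, P.t_eq] at hsplit
      rw [mul_comm P.a, ← hsplit]
      ring
    have h2 : (P.a * F.ncard + U.ncard) / P.a = F.ncard := by
      rw [Nat.mul_add_div (by omega), Nat.div_eq_of_lt hUlt, add_zero]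
    have h3 : (P.a * (P.r * Nat.card Lab) + P.r * Nat.card Lab) / P.a = P.r * Nat.card Lab := by
      rw [Nat.mul_add_div (by omega), Nat.div_eq_of_lt (by omega), add_zero]
    have h4 : F.ncard = P.r * Nat.card Lab := by rw [← h2, h1, h3]
    refine ⟨h4, ?_⟩
    rw [h4] at h1
    omega
  -- no pendant path and no segment
  have hsmall : ∀ x : Core O E Lab, (∀ o l, x ≠ .v o l) → x ≠ .q P.o₀ → ¬ Net.In T x 1 := by
    intro x hx hx0 h
    have hlen : P.net.len x = P.c := by
      rcases x with ⟨o, l⟩ | e | o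
      · exact absurd rfl (hx o l)
      · rfl
      · change (if o = P.o₀ then P.L else P.c) = P.c
        rw [if_neg]
        rintro rfl
        exact hx0 rfl
    let f : Fin P.c → P.W := fun i => Net.vtx x (i.1 + 1) (by
      rw [hlen]
      exact i.2)
    have hf : f '' univ ⊆ U := by
      rintro _ ⟨i, _, rfl⟩
      obtain ⟨_, h1⟩ := (Net.Tame.thread (N := P.net) hT (c := x) (i := i.1 + 1) (by omega) (by
        rw [hlen]
        exact i.2)).mpr h
      refine ⟨h1, ?_⟩
      rintro (⟨o, l, h2, _⟩ | ⟨h2, _⟩)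
      · exact hx o l h2
      · exact hx0 h2
    have h1 := Set.ncard_le_ncard hf (Set.toFinite _)
    rw [Set.ncard_image_of_injective _ (by
      intro i j hij
      have := (Net.vtx_inj.mp hij).2
      exact Fin.ext (by omega)), Set.ncard_univ, Nat.card_fin, hFU.2] at h1
    omega
  have hno : ∀ x : Core O E Lab, (∀ o l, x ≠ .v o l) → ¬ Net.In T x 1 := by
    intro x hx
    by_cases h : x = .q P.o₀
    · rw [h]; exact hlong
    · exact hsmall x hx h
  -- the starting points of the wires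
  set A : Set (O × Lab) := {x | Net.In T (.v x.1 x.2) 0} with hA
  have hUA : U.ncard = A.ncard := by
    let g : O × Lab → P.W := fun x => Net.vtx (.v x.1 x.2) 0 (by omega)
    have hg : U = g '' A := by
      ext x
      constructor
      · rintro ⟨h1, h2⟩
        obtain ⟨⟨c, i⟩, hx⟩ := x
        rcases Nat.eq_zero_or_pos i with h0 | h0
        · subst h0
          rcases c with ⟨o, l⟩ | e | o
          · exact ⟨(o, l), ⟨_, h1⟩, rfl⟩
          · exact absurd (Net.Tame.zero (N := P.net) hT (P.len_pos' (.z e)) ⟨hx, h1⟩)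
              (hno _ (by simp))
          · exact absurd (Net.Tame.zero (N := P.net) hT (P.len_pos' (.q o)) ⟨hx, h1⟩)
              (hno _ (by simp))
        · have h3 := (Net.Tame.thread (N := P.net) hT h0 hx).mp ⟨hx, h1⟩
          rcases c with ⟨o, l⟩ | e | o
          · exact absurd (Or.inl ⟨o, l, rfl, h0⟩) h2
          · exact absurd h3 (hno _ (by simp))
          · exact absurd h3 (hno _ (by simp))
      · rintro ⟨⟨o, l⟩, ⟨h0, h1⟩, rfl⟩
        refine ⟨h1, ?_⟩
        rintro (⟨o, l, _, h2⟩ | ⟨_, h2⟩)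
        · exact absurd h2 (by simp [g, Net.vtx])
        · exact absurd h2 (by simp [g, Net.vtx])
    rw [hg, Set.ncard_image_of_injective]
    rintro ⟨o, l⟩ ⟨o', l'⟩ hij
    obtain ⟨h1, h2⟩ := Net.vtx_inj.mp hij
    simp only [Core.v.injEq] at h1
    obtain ⟨rfl, rfl⟩ := h1
    rfl
  have hAF : A = F := by
    refine Set.eq_of_subset_of_ncard_le ?_ (by rw [← hUA, hFU.1, hFU.2]) (Set.toFinite _)
    rintro ⟨o, l⟩ h
    exact Net.Tame.zero (N := P.net) hT (P.len_pos' (.v o l)) h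
  -- closure
  have hclosed : ∀ o l, (o, P.σ l) ∈ A → (o, l) ∈ A := by
    intro o l h
    rw [hAF]
    exact Net.Tame.nxt (N := P.net) hT (P.len_pos' (.v o l)) rfl h
  have hall : ∀ o l l', (o, l) ∈ A → (o, l') ∈ A := by
    intro o l l' h
    by_contra h'
    have h1 := P.hσ {l | (o, l) ∉ A} ⟨l', h'⟩ (fun l hl hl' => hl (hclosed o l hl'))
    have h2 : l ∈ {l | (o, l) ∉ A} := by rw [h1]; trivial
    exact h2 h
  set I : Set O := {o | (o, P.l0) ∈ A} with hI
  have hAI : A = I ×ˢ univ := by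
    ext ⟨o, l⟩
    simp only [mem_prod, mem_univ, and_true]
    exact ⟨fun h => hall o l _ h, fun h => hall o _ l h⟩
  refine ⟨I, ?_, ?_⟩
  · have h1 : A.ncard = P.r * Nat.card Lab := by rw [← hUA, hFU.2]
    rw [hAI, Set.ncard_prod, Set.ncard_univ] at h1
    exact Nat.eq_of_mul_eq_mul_right hK h1
  · rintro e ⟨h1, h2⟩
    obtain ⟨_, h1'⟩ := hall _ _ (P.la e) h1
    obtain ⟨_, h2'⟩ := hall _ _ (P.lb e) h2
    have hz : Net.vtx (N := P.net) (.z e) 0 (by omega) ∉ T := by
      intro h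
      exact hno (.z e) (by simp) (Net.Tame.zero (N := P.net) hT
        (P.len_pos' (.z e)) ⟨_, h⟩)
    have h3 := hT _ hz
    rw [P.deg_z e] at h3
    have h4 : 2 ≤ degIn P.gr T (Net.vtx (.z e) 0 (by omega)) := by
      have h5 : ({Net.vtx (.v (P.s e) (P.la e)) 0 (by omega),
          Net.vtx (.v (P.u e) (P.lb e)) 0 (by omega)} : Set P.W) ⊆
          {u | P.gr.Adj (Net.vtx (.z e) 0 (by omega)) u ∧ u ∈ T} := by
        rintro w (rfl | rfl)
        · exact ⟨Net.adj_ed (by simp) (Or.inl ⟨rfl, rfl⟩), h1'⟩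
        · exact ⟨Net.adj_ed (by simp) (Or.inr ⟨rfl, rfl⟩), h2'⟩
      have h6 := Set.ncard_le_ncard h5 (Set.toFinite _)
      rw [Set.ncard_pair] at h6
      · exact h6
      · rw [Ne, Net.vtx_inj]
        simp only [Core.v.injEq, and_true, not_and]
        intro _
        exact P.la_ne_lb _ _
    omega

end Par

end Pool.Agent.Lib.MP_9a7af0_lc
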