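import Pool.Agent.Lib.MP_9a7af0_lc.Sparse2

/-!
From independent sets to tame sets with a connected complement.
-/

namespace Pool.Agent.Lib.MP_9a7af0_lc

open Set

namespace Par

variable {O E Lab : Type} [Finite O] [Finite E] [Finite Lab] (P : Par O E Lab)

/-- the union of clusters -/
def TI (I : Set O) : Set P.W := {x | ∃ o ∈ I, ∃ l, x.1.1 = .v o l}

theorem TI_card (I : Set O) : (P.TI I).ncard = I.ncard * Nat.card Lab * (P.a + 1) := by
  let g : (O × Lab) × Fin (P.a + 1) → P.W :=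
    fun x => Net.vtx (.v x.1.1 x.1.2) x.2.1 (Nat.le_of_lt_succ x.2.2)
  have hg : P.TI I = g '' ((I ×ˢ univ) ×ˢ univ) := by
    ext x
    constructor
    · rintro ⟨o, ho, l, h2⟩
      obtain ⟨⟨c, i⟩, hx⟩ := x
      simp only at h2
      subst h2
      exact ⟨((o, l), ⟨i, Nat.lt_succ_of_le hx⟩), ⟨⟨ho, trivial⟩, trivial⟩, rfl⟩
    · rintro ⟨⟨⟨o, l⟩, i⟩, ⟨⟨h1, _⟩, _⟩, rfl⟩
      exact ⟨o, h1, l, rfl⟩
  rw [hg, Set.ncard_image_of_injective, Set.ncard_prod, Set.ncard_prod, Set.ncard_univ,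
    Set.ncard_univ, Nat.card_fin]
  rintro ⟨⟨o, l⟩, i⟩ ⟨⟨o', l'⟩, i'⟩ hij
  obtain ⟨h1, h2⟩ := Net.vtx_inj.mp hij
  simp only [Core.v.injEq] at h1 h2
  obtain ⟨rfl, rfl⟩ := h1
  rw [Fin.ext h2]

theorem ncard_le_one' {V : Type} [Finite V] {S : Set V} {x : V} (h : S ⊆ {x}) :
    S.ncard ≤ 1 := by
  have h1 := Set.ncard_le_ncard h (Set.toFinite _)
  rwa [Set.ncard_singleton] at h1

theorem ncard_eq_zero' {V : Type} [Finite V] {S : Set V} (h : ∀ x, x ∉ S) :
    S.ncard = 0 := by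
  rw [Set.eq_empty_iff_forall_notMem.mpr h, Set.ncard_empty]

theorem tame_TI {I : Set O} (hI : ∀ e, ¬ (P.s e ∈ I ∧ P.u e ∈ I)) : Tame P.gr (P.TI I) := by
  rintro ⟨⟨c, i⟩, hx⟩ hT
  rcases Nat.eq_zero_or_pos i with h0 | h0
  · subst h0
    rcases c with ⟨o, l⟩ | e | o
    · have ho : o ∉ I := fun h => hT ⟨o, h, l, rfl⟩
      have h1 : degIn P.gr (P.TI I) ⟨(.v o l, 0), hx⟩ = 0 := by
        apply ncard_eq_zero'
        rintro y ⟨hy, o', ho', l', hy'⟩
        rcases P.nbr_v hy with h | ⟨l'', h3, h4, h5⟩ | ⟨h3, ⟨e, h4, _⟩ | ⟨h4, _⟩⟩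
        · rw [h.1] at hy'
          simp only [Core.v.injEq] at hy'
          exact ho (hy'.1 ▸ ho')
        · rw [h4] at hy'
          simp only [Core.v.injEq] at hy'
          exact ho (hy'.1 ▸ ho')
        · rw [h4] at hy'
          simp at hy'
        · rw [h4] at hy'
          simp at hy'
      rw [h1]
      omega
    · have h3 := P.deg_z e
      change 3 * _ ≤ degIn P.gr univ (Net.vtx (.z e) 0 (by omega))
      rw [h3]
      have h1 : degIn P.gr (P.TI I) ⟨(.z e, 0), hx⟩ ≤ 1 := by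
        by_cases hs : P.s e ∈ I
        · have hu : P.u e ∉ I := fun h => hI e ⟨hs, h⟩
          refine ncard_le_one' (x := Net.vtx (.v (P.s e) (P.la e)) 0 (by omega)) ?_
          rintro y ⟨hy, o', ho', l', hy'⟩
          rcases P.nbr_z hy with h | h | h
          · rw [h.1] at hy'
            simp at hy'
          · obtain ⟨_, h⟩ := eq_vtx h.2 h.1
            exact h
          · rw [h.2] at hy'
            simp only [Core.v.injEq] at hy'
            exact absurd ho' (hy'.1 ▸ hu)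
        · refine ncard_le_one' (x := Net.vtx (.v (P.u e) (P.lb e)) 0 (by omega)) ?_
          rintro y ⟨hy, o', ho', l', hy'⟩
          rcases P.nbr_z hy with h | h | h
          · rw [h.1] at hy'
            simp at hy'
          · rw [h.2] at hy'
            simp only [Core.v.injEq] at hy'
            exact absurd ho' (hy'.1 ▸ hs)
          · obtain ⟨_, h⟩ := eq_vtx h.2 h.1
            exact h
      omega
    · have h3 := P.deg_q o
      change 3 * _ ≤ degIn P.gr univ (Net.vtx (.q o) 0 (by omega))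
      rw [h3]
      have h1 : degIn P.gr (P.TI I) ⟨(.q o, 0), hx⟩ ≤ 1 := by
        refine ncard_le_one' (x := Net.vtx (.v o P.l0) 0 (by omega)) ?_
        rintro y ⟨hy, o', ho', l', hy'⟩
        rcases P.nbr_q hy with h | h | ⟨o'', h2, h3, h4⟩
        · rw [h.1] at hy'
          simp at hy'
        · obtain ⟨_, h⟩ := eq_vtx h.2 h.1
          exact h
        · rw [h3] at hy'
          simp at hy'
      omega
  · have h1 : degIn P.gr (P.TI I) ⟨(c, i), hx⟩ = 0 := by
      apply ncard_eq_zero'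
      rintro y ⟨hy, o', ho', l', hy'⟩
      have key : ∃ l'', c = .v o' l'' := by
        rcases Net.adj_inner (N := P.net) hx h0 hy with h | h | h
        · exact ⟨l', h.1.symm.trans hy'⟩
        · exact ⟨l', h.2.1.symm.trans hy'⟩
        · obtain ⟨_, _, h⟩ := h
          rw [hy'] at h
          rcases c with ⟨o, l⟩ | e | o
          · simp only [net, Option.some.injEq, Core.v.injEq] at h
            exact ⟨l, by rw [h.1]⟩
          · simp [net] at h
          · simp [net] at h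
      obtain ⟨l'', rfl⟩ := key
      exact hT ⟨o', ho', l'', rfl⟩
    rw [h1]
    omega

theorem connected_compl {I : Set O} (hI : ∀ e, ¬ (P.s e ∈ I ∧ P.u e ∈ I)) :
    (P.gr.induce (P.TI I)ᶜ).Connected := by
  -- paths outside the chosen clusters
  have hv : ∀ o l, o ∉ I → ∀ i (h : i ≤ P.net.len (.v o l)), Net.vtx (.v o l) i h ∈ (P.TI I)ᶜ := by
    rintro o l ho i h ⟨o', ho', l', h1⟩
    simp only [Net.vtx, Core.v.injEq] at h1
    exact ho (h1.1 ▸ ho')
  have hz : ∀ e, ∀ i (h : i ≤ P.net.len (.z e)), Net.vtx (.z e) i h ∈ (P.TI I)ᶜ := by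
    rintro e i h ⟨o', ho', l', h1⟩
    simp [Net.vtx] at h1
  have hq : ∀ o, ∀ i (h : i ≤ P.net.len (.q o)), Net.vtx (.q o) i h ∈ (P.TI I)ᶜ := by
    rintro o i h ⟨o', ho', l', h1⟩
    simp [Net.vtx] at h1
  set S : Set P.W := (P.TI I)ᶜ with hS
  set b : P.W := Net.vtx (.q P.o₀) 0 (by omega) with hb
  -- connectors
  have r1 : ∀ o, Net.Reach S b (Net.vtx (.q o) 0 (by omega)) := by
    have h1 := P.hτ {o | Net.Reach S b (Net.vtx (.q o) 0 (by omega))}
      ⟨P.o₀, Net.Reach.refl (hq _ _ _)⟩ (fun o ho => ?_)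
    · intro o
      have : o ∈ {o | Net.Reach S b (Net.vtx (.q o) 0 (by omega))} := by rw [h1]; trivial
      exact this
    · exact Net.Reach.nxt (N := P.net) (P.len_pos' _) (hq o) (hq _ _ _) rfl ho
  -- clusters
  have r2 : ∀ o, o ∉ I → ∀ l, Net.Reach S b (Net.vtx (.v o l) 0 (by omega)) := by
    intro o ho
    have h1 := P.hσ {l | Net.Reach S b (Net.vtx (.v o l) 0 (by omega))}
      ⟨P.l0, (r1 o).step (Net.adj_ed (N := P.net) (by simp) ⟨rfl, rfl⟩) (hv _ _ ho _ _)⟩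
      (fun l hl => ?_)
    · intro l
      have : l ∈ {l | Net.Reach S b (Net.vtx (.v o l) 0 (by omega))} := by rw [h1]; trivial
      exact this
    · exact Net.Reach.nxt (N := P.net) (P.len_pos' _) (hv o l ho) (hv _ _ ho _ _) rfl hl
  -- conflict vertices
  have r3 : ∀ e, Net.Reach S b (Net.vtx (.z e) 0 (by omega)) := by
    intro e
    by_cases hs : P.s e ∈ I
    · have hu : P.u e ∉ I := fun h => hI e ⟨hs, h⟩
      have h1 : P.gr.Adj (Net.vtx (.z e) 0 (by omega)) (Net.vtx (.v (P.u e) (P.lb e)) 0 (by omega)) :=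
        Net.adj_ed (by simp) (Or.inr ⟨rfl, rfl⟩)
      exact (r2 _ hu (P.lb e)).step h1.symm (hz _ _ _)
    · have h1 : P.gr.Adj (Net.vtx (.z e) 0 (by omega)) (Net.vtx (.v (P.s e) (P.la e)) 0 (by omega)) :=
        Net.adj_ed (by simp) (Or.inl ⟨rfl, rfl⟩)
      exact (r2 _ hs (P.la e)).step h1.symm (hz _ _ _)
  have r4 : ∀ x ∈ S, Net.Reach S b x := by
    rintro ⟨⟨c, i⟩, hx⟩ hxS
    rcases c with ⟨o, l⟩ | e | o
    · have ho : o ∉ I := fun h => hxS ⟨o, h, l, rfl⟩
      exact Net.Reach.path (N := P.net) (hv o l ho) (r2 o ho l) i hx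
    · exact Net.Reach.path (N := P.net) (hz e) (r3 e) i hx
    · exact Net.Reach.path (N := P.net) (hq o) (r1 o) i hx
  have hbS : b ∈ S := hq _ _ _
  refine (SimpleGraph.connected_iff_exists_forall_reachable _).mpr ⟨⟨b, hbS⟩, ?_⟩
  rintro ⟨x, hx⟩
  obtain ⟨_, _, h⟩ := r4 x hx
  exact h

theorem preconnected : P.gr.Preconnected := by
  have h := P.connected_compl (I := ∅) (by simp)
  have h1 : (P.TI (∅ : Set O))ᶜ = univ := by
    ext x
    simp [TI]
  rw [h1] at h
  have := (SimpleGraph.induceUnivIso P.gr).connected_iff.mp h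
  exact this.preconnected

theorem tame_iff : (∃ T : Set P.W, T.ncard = P.t ∧ Tame P.gr T) ↔
    ∃ I : Set O, I.ncard = P.r ∧ ∀ e, ¬ (P.s e ∈ I ∧ P.u e ∈ I) := by
  constructor
  · rintro ⟨T, h1, h2⟩
    exact P.indep_of_tame h2 h1
  · rintro ⟨I, h1, h2⟩
    exact ⟨P.TI I, by rw [P.TI_card, h1, P.t_eq], P.tame_TI h2⟩

theorem tame_iff' : (∃ T : Set P.W, T.ncard = P.t ∧ Tame P.gr T ∧ (P.gr.induce Tᶜ).Connected) ↔
    ∃ I : Set O, I.ncard = P.r ∧ ∀ e, ¬ (P.s e ∈ I ∧ P.u e ∈ I) := by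
  constructor
  · rintro ⟨T, h1, h2, _⟩
    exact P.indep_of_tame h2 h1
  · rintro ⟨I, h1, h2⟩
    exact ⟨P.TI I, by rw [P.TI_card, h1, P.t_eq], P.tame_TI h2, P.connected_compl h2⟩

theorem pds_iff : HasPDS P.gr (2 * P.t + 1) ↔
    ∃ I : Set O, I.ncard = P.r ∧ ∀ e, ¬ (P.s e ∈ I ∧ P.u e ∈ I) := by
  rw [hasPDS_iff P.t_pos P.card_W P.deg_le P.preconnected, P.tame_iff]

theorem connPds_iff : HasConnPDS P.gr (2 * P.t + 1) ↔
    ∃ I : Set O, I.ncard = P.r ∧ ∀ e, ¬ (P.s e ∈ I ∧ P.u e ∈ I) := by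
  rw [hasConnPDS_iff P.t_pos P.card_W P.deg_le P.preconnected, P.tame_iff']

theorem maxDegree : MaxDegree P.gr 3 := ⟨P.deg_le, _, P.deg_q P.o₀⟩

theorem hIndex (hO : 3 ≤ Nat.card O) : HIndex P.gr 3 := by
  constructor
  · have h1 : (fun o : O => (Net.vtx (.q o) 0 (by omega) : P.W)) '' univ ⊆
        {v : P.W | 3 ≤ degIn P.gr Set.univ v} := by
      rintro _ ⟨o, _, rfl⟩
      exact (P.deg_q o).ge
    have h2 := Set.ncard_le_ncard h1 (Set.toFinite _)
    rw [Set.ncard_image_of_injective, Set.ncard_univ] at h2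
    · exact hO.trans h2
    · intro o o' h
      have := (Net.vtx_inj.mp h).1
      simpa using this
  · intro h hh
    by_contra hlt
    have h1 : {v : P.W | h ≤ degIn P.gr Set.univ v}.ncard = 0 := by
      apply ncard_eq_zero'
      intro v hv
      have h2 := P.deg_le v
      have h3 : h ≤ degIn P.gr Set.univ v := hv
      omega
    have h2 : h ≤ {v : P.W | h ≤ degIn P.gr Set.univ v}.ncard := hh
    omega

end Par

end Pool.Agent.Lib.MP_9a7af0_lc
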